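import Pool.Agent.Lib.MP_3e612f_nt.NF.Q.EQ
import Pool.Agent.Lib.MP_3e612f_nt.NF.ApCount

/-! The bracket lemma (paper: Q-BL). -/

set_option autoImplicit false

namespace Pool.Agent.Lib.MP_3e612f_nt.NF

open Finset
open Pool.Agent.Lib.MP_3e612f_nt.MR (mu ex)

theorem bl_abs_le {y : ℝ} (hy : |y| ≤ 1 / 2) : |y| ≤ dZ y := by
  obtain ⟨z, hz⟩ := exists_int y
  rw [← hz]
  by_cases h0 : z = 0
  · rw [h0, Int.cast_zero, sub_zero]
  · have h1 : (1 : ℝ) ≤ |(z : ℝ)| := by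
      have : (1 : ℤ) ≤ |z| := Int.one_le_abs h0
      exact_mod_cast this
    have h2 : |(z : ℝ)| ≤ |y| + |y - z| := by
      have h3 : (z : ℝ) = y - (y - z) := by ring
      calc |(z : ℝ)| = |y - (y - z)| := by rw [← h3]
        _ ≤ |y| + |y - z| := abs_sub _ _
    linarith

theorem bl_fract (x y : ℝ) : dZ (x - y) ≤ |Int.fract x - Int.fract y| := by
  have h1 : x - y = (Int.fract x - Int.fract y) + ((⌊x⌋ - ⌊y⌋ : ℤ) : ℝ) := by
    push_cast
    unfold Int.fract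
    ring
  rw [h1, dZ_add_int]
  exact dZ_le_abs _

theorem bl_card {δ : ℝ} {K : ℕ} (hδ : 0 < δ) (hK : 1 ≤ K) {S : Finset ℕ} (h : δ * K ≤ (#S : ℝ)) : S.Nonempty := by
  rw [nonempty_iff_ne_empty]
  intro h0
  rw [h0, card_empty, Nat.cast_zero] at h
  have : (0 : ℝ) < K := by exact_mod_cast hK
  have : 0 < δ * K := by positivity
  linarith

open scoped Classical in
/-- step (i): a relation between `β` and `τ` -/
theorem bl_one (ι : Type) [Fintype ι] (δ C : ℝ) (hδ : 0 < δ) (hC : 0 < C) : ∃ M : ℕ, 1 ≤ M ∧ ∀ K : ℕ, M ≤ K → ∀ (β ζ : ι → ℝ) (τ c : ℝ), (∀ i, |ζ i| ≤ 1) →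
    δ * K ≤ (#((range K).filter (fun k : ℕ => dZ (c + k * τ + ∑ i, ζ i * Int.fract ((k : ℝ) * β i)) ≤ C / K)) : ℝ) →
    ∃ m : Option ι → ℤ, m ≠ 0 ∧ (∀ o, |m o| ≤ M) ∧ dZ (dot m (fun o => o.elim τ β)) ≤ M / K := by
  set d : ℕ := Fintype.card ι with hd
  set D : ℝ := d + 1 with hD
  have hD1 : 1 ≤ D := by rw [hD]; have : (0 : ℝ) ≤ d := Nat.cast_nonneg _; linarith
  obtain ⟨R, hR⟩ := exists_nat_gt (4 * (3 * D) ^ (d + 1) / δ)
  have hR0 : (0 : ℝ) < R := lt_of_le_of_lt (by positivity) hR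
  have hR1 : 1 ≤ R := by exact_mod_cast hR0
  set ε₁ : ℝ := δ / (4 * (R : ℝ) ^ d) with hε₁
  have hε₁0 : 0 < ε₁ := by positivity
  obtain ⟨M₁, hM₁⟩ := eq_count (Option ι) (D / R) ε₁ (by positivity) hε₁0
  refine ⟨M₁ + ⌈2 * C * R⌉₊ + 1, by omega, fun K hK β ζ τ c hζ hS => ?_⟩
  set M : ℕ := M₁ + ⌈2 * C * R⌉₊ + 1 with hM
  by_contra hcon
  push Not at hcon
  have hNR : NoRelAt M K (fun o : Option ι => o.elim τ β) := hcon
  have hK1 : 1 ≤ K := by omega
  have hK0 : (0 : ℝ) < K := by exact_mod_cast hK1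
  set S := (range K).filter (fun k : ℕ => dZ (c + k * τ + ∑ i, ζ i * Int.fract ((k : ℝ) * β i)) ≤ C / K) with hSdef
  have hSne : S.Nonempty := bl_card hδ hK1 hS
  obtain ⟨k₀, hk₀, hcell⟩ := pig_cell (fun _ : ι => R) (fun _ => hR1) S hSne (fun k i => Int.fract ((k : ℝ) * β i))
    (fun k _ i => ⟨Int.fract_nonneg _, Int.fract_lt_one _⟩)
  set S' := S.filter (fun k : ℕ => ∀ i, |Int.fract ((k : ℝ) * β i) - Int.fract ((k₀ : ℝ) * β i)| ≤ 1 / ((fun _ : ι => R) i : ℕ)) with hS'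
  have hcount := hM₁ K hK1 (fun o : Option ι => o.elim τ β) (hNR.mono (by omega)) (fun o => k₀ * (o.elim τ β)) 0 K S' ?_ ?_
  · rw [Fintype.card_option, ← hd] at hcount
    rw [prod_const, card_univ, ← hd] at hcell
    have h1 : (#S : ℝ) ≤ (R : ℝ) ^ d * #S' := by exact_mod_cast hcell
    have h2 : (R : ℝ) ^ d * #S' ≤ (R : ℝ) ^ d * ((3 * (D / R)) ^ (d + 1) * K + ε₁ * K) := mul_le_mul_of_nonneg_left hcount (by positivity)
    have h3 : (R : ℝ) ^ d * ((3 * (D / R)) ^ (d + 1) * K + ε₁ * K) = ((3 * D) ^ (d + 1) / R + δ / 4) * K := by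
      rw [hε₁, show 3 * (D / R) = 3 * D / R by ring, div_pow, pow_succ (R : ℝ) d]
      field_simp
    have h4 : (3 * D) ^ (d + 1) / R ≤ δ / 4 := by
      rw [div_lt_iff₀ hδ] at hR
      rw [div_le_iff₀ hR0]
      linarith
    have h5 : ((3 * D) ^ (d + 1) / R + δ / 4) * K ≤ (δ / 4 + δ / 4) * K := mul_le_mul_of_nonneg_right (by linarith) hK0.le
    have h6 : 0 < δ * K := by positivity
    linarith
  · intro k hk
    rw [hS', mem_filter, hSdef, mem_filter, mem_range] at hk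
    rw [mem_Ico]
    omega
  · intro k hk o
    rw [hS', mem_filter] at hk
    have h1 : (1 : ℝ) / R ≤ D / R := div_le_div_of_nonneg_right hD1 hR0.le
    rcases o with _ | i
    · change dZ ((k : ℝ) * τ - k₀ * τ) ≤ D / R
      have hk1 := (mem_filter.1 hk.1).2
      have hk2 := (mem_filter.1 hk₀).2
      have h2 : (k : ℝ) * τ - k₀ * τ = ((c + k * τ + ∑ i, ζ i * Int.fract ((k : ℝ) * β i)) - (c + k₀ * τ + ∑ i, ζ i * Int.fract ((k₀ : ℝ) * β i)))
          - ∑ i, ζ i * (Int.fract ((k : ℝ) * β i) - Int.fract ((k₀ : ℝ) * β i)) := by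
        simp only [mul_sub, sum_sub_distrib]
        ring
      have h3 : |∑ i, ζ i * (Int.fract ((k : ℝ) * β i) - Int.fract ((k₀ : ℝ) * β i))| ≤ d / R := by
        refine (abs_sum_le_sum_abs _ _).trans ?_
        have h4 : ∀ i ∈ (univ : Finset ι), |ζ i * (Int.fract ((k : ℝ) * β i) - Int.fract ((k₀ : ℝ) * β i))| ≤ 1 / R := by
          intro i _
          rw [abs_mul]
          have h5 := hk.2 i
          simp only at h5
          calc |ζ i| * |Int.fract ((k : ℝ) * β i) - Int.fract ((k₀ : ℝ) * β i)| ≤ 1 * (1 / R) := mul_le_mul (hζ i) h5 (abs_nonneg _) zero_le_one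
            _ = 1 / R := one_mul _
        refine (sum_le_sum h4).trans (le_of_eq ?_)
        rw [sum_const, card_univ, ← hd, nsmul_eq_mul, mul_one_div]
      have h6 : C / K + C / K ≤ 1 / R := by
        have h7 : 2 * C * R ≤ K := (Nat.le_ceil _).trans (by exact_mod_cast (by omega : ⌈2 * C * R⌉₊ ≤ K))
        rw [← add_div, div_le_div_iff₀ hK0 hR0]
        linarith
      rw [h2]
      refine (dZ_sub_le _ _).trans ?_
      have h8 := dZ_sub_le (c + k * τ + ∑ i, ζ i * Int.fract ((k : ℝ) * β i)) (c + k₀ * τ + ∑ i, ζ i * Int.fract ((k₀ : ℝ) * β i))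
      have h9 := dZ_le_abs (∑ i, ζ i * (Int.fract ((k : ℝ) * β i) - Int.fract ((k₀ : ℝ) * β i)))
      have h10 : D / R = d / R + 1 / R := by rw [hD, add_div]
      linarith
    · exact (bl_fract _ _).trans ((hk.2 i).trans h1)

open scoped Classical in
/-- step (iii): the coefficients are small -/
theorem bl_two (ι : Type) [Fintype ι] (δ C B : ℝ) (hδ : 0 < δ) (hC : 0 < C) (hB : 1 ≤ B) : ∃ M : ℕ, 1 ≤ M ∧ ∀ K : ℕ, M ≤ K → ∀ (β : ι → ℝ) (W : Option ι → ℝ) (c : ℝ), (∀ o, |W o| ≤ B) →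
    δ * K ≤ (#((range K).filter (fun k : ℕ => dZ (c + (W none * (k / K) + ∑ i, W (some i) * Int.fract ((k : ℝ) * β i))) ≤ C / K)) : ℝ) →
    NoRelAt M K β → ∀ o, |W o| ≤ M / K := by
  set d : ℕ := Fintype.card ι with hd
  set D : ℝ := d + 1 with hD
  have hD1 : 1 ≤ D := by rw [hD]; have : (0 : ℝ) ≤ d := Nat.cast_nonneg _; linarith
  obtain ⟨R₂, hR₂⟩ := exists_nat_gt (2 * D * B)
  have hR₂0 : (0 : ℝ) < R₂ := lt_of_le_of_lt (by positivity) hR₂
  have hR₂1 : 1 ≤ R₂ := by exact_mod_cast hR₂0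
  obtain ⟨R₀, hR₀⟩ := exists_nat_gt (4 * R₂ * (3 * D) ^ (d + 1) / δ)
  obtain ⟨R₁, hR₁⟩ : ∃ R₁ : ℕ, R₁ = R₀ + R₂ := ⟨_, rfl⟩
  have hR₁1 : 1 ≤ R₁ := by omega
  have hR₁0 : (0 : ℝ) < R₁ := by exact_mod_cast hR₁1
  have hR₂₁ : (R₂ : ℝ) ≤ R₁ := by exact_mod_cast (by omega : R₂ ≤ R₁)
  have hR₁' : 4 * R₂ * (3 * D) ^ (d + 1) / δ < R₁ := lt_of_lt_of_le hR₀ (by exact_mod_cast (by omega : R₀ ≤ R₁))
  set ε₂ : ℝ := δ / (4 * R₂ * (R₁ : ℝ) ^ d) with hε₂
  have hε₂0 : 0 < ε₂ := by positivity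
  obtain ⟨M₂, hM₂⟩ := eq_count ι (D / R₁) ε₂ (by positivity) hε₂0
  refine ⟨M₂ + ⌈2 * C * R₁⌉₊ + R₁ + 1, by omega, fun K hK β W c hW hS hNR => ?_⟩
  set M : ℕ := M₂ + ⌈2 * C * R₁⌉₊ + R₁ + 1 with hM
  have hK1 : 1 ≤ K := by omega
  have hK0 : (0 : ℝ) < K := by exact_mod_cast hK1
  obtain ⟨o₀, _, ho₀⟩ := exists_max_image (univ : Finset (Option ι)) (fun o => |W o|) ⟨none, mem_univ _⟩
  suffices hsuff : |W o₀| ≤ M / K by
    intro o
    exact (ho₀ o (mem_univ _)).trans hsuff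
  by_contra hcon
  push Not at hcon
  set s : ℝ := |W o₀| with hs
  have hs0 : 0 < s := lt_of_le_of_lt (by positivity) hcon
  set y : ℕ → Option ι → ℝ := fun k o => o.elim ((k : ℝ) / K) (fun i => Int.fract ((k : ℝ) * β i)) with hy
  set S := (range K).filter (fun k : ℕ => dZ (c + (W none * (k / K) + ∑ i, W (some i) * Int.fract ((k : ℝ) * β i))) ≤ C / K) with hSdef
  have hSne : S.Nonempty := bl_card hδ hK1 hS
  have hphase : ∀ k ∈ S, dZ (c + ∑ o, W o * y k o) ≤ C / K := by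
    intro k hk
    rw [Fintype.sum_option]
    exact (mem_filter.1 hk).2
  have hy01 : ∀ k ∈ S, ∀ o, 0 ≤ y k o ∧ y k o < 1 := by
    intro k hk o
    rcases o with _ | i
    · have h1 : k < K := mem_range.1 (mem_filter.1 hk).1
      have h2 : (k : ℝ) < K := by exact_mod_cast h1
      refine ⟨by simp only [hy, Option.elim]; positivity, ?_⟩
      change (k : ℝ) / K < 1
      rw [div_lt_one hK0]
      exact h2
    · exact ⟨Int.fract_nonneg _, Int.fract_lt_one _⟩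
  obtain ⟨k₀, hk₀, hcell⟩ := pig_cell (fun o : Option ι => if o = o₀ then R₂ else R₁) (fun o => by split_ifs <;> assumption) S hSne y hy01
  set S' := S.filter (fun k => ∀ o, |y k o - y k₀ o| ≤ 1 / ((if o = o₀ then R₂ else R₁ : ℕ) : ℝ)) with hS'
  have hprod : ∏ o : Option ι, (if o = o₀ then R₂ else R₁) = R₂ * R₁ ^ d := by
    rw [← mul_prod_erase univ _ (mem_univ o₀), if_pos rfl]
    congr 1
    rw [prod_congr rfl (fun o ho => if_neg (mem_erase.1 ho).1), prod_const, card_erase_of_mem (mem_univ _), card_univ, Fintype.card_option, Nat.add_sub_cancel]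
  rw [hprod] at hcell
  -- all differences are at most `D / R₁`
  have hclose : ∀ k ∈ S', ∀ o, |y k o - y k₀ o| ≤ D / R₁ := by
    intro k hk
    have hkS := (mem_filter.1 hk).1
    have hkc := (mem_filter.1 hk).2
    have hne : ∀ o, o ≠ o₀ → |y k o - y k₀ o| ≤ 1 / R₁ := by
      intro o ho
      have := hkc o
      rwa [if_neg ho] at this
    have heq : |y k o₀ - y k₀ o₀| ≤ 1 / R₂ := by
      have := hkc o₀
      rwa [if_pos rfl] at this
    have h12 : (1 : ℝ) / R₁ ≤ 1 / R₂ := one_div_le_one_div_of_le hR₂0 hR₂₁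
    have hall : ∀ o, |y k o - y k₀ o| ≤ 1 / R₂ := by
      intro o
      by_cases ho : o = o₀
      · rw [ho]; exact heq
      · exact (hne o ho).trans h12
    set t : ℝ := ∑ o, W o * (y k o - y k₀ o) with ht
    have ht1 : |t| ≤ 1 / 2 := by
      refine (abs_sum_le_sum_abs _ _).trans ?_
      have h1 : ∀ o ∈ (univ : Finset (Option ι)), |W o * (y k o - y k₀ o)| ≤ B * (1 / R₂) := by
        intro o _
        rw [abs_mul]
        exact mul_le_mul (hW o) (hall o) (abs_nonneg _) (by linarith)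
      refine (sum_le_sum h1).trans ?_
      rw [sum_const, card_univ, Fintype.card_option, ← hd, nsmul_eq_mul]
      have h2 : ((d + 1 : ℕ) : ℝ) * (B * (1 / R₂)) = D * B / R₂ := by
        rw [hD]
        push_cast
        ring
      rw [h2, div_le_iff₀ hR₂0]
      linarith
    have ht2 : dZ t ≤ C / K + C / K := by
      have h1 : t = (c + ∑ o, W o * y k o) - (c + ∑ o, W o * y k₀ o) := by
        rw [ht]
        simp only [mul_sub, sum_sub_distrib]
        ring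
      rw [h1]
      exact (dZ_sub_le _ _).trans (add_le_add (hphase k hkS) (hphase k₀ hk₀))
    have ht3 : |t| ≤ C / K + C / K := (bl_abs_le ht1).trans ht2
    have hCs : C / K + C / K ≤ s / R₁ := by
      have h1 : 2 * C * R₁ ≤ M := (Nat.le_ceil _).trans (by exact_mod_cast (by omega : ⌈2 * C * R₁⌉₊ ≤ M))
      rw [← add_div, div_le_div_iff₀ hK0 hR₁0]
      rw [div_lt_iff₀ hK0] at hcon
      linarith
    have hsum : |∑ o ∈ univ.erase o₀, W o * (y k o - y k₀ o)| ≤ d * (s * (1 / R₁)) := by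
      refine (abs_sum_le_sum_abs _ _).trans ?_
      have h1 : ∀ o ∈ univ.erase o₀, |W o * (y k o - y k₀ o)| ≤ s * (1 / R₁) := by
        intro o ho
        rw [abs_mul]
        exact mul_le_mul (ho₀ o (mem_univ _)) (hne o (mem_erase.1 ho).1) (abs_nonneg _) hs0.le
      refine (sum_le_sum h1).trans (le_of_eq ?_)
      rw [sum_const, card_erase_of_mem (mem_univ _), card_univ, Fintype.card_option, Nat.add_sub_cancel, ← hd, nsmul_eq_mul]
    have ho₀c : |y k o₀ - y k₀ o₀| ≤ D / R₁ := by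
      have h1 : W o₀ * (y k o₀ - y k₀ o₀) = t - ∑ o ∈ univ.erase o₀, W o * (y k o - y k₀ o) := by
        rw [ht, ← add_sum_erase univ _ (mem_univ o₀)]
        ring
      have h2 : s * |y k o₀ - y k₀ o₀| ≤ s * (D / R₁) := by
        rw [hs, ← abs_mul, h1]
        refine (abs_sub _ _).trans ?_
        have h3 : |W o₀| * (D / R₁) = s / R₁ + d * (s * (1 / R₁)) := by
          rw [← hs, hD]
          ring
        rw [h3]
        linarith
      exact le_of_mul_le_mul_left h2 hs0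
    intro o
    by_cases ho : o = o₀
    · rw [ho]; exact ho₀c
    · exact (hne o ho).trans (div_le_div_of_nonneg_right hD1 hR₁0.le)
  set F : ℕ := ⌊D / R₁ * K⌋₊ with hF
  have hF1 : (F : ℝ) ≤ D / R₁ * K := Nat.floor_le (by positivity)
  have hcount := hM₂ K hK1 β (hNR.mono (by omega)) (fun i => k₀ * β i) (k₀ - F) (2 * F + 1) S' ?_ ?_
  · rw [← hd] at hcount
    have h1 : (#S : ℝ) ≤ R₂ * (R₁ : ℝ) ^ d * #S' := by exact_mod_cast hcell
    have hDK : 1 ≤ D / R₁ * K := by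
      have h2 : (R₁ : ℝ) ≤ K := by exact_mod_cast (by omega : R₁ ≤ K)
      rw [div_mul_eq_mul_div, le_div_iff₀ hR₁0, one_mul]
      nlinarith
    have hN : ((2 * F + 1 : ℕ) : ℝ) ≤ 3 * (D / R₁) * K := by
      push_cast
      linarith
    have h2 : (3 * (D / R₁)) ^ d * ((2 * F + 1 : ℕ) : ℝ) ≤ (3 * (D / R₁)) ^ d * (3 * (D / R₁) * K) := mul_le_mul_of_nonneg_left hN (by positivity)
    have h3 : (#S' : ℝ) ≤ (3 * (D / R₁)) ^ d * (3 * (D / R₁) * K) + ε₂ * K := hcount.trans (by linarith)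
    have h4 : R₂ * (R₁ : ℝ) ^ d * #S' ≤ R₂ * (R₁ : ℝ) ^ d * ((3 * (D / R₁)) ^ d * (3 * (D / R₁) * K) + ε₂ * K) := mul_le_mul_of_nonneg_left h3 (by positivity)
    have h5 : R₂ * (R₁ : ℝ) ^ d * ((3 * (D / R₁)) ^ d * (3 * (D / R₁) * K) + ε₂ * K) = (R₂ * (3 * D) ^ (d + 1) / R₁ + δ / 4) * K := by
      rw [hε₂, show 3 * (D / R₁) = 3 * D / R₁ by ring, div_pow, pow_succ (3 * D) d]
      field_simp
    have h6 : R₂ * (3 * D) ^ (d + 1) / R₁ ≤ δ / 4 := by
      rw [div_lt_iff₀ hδ] at hR₁'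
      rw [div_le_iff₀ hR₁0]
      linarith
    have h7 : (R₂ * (3 * D) ^ (d + 1) / R₁ + δ / 4) * K ≤ (δ / 4 + δ / 4) * K := mul_le_mul_of_nonneg_right (by linarith) hK0.le
    have h8 : 0 < δ * K := by positivity
    linarith
  · intro k hk
    have h1 := hclose k hk none
    change |(k : ℝ) / K - (k₀ : ℝ) / K| ≤ D / R₁ at h1
    rw [← sub_div, abs_div, abs_of_pos hK0, div_le_iff₀ hK0] at h1
    have h2 := abs_le.1 h1
    rw [mem_Ico]
    have h3 : k₀ ≤ k + F := by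
      rcases le_total k₀ k with h | h
      · omega
      · have : k₀ - k ≤ F := by
          rw [hF]
          refine Nat.le_floor ?_
          rw [Nat.cast_sub h]
          linarith [h2.1]
        omega
    have h4 : k ≤ k₀ + F := by
      rcases le_total k k₀ with h | h
      · omega
      · have : k - k₀ ≤ F := by
          rw [hF]
          refine Nat.le_floor ?_
          rw [Nat.cast_sub h]
          linarith [h2.2]
        omega
    omega
  · intro k hk i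
    exact (bl_fract _ _).trans (hclose k hk (some i))

/-- Q-BL. -/
theorem bl (ι : Type) [Fintype ι] (δ C : ℝ) (hδ : 0 < δ) (hC : 0 < C) : ∃ M : ℕ, 1 ≤ M ∧ ∀ K : ℕ, 1 ≤ K → ∀ (β ζ : ι → ℝ) (c : ℝ),
    δ * K ≤ ((((range K).filter (fun k : ℕ => dZ (c + ∑ i, ζ i * Int.fract ((k : ℝ) * β i)) ≤ C / K)).card : ℕ) : ℝ) →
    (∃ m : ι → ℤ, m ≠ 0 ∧ (∀ i, |m i| ≤ M) ∧ dZ (dot m β) ≤ M / K) ∨ (∃ m₀ : ℕ, 1 ≤ m₀ ∧ m₀ ≤ M ∧ ∀ i, dZ (m₀ * ζ i) ≤ M / K) := by
  classical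
  obtain ⟨M₁, hM₁1, hM₁⟩ := bl_one ι δ C hδ hC
  have hM₁0 : (1 : ℝ) ≤ M₁ := by exact_mod_cast hM₁1
  obtain ⟨M₂, hM₂1, hM₂⟩ := bl_two ι δ (M₁ * C) (2 * M₁) hδ (by positivity) (by linarith)
  refine ⟨M₁ + M₂, by omega, fun K hK β ζ c hS => ?_⟩
  have hK0 : (0 : ℝ) < K := by exact_mod_cast hK
  have hMM₁ : (M₁ : ℝ) ≤ ((M₁ + M₂ : ℕ) : ℝ) := by exact_mod_cast (by omega : M₁ ≤ M₁ + M₂)
  have hMM₂ : (M₂ : ℝ) ≤ ((M₁ + M₂ : ℕ) : ℝ) := by exact_mod_cast (by omega : M₂ ≤ M₁ + M₂)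
  rcases lt_or_ge K (M₁ + M₂) with hKM | hKM
  · right
    refine ⟨1, le_rfl, by omega, fun i => ?_⟩
    have h1 : (K : ℝ) ≤ ((M₁ + M₂ : ℕ) : ℝ) := by exact_mod_cast hKM.le
    have h2 : (1 : ℝ) ≤ ((M₁ + M₂ : ℕ) : ℝ) / K := by
      rw [le_div_iff₀ hK0, one_mul]
      exact h1
    have h3 := dZ_le_half (((1 : ℕ) : ℝ) * ζ i)
    linarith
  by_cases hNR : NoRelAt (M₁ + M₂) K β
  swap
  · left
    unfold NoRelAt at hNR
    push Not at hNR
    exact hNR
  right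
  -- the relation between `β` and `τ`
  set τ : ℝ := ∑ i, (⌊ζ i⌋ : ℝ) * β i with hτ
  have hph : ∀ k : ℕ, dZ (c + ∑ i, ζ i * Int.fract ((k : ℝ) * β i)) = dZ (c + k * τ + ∑ i, Int.fract (ζ i) * Int.fract ((k : ℝ) * β i)) := by
    intro k
    have h1 : c + k * τ + ∑ i, Int.fract (ζ i) * Int.fract ((k : ℝ) * β i)
        = (c + ∑ i, ζ i * Int.fract ((k : ℝ) * β i)) + ((∑ i, ⌊ζ i⌋ * ⌊(k : ℝ) * β i⌋ : ℤ) : ℝ) := by
      rw [hτ]
      push_cast
      rw [mul_sum, add_assoc, add_assoc, ← sum_add_distrib, ← sum_add_distrib]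
      congr 1
      refine sum_congr rfl fun i _ => ?_
      have h2 : ((k : ℝ) * β i) = ⌊(k : ℝ) * β i⌋ + Int.fract ((k : ℝ) * β i) := (Int.floor_add_fract _).symm
      have h3 : ζ i = ⌊ζ i⌋ + Int.fract (ζ i) := (Int.floor_add_fract _).symm
      generalize Int.fract ((k : ℝ) * β i) = f at h2 ⊢
      generalize ((⌊(k : ℝ) * β i⌋ : ℤ) : ℝ) = g at h2 ⊢
      generalize Int.fract (ζ i) = f' at h3 ⊢
      generalize ((⌊ζ i⌋ : ℤ) : ℝ) = g' at h3 ⊢
      have h4 : (k : ℝ) * (g' * β i) = g' * (k * β i) := by ring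
      rw [h4, h2, h3]
      ring
    rw [h1, dZ_add_int]
  simp only [hph] at hS
  obtain ⟨m', hm'0, hm'M, hm'⟩ := hM₁ K (by omega) β (fun i => Int.fract (ζ i)) τ c
    (fun i => by rw [abs_of_nonneg (Int.fract_nonneg _)]; exact (Int.fract_lt_one _).le) hS
  have hnone : m' none ≠ 0 := by
    intro h0
    have h1 : dot m' (fun o : Option ι => o.elim τ β) = dot (fun i => m' (some i)) β := by
      unfold dot
      rw [Fintype.sum_option, h0]
      simp
    rw [h1] at hm'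
    have h2 : (fun i => m' (some i)) ≠ 0 := by
      intro h3
      apply hm'0
      funext o
      rcases o with _ | i
      · exact h0
      · exact congrFun h3 i
    have h4 := hNR (fun i => m' (some i)) h2 (fun i => (hm'M (some i)).trans (by exact_mod_cast (by omega : M₁ ≤ M₁ + M₂)))
    have h5 : (M₁ : ℝ) / K ≤ ((M₁ + M₂ : ℕ) : ℝ) / K := div_le_div_of_nonneg_right hMM₁ hK0.le
    linarith
  obtain ⟨m, hmpos, hmM, hm⟩ : ∃ m : Option ι → ℤ, 0 < m none ∧ (∀ o, |m o| ≤ M₁) ∧ dZ (dot m (fun o => o.elim τ β)) ≤ M₁ / K := by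
    rcases lt_or_gt_of_ne hnone with h | h
    · refine ⟨-m', by rw [Pi.neg_apply]; omega, fun o => ?_, ?_⟩
      · rw [Pi.neg_apply, abs_neg]
        exact hm'M o
      · rw [dot_neg_left, dZ_neg]
        exact hm'
    · exact ⟨m', h, hm'M, hm'⟩
  obtain ⟨m₀, hm₀⟩ := Int.eq_ofNat_of_zero_le hmpos.le
  have hm₀1 : 1 ≤ m₀ := by omega
  have hm₀M : m₀ ≤ M₁ := by
    have := hmM none
    rw [hm₀, Nat.abs_cast] at this
    exact_mod_cast this
  have hm₀0 : (0 : ℝ) ≤ m₀ := Nat.cast_nonneg _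
  have hm₀M' : (m₀ : ℝ) ≤ M₁ := by exact_mod_cast hm₀M
  obtain ⟨n, hn⟩ := exists_int (dot m (fun o : Option ι => o.elim τ β))
  have hdot : dot m (fun o : Option ι => o.elim τ β) = m₀ * τ + ∑ i, (m (some i) : ℝ) * β i := by
    unfold dot
    rw [Fintype.sum_option, hm₀]
    simp
  rw [← hn, hdot] at hm
  set a : ℝ := K * (m₀ * τ + ∑ i, (m (some i) : ℝ) * β i - n) with ha
  have haM : |a| ≤ M₁ := by
    rw [ha, abs_mul, abs_of_pos hK0]
    rw [le_div_iff₀ hK0] at hm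
    linarith
  set W : Option ι → ℝ := fun o => o.elim a (fun i => m₀ * Int.fract (ζ i) - m (some i)) with hW
  have hWB : ∀ o, |W o| ≤ 2 * M₁ := by
    intro o
    rcases o with _ | i
    · change |a| ≤ _
      linarith
    · change |(m₀ : ℝ) * Int.fract (ζ i) - m (some i)| ≤ _
      refine (abs_sub _ _).trans ?_
      have h1 : |(m₀ : ℝ) * Int.fract (ζ i)| ≤ M₁ := by
        rw [abs_mul, abs_of_nonneg hm₀0, abs_of_nonneg (Int.fract_nonneg _)]
        have := (Int.fract_lt_one (ζ i)).le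
        have h0 := Int.fract_nonneg (ζ i)
        nlinarith
      have h2 : |((m (some i) : ℤ) : ℝ)| ≤ M₁ := by exact_mod_cast hmM (some i)
      linarith
  have hmain := hM₂ K (by omega) β W (m₀ * c) hWB ?_ (hNR.mono (by omega))
  · refine ⟨m₀, hm₀1, by omega, fun i => ?_⟩
    have h1 : (m₀ : ℝ) * ζ i = W (some i) + ((m (some i) + m₀ * ⌊ζ i⌋ : ℤ) : ℝ) := by
      change (m₀ : ℝ) * ζ i = ((m₀ : ℝ) * Int.fract (ζ i) - m (some i)) + _
      push_cast
      have h3 : ζ i = ⌊ζ i⌋ + Int.fract (ζ i) := (Int.floor_add_fract _).symm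
      generalize Int.fract (ζ i) = f' at h3 ⊢
      generalize ((⌊ζ i⌋ : ℤ) : ℝ) = g' at h3 ⊢
      rw [h3]
      ring
    rw [h1, dZ_add_int]
    refine (dZ_le_abs _).trans ((hmain (some i)).trans ?_)
    exact div_le_div_of_nonneg_right hMM₂ hK0.le
  · refine hS.trans ?_
    refine Nat.cast_le.2 (card_le_card ?_)
    intro k hk
    rw [mem_filter] at hk ⊢
    refine ⟨hk.1, ?_⟩
    have h1 : (m₀ : ℝ) * c + (W none * (k / K) + ∑ i, W (some i) * Int.fract ((k : ℝ) * β i))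
        = m₀ * (c + k * τ + ∑ i, Int.fract (ζ i) * Int.fract ((k : ℝ) * β i)) + (((∑ i, m (some i) * ⌊(k : ℝ) * β i⌋) - k * n : ℤ) : ℝ) := by
      have h2 : W none * (k / K) = k * (m₀ * τ + ∑ i, (m (some i) : ℝ) * β i - n) := by
        change a * (k / K) = _
        rw [ha]
        field_simp
      have h3 : ∑ i, W (some i) * Int.fract ((k : ℝ) * β i) = m₀ * ∑ i, Int.fract (ζ i) * Int.fract ((k : ℝ) * β i) - ∑ i, (m (some i) : ℝ) * Int.fract ((k : ℝ) * β i) := by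
        rw [mul_sum, ← sum_sub_distrib]
        refine sum_congr rfl fun i _ => ?_
        change ((m₀ : ℝ) * Int.fract (ζ i) - m (some i)) * _ = _
        ring
      have h4 : (k : ℝ) * ∑ i, (m (some i) : ℝ) * β i = ∑ i, (m (some i) : ℝ) * (⌊(k : ℝ) * β i⌋ : ℝ) + ∑ i, (m (some i) : ℝ) * Int.fract ((k : ℝ) * β i) := by
        rw [mul_sum, ← sum_add_distrib]
        refine sum_congr rfl fun i _ => ?_
        rw [← mul_add, Int.floor_add_fract]
        ring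
      rw [h2, h3]
      push_cast
      linarith
    rw [h1, dZ_add_int]
    refine (dZ_nat_mul_le _ _).trans ?_
    rw [mul_div_assoc]
    exact mul_le_mul hm₀M' hk.2 (dZ_nonneg _) (by linarith)

end Pool.Agent.Lib.MP_3e612f_nt.NF
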