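import Pool.Agent.Lib.MP_3e612f_nt.NF.Q.Alg

/-! Compact fundamental domain (paper: Q-Dec). -/

set_option autoImplicit false

namespace Pool.Agent.Lib.MP_3e612f_nt.NF

open Finset
open Pool.Agent.Lib.MP_3e612f_nt.MR (mu ex)

open scoped Pointwise in
theorem decAux {G : Type} [Group G] [TopologicalSpace G] [IsTopologicalGroup G] {Γ : Subgroup G}
    {k : ℕ} (M : Mal G Γ k) (i : ℕ) (hi : i ≤ k) :
    ∃ D : Set G, IsCompact D ∧ ∀ x : G, ∃ r ∈ D, ∃ h ∈ LL G i, ∃ γ ∈ Γ, x = r * h * γ ∧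
      (0 < i → ∀ j, M.p 0 γ j = ⌊M.p 0 x j⌋) ∧ (i = 0 → h = x ∧ γ = 1) := by
  induction i with
  | zero =>
    refine ⟨{1}, isCompact_singleton, fun x => ⟨1, rfl, x, LL_zero x, 1, one_mem _, by simp, ?_, ?_⟩⟩
    · intro h
      exact absurd h (lt_irrefl 0)
    · intro _
      exact ⟨rfl, rfl⟩
  | succ i ih =>
    have hik : i < k := hi
    obtain ⟨D, hD, hx⟩ := ih hik.le
    refine ⟨D * (M.e i '' Set.Icc 0 1), hD.mul (isCompact_Icc.image (M.e_cont i hik)),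
      fun x => ?_⟩
    obtain ⟨r, hr, h, hh, γ, hγ, hxe, h0, h1⟩ := hx x
    obtain ⟨γ', hγ', hγ'L, hγ'p⟩ := M.int_p i hik (fun j => ⌊M.p i h j⌋)
    let t : M.I i → ℝ := fun j => Int.fract (M.p i h j)
    have ht : t ∈ Set.Icc (0 : M.I i → ℝ) 1 :=
      ⟨fun j => Int.fract_nonneg _, fun j => (Int.fract_lt_one _).le⟩
    have het : M.e i t ∈ LL G i := M.e_mem i hik t
    have hmem : (M.e i t)⁻¹ * h * γ'⁻¹ ∈ LL G i :=
      mul_mem (mul_mem (inv_mem het) hh) (inv_mem hγ'L)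
    have hp : M.p i ((M.e i t)⁻¹ * h * γ'⁻¹) = 0 := by
      rw [M.p_mul i hik _ (mul_mem (inv_mem het) hh) _ (inv_mem hγ'L),
        M.p_mul i hik _ (inv_mem het) _ hh, M.p_inv hik het, M.p_inv hik hγ'L, M.p_e i hik]
      funext j
      simp only [Pi.add_apply, Pi.neg_apply, Pi.zero_apply]
      rw [hγ'p j]
      have := Int.self_sub_floor (M.p i h j)
      change -Int.fract (M.p i h j) + M.p i h j + -((⌊M.p i h j⌋ : ℤ) : ℝ) = 0
      linarith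
    refine ⟨r * M.e i t, Set.mul_mem_mul hr (Set.mem_image_of_mem _ ht),
      (M.e i t)⁻¹ * h * γ'⁻¹, (M.p_ker i hik _ hmem).1 hp, γ' * γ, mul_mem hγ' hγ, ?_, ?_, ?_⟩
    · rw [hxe]
      group
    · intro _ j
      have hk0 : 0 < k := lt_of_le_of_lt (Nat.zero_le i) hik
      rcases Nat.eq_zero_or_pos i with hi0 | hi0
      · subst hi0
        obtain ⟨rfl, rfl⟩ := h1 rfl
        rw [mul_one, hγ'p j]
      · have h2 : γ' ∈ LL G (0 + 1) := LL_anti hi0 hγ'L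
        rw [M.p_mul_left hk0 h2 (LL_zero γ)]
        exact h0 hi0 j
    · intro h
      exact absurd h (Nat.succ_ne_zero i)

/-- Q-Dec. Induction on `i ≤ k`: for every `i ≤ k` there is a compact `D` with `x = r h γ`, `r ∈ D`, `h ∈ LL G i`, `γ ∈ Γ` and, if `0 < i`, `p 0 γ = ⌊p 0 x⌋`. `i = 0`: `D = {1}`, `h = x`. Step: given
`x = r h γ`, `h ∈ LL G i`, choose `γ' ∈ Γ ∩ LL G i` with `p i γ' = ⌊p i h⌋` (`M.int_p`), `t = fract (p i h) ∈ [0,1]^I`; then `h' = (e i t)⁻¹ h γ'⁻¹ ∈ LL G i` has `p i h' = 0`, so `h' ∈ LL G (i+1)`, and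
`x = (r e_i(t)) h' (γ' γ)`: new `D := D * (e i '' [0,1]^I)` (compact: image of a compact cube, product of compact sets). `p 0 (γ' γ) = p 0 γ' + p 0 γ`: for `i = 0` it is `⌊p 0 x⌋` (start with `γ = 1`), for `i > 0` it is `p 0 γ` since `γ' ∈ LL G 1`. -/
theorem dec {G : Type} [Group G] [TopologicalSpace G] [IsTopologicalGroup G] {Γ : Subgroup G} {k : ℕ} (M : Mal G Γ k) :
    ∃ D : Set G, IsCompact D ∧ ∀ x : G, ∃ r ∈ D, ∃ h ∈ LL G k, ∃ γ ∈ Γ, x = r * h * γ ∧ (0 < k → ∀ j, M.p 0 γ j = ⌊M.p 0 x j⌋) := by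
  obtain ⟨D, hD, hx⟩ := decAux M k le_rfl
  refine ⟨D, hD, fun x => ?_⟩
  obtain ⟨r, hr, h, hh, γ, hγ, hxe, h0, -⟩ := hx x
  exact ⟨r, hr, h, hh, γ, hγ, hxe, h0⟩

/-- Admissible functions are bounded: `Adm.dec'` and compactness. -/
theorem Adm.bdd {G : Type} [Group G] [TopologicalSpace G] [IsTopologicalGroup G] {Γ : Subgroup G} {k : ℕ} (M : Mal G Γ k) {F : G → ℂ} (hF : Adm Γ k F) :
    ∃ C : ℝ, 0 < C ∧ ∀ x, ‖F x‖ ≤ C := by
  obtain ⟨D, hD, hx⟩ := Pool.Agent.Lib.MP_3e612f_nt.NF.dec M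
  obtain ⟨C, hC⟩ := hD.exists_bound_of_continuousOn hF.cont.continuousOn
  refine ⟨max C 1, lt_of_lt_of_le one_pos (le_max_right _ _), fun x => ?_⟩
  obtain ⟨r, hr, h, hh, γ, hγ, hxe, -⟩ := hx x
  rw [hF.dec' hh hγ hxe]
  exact (hC r hr).trans (le_max_left _ _)

end Pool.Agent.Lib.MP_3e612f_nt.NF
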