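import Pool.Agent.Lib.MP_3e612f_nt.NF.Base

/-! A trigonometric approximate identity (paper: Q-Fej). -/

set_option autoImplicit false

namespace Pool.Agent.Lib.MP_3e612f_nt.NF

open Finset
open Pool.Agent.Lib.MP_3e612f_nt.MR (mu ex)

theorem ker_dZ_cont : Continuous dZ := by
  have h : dZ = fun x : ℝ => ‖(x : UnitAddCircle)‖ := by
    funext x
    rw [UnitAddCircle.norm_eq, dZ]
  rw [h]
  exact continuous_norm.comp (AddCircle.continuous_mk' 1)

theorem ker_ex_cont : Continuous ex := by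
  unfold ex
  fun_prop

/-- the bump function on the circle -/
noncomputable def kerBump (M δ' : ℝ) : C(AddCircle (1 : ℝ), ℂ) where
  toFun t := ((M * max 0 (δ' - ‖t‖) : ℝ) : ℂ)
  continuous_toFun := by fun_prop

theorem kerBump_coe (M δ' s : ℝ) :
    kerBump M δ' (s : AddCircle (1 : ℝ)) = ((M * max 0 (δ' - dZ s) : ℝ) : ℂ) := by
  change ((M * max 0 (δ' - ‖(s : AddCircle (1 : ℝ))‖) : ℝ) : ℂ) = _
  have h : ‖(s : AddCircle (1 : ℝ))‖ = dZ s := UnitAddCircle.norm_eq
  rw [h]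

/-- a trigonometric polynomial close to the bump function -/
theorem ker_trig (M δ' δ : ℝ) (hδ : 0 < δ) : ∃ (L : ℕ) (c : ℤ → ℂ), ∀ s : ℝ,
    ‖(∑ l ∈ Icc (-(L : ℤ)) L, c l * ex (-(l * s))) - ((M * max 0 (δ' - dZ s) : ℝ) : ℂ)‖ ≤ δ := by
  haveI : Fact (0 < (1 : ℝ)) := ⟨one_pos⟩
  have h1 : kerBump M δ' ∈ closure ((Submodule.span ℂ (Set.range (@fourier (1 : ℝ))) :
      Submodule ℂ C(AddCircle (1 : ℝ), ℂ)) : Set C(AddCircle (1 : ℝ), ℂ)) := by
    rw [← Submodule.topologicalClosure_coe, span_fourier_closure_eq_top]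
    trivial
  obtain ⟨K, hK, hd⟩ := Metric.mem_closure_iff.1 h1 δ hδ
  obtain ⟨c, hc⟩ := Finsupp.mem_span_range_iff_exists_finsupp.1 hK
  obtain ⟨L, hL⟩ : ∃ L : ℕ, ∀ l ∈ c.support, |l| ≤ (L : ℤ) := by
    refine ⟨∑ l ∈ c.support, l.natAbs, fun l hl => ?_⟩
    have := Finset.single_le_sum (f := fun l : ℤ => l.natAbs) (fun _ _ => Nat.zero_le _) hl
    rw [Int.abs_eq_natAbs]
    exact_mod_cast this
  refine ⟨L, c, fun s => ?_⟩
  have h2 : K ((-s : ℝ) : AddCircle (1 : ℝ)) = ∑ l ∈ Icc (-(L : ℤ)) L, c l * ex (-(l * s)) := by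
    rw [← hc, Finsupp.sum, ContinuousMap.coe_sum, Finset.sum_apply]
    have hsub : c.support ⊆ Icc (-(L : ℤ)) L := by
      intro l hl
      have := hL l hl
      rw [abs_le] at this
      exact Finset.mem_Icc.2 this
    have e1 : ∑ l ∈ Icc (-(L : ℤ)) L, c l * ex (-(l * s)) =
        ∑ l ∈ c.support, c l * ex (-(l * s)) := by
      refine (Finset.sum_subset hsub ?_).symm
      intro l _ hl
      rw [Finsupp.notMem_support_iff.1 hl, zero_mul]
    rw [e1]
    refine Finset.sum_congr rfl fun l _ => ?_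
    rw [ContinuousMap.smul_apply, smul_eq_mul, fourier_coe_apply, ex]
    congr 2
    push_cast
    ring
  have h3 : kerBump M δ' ((-s : ℝ) : AddCircle (1 : ℝ)) = ((M * max 0 (δ' - dZ s) : ℝ) : ℂ) := by
    rw [kerBump_coe, dZ_neg]
  rw [← h2, ← h3, ← dist_eq_norm, dist_comm]
  exact (ContinuousMap.dist_apply_le_dist _).trans hd.le

/-- For `δ, δ' > 0` there are `L` and coefficients `c_l` such that `∑ c_l φ̂(l)` is close to `φ 0` for every continuous 1-periodic `φ` with `|φ| ≤ 1` that varies by at most `δ` on `[-δ', δ']`. Proof: Fejér kernel, or: `b ≥ 0` a continuous 1-periodic bump function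
with integral 1 over a period and `b(s) = 0` unless `dZ s ≤ δ'`; by Stone - Weierstrass (`span_fourier_closure_eq_top` on `AddCircle 1`) a trigonometric polynomial `K` with `|K - b| ≤ δ`; then `∑ c_l ∫₀¹ φ(s) e(-ls) ds = ∫₀¹ φ(s) K(-s) ds`
differs from `∫₀¹ φ(s) b(-s) ds` by at most `δ`, and this from `φ 0` by at most `δ`. (`δ' < 1/2` may be assumed.) -/
theorem kernel (δ δ' : ℝ) (hδ : 0 < δ) (hδ' : 0 < δ') : ∃ (L : ℕ) (c : ℤ → ℂ), ∀ φ : ℝ → ℂ, Continuous φ → (∀ s, φ (s + 1) = φ s) → (∀ s, ‖φ s‖ ≤ 1) →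
    (∀ s, |s| ≤ δ' → ‖φ s - φ 0‖ ≤ δ) →
    ‖∑ l ∈ Icc (-(L : ℤ)) L, c l * (∫ s in (0 : ℝ)..1, φ s * ex (-(l * s))) - φ 0‖ ≤ 2 * δ := by
  have hcont : Continuous fun s : ℝ => max 0 (δ' - dZ s) :=
    continuous_const.max (continuous_const.sub ker_dZ_cont)
  obtain ⟨M, hM0, hM⟩ : ∃ M : ℝ, 0 < M ∧ ∫ s in (0 : ℝ)..1, M * max 0 (δ' - dZ s) = 1 := by
    have hpos : 0 < ∫ s in (0 : ℝ)..1, max 0 (δ' - dZ s) := by
      apply intervalIntegral.integral_pos one_pos hcont.continuousOn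
      · intro s _
        exact le_max_left _ _
      · refine ⟨0, ⟨le_refl _, zero_le_one⟩, ?_⟩
        have h0 : dZ 0 = 0 := by simpa using dZ_int 0
        rw [h0, sub_zero]
        exact lt_max_of_lt_right hδ'
    refine ⟨_, inv_pos.2 hpos, ?_⟩
    rw [intervalIntegral.integral_const_mul, inv_mul_cancel₀ hpos.ne']
  obtain ⟨L, c, hLc⟩ := ker_trig M δ' δ hδ
  refine ⟨L, c, fun φ hφ hper hbd hvar => ?_⟩
  have hexl : ∀ l : ℤ, Continuous fun s : ℝ => ex (-(l * s)) := fun l =>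
    ker_ex_cont.comp (by fun_prop)
  -- the sum as one integral
  have h1 : ∑ l ∈ Icc (-(L : ℤ)) L, c l * (∫ s in (0 : ℝ)..1, φ s * ex (-(l * s))) =
      ∫ s in (0 : ℝ)..1, φ s * ∑ l ∈ Icc (-(L : ℤ)) L, c l * ex (-(l * s)) := by
    have h2 : ∀ l ∈ Icc (-(L : ℤ)) L, c l * (∫ s in (0 : ℝ)..1, φ s * ex (-(l * s))) =
        ∫ s in (0 : ℝ)..1, φ s * (c l * ex (-(l * s))) := by
      intro l _
      rw [← intervalIntegral.integral_const_mul]
      congr 1
      funext s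
      ring
    rw [Finset.sum_congr rfl h2, ← intervalIntegral.integral_finset_sum]
    · congr 1
      funext s
      rw [Finset.mul_sum]
    · intro l _
      exact (hφ.mul (continuous_const.mul (hexl l))).intervalIntegrable _ _
  set b : ℝ → ℂ := fun s => ((M * max 0 (δ' - dZ s) : ℝ) : ℂ) with hb
  have hbc : Continuous b := Complex.continuous_ofReal.comp (continuous_const.mul hcont)
  have hbi : ∫ s in (0 : ℝ)..1, b s = 1 := by
    rw [hb, intervalIntegral.integral_ofReal, hM, Complex.ofReal_one]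
  have hKc : Continuous fun s : ℝ => ∑ l ∈ Icc (-(L : ℤ)) L, c l * ex (-(l * s)) :=
    continuous_finset_sum _ fun l _ => continuous_const.mul (hexl l)
  have i1 : IntervalIntegrable (fun s : ℝ => φ s * ∑ l ∈ Icc (-(L : ℤ)) L, c l * ex (-(l * s)))
      MeasureTheory.volume 0 1 := (hφ.mul hKc).intervalIntegrable _ _
  have i2 : IntervalIntegrable (fun s : ℝ => φ s * b s) MeasureTheory.volume 0 1 :=
    (hφ.mul hbc).intervalIntegrable _ _
  have i3 : IntervalIntegrable (fun s : ℝ => φ 0 * b s) MeasureTheory.volume 0 1 :=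
    (continuous_const.mul hbc).intervalIntegrable _ _
  have i4 : IntervalIntegrable (fun s : ℝ => δ * (M * max 0 (δ' - dZ s)))
      MeasureTheory.volume 0 1 :=
    (continuous_const.mul (continuous_const.mul hcont)).intervalIntegrable _ _
  have h3 : ‖(∫ s in (0 : ℝ)..1, φ s * ∑ l ∈ Icc (-(L : ℤ)) L, c l * ex (-(l * s))) -
      ∫ s in (0 : ℝ)..1, φ s * b s‖ ≤ δ := by
    rw [← intervalIntegral.integral_sub i1 i2]
    have h4 := intervalIntegral.norm_integral_le_of_norm_le_const (a := (0 : ℝ)) (b := 1) (C := δ)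
      (f := fun s => φ s * (∑ l ∈ Icc (-(L : ℤ)) L, c l * ex (-(l * s))) - φ s * b s) ?_
    · rwa [sub_zero, abs_one, mul_one] at h4
    · intro s _
      rw [← mul_sub, norm_mul]
      calc ‖φ s‖ * ‖(∑ l ∈ Icc (-(L : ℤ)) L, c l * ex (-(l * s))) - b s‖
          ≤ 1 * δ := mul_le_mul (hbd s) (hLc s) (norm_nonneg _) zero_le_one
        _ = δ := one_mul δ
  have h5 : ‖(∫ s in (0 : ℝ)..1, φ s * b s) - φ 0‖ ≤ δ := by
    have h6 : φ 0 = ∫ s in (0 : ℝ)..1, φ 0 * b s := by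
      rw [intervalIntegral.integral_const_mul, hbi, mul_one]
    rw [h6, ← intervalIntegral.integral_sub i2 i3]
    have h7 : ∀ s : ℝ, ‖φ s * b s - φ 0 * b s‖ ≤ δ * (M * max 0 (δ' - dZ s)) := by
      intro s
      have hnn : 0 ≤ M * max 0 (δ' - dZ s) := mul_nonneg hM0.le (le_max_left _ _)
      rw [← sub_mul, norm_mul, hb, Complex.norm_real, Real.norm_of_nonneg hnn]
      by_cases hs : dZ s < δ'
      · refine mul_le_mul_of_nonneg_right ?_ hnn
        have e1 : φ s = φ (s - round s) := by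
          have hp : Function.Periodic φ 1 := hper
          have := hp.sub_int_mul_eq (x := s) (round s)
          rw [mul_one] at this
          exact this.symm
        rw [e1]
        exact hvar _ hs.le
      · have e2 : max 0 (δ' - dZ s) = 0 := max_eq_left (by linarith)
        rw [e2, mul_zero, mul_zero, mul_zero]
    have h8 := intervalIntegral.norm_integral_le_of_norm_le (a := (0 : ℝ)) (b := 1)
      (f := fun s => φ s * b s - φ 0 * b s) (g := fun s => δ * (M * max 0 (δ' - dZ s)))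
      zero_le_one (Filter.Eventually.of_forall fun s _ => h7 s) i4
    rw [intervalIntegral.integral_const_mul, hM, mul_one] at h8
    exact h8
  rw [h1]
  calc ‖(∫ s in (0 : ℝ)..1, φ s * ∑ l ∈ Icc (-(L : ℤ)) L, c l * ex (-(l * s))) - φ 0‖
      ≤ ‖(∫ s in (0 : ℝ)..1, φ s * ∑ l ∈ Icc (-(L : ℤ)) L, c l * ex (-(l * s))) -
          ∫ s in (0 : ℝ)..1, φ s * b s‖ + ‖(∫ s in (0 : ℝ)..1, φ s * b s) - φ 0‖ :=
        norm_sub_le_norm_sub_add_norm_sub _ _ _
    _ ≤ 2 * δ := by linarith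

end Pool.Agent.Lib.MP_3e612f_nt.NF
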