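import Pool.Agent.Lib.MP_3e612f_nt.NF.Q.Alg

/-! The three subgroups lemma for the lower central series (paper: Q-Sq). -/

set_option autoImplicit false

namespace Pool.Agent.Lib.MP_3e612f_nt.NF

open Finset
open scoped commutatorElement

/-- `[LL i, LL 1] ≤ LL (i+2)`. In the quotient by the normal subgroup `LL G (i+2)` (or with a version of the three subgroups lemma for normal subgroups): `[[G, LL i], G] ≤ LL (i+2)` and `[[LL i, G], G] ≤ LL (i+2)`, hence `[[G, G], LL i] ≤ LL (i+2)`
(`Subgroup.commutator_commutator_eq_bot_of_rotate`, or by hand with the Hall - Witt identity). -/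
theorem three (G : Type) [Group G] (i : ℕ) : ⁅LL G i, LL G 1⁆ ≤ LL G (i + 2) := by
  have h0 : LL G 1 = ⁅(⊤ : Subgroup G), (⊤ : Subgroup G)⁆ := rfl
  have h1 : ⁅⁅LL G i, (⊤ : Subgroup G)⁆, (⊤ : Subgroup G)⁆ ≤
      (QuotientGroup.mk' (LL G (i + 2))).ker := by
    rw [QuotientGroup.ker_mk']
    exact le_rfl
  have h2 : ⁅⁅(⊤ : Subgroup G), LL G i⁆, (⊤ : Subgroup G)⁆ ≤
      (QuotientGroup.mk' (LL G (i + 2))).ker := by
    rw [Subgroup.commutator_comm ⊤ (LL G i)]
    exact h1
  rw [← Subgroup.map_eq_bot_iff, Subgroup.map_commutator, Subgroup.map_commutator] at h1 h2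
  have h3 := Subgroup.commutator_commutator_eq_bot_of_rotate h2 h1
  rw [← Subgroup.map_commutator, ← Subgroup.map_commutator, Subgroup.map_eq_bot_iff,
    QuotientGroup.ker_mk'] at h3
  rw [h0, Subgroup.commutator_comm]
  exact h3

end Pool.Agent.Lib.MP_3e612f_nt.NF
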