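import Pool.Agent.Lib.MP_3e612f_nt.NF.Q.Phi

/-! Orbits and shifted orbits (paper: Q-Rel). -/

set_option autoImplicit false

namespace Pool.Agent.Lib.MP_3e612f_nt.NF

open Finset
open Pool.Agent.Lib.MP_3e612f_nt.MR (mu ex)
open scoped commutatorElement

theorem orbit_conj_pow {G : Type} [Group G] (x y : G) (j : ℕ) : (x * y * x⁻¹) ^ j = x * y ^ j * x⁻¹ := by
  induction j with
  | zero => simp
  | succ j ih =>
    rw [pow_succ, pow_succ, ih]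
    group

/-- `a = a' h γ₀` with `a' ∈ D`; `b = a'⁻¹ g a'`; `F(g^j a) = F(g^j a') = F(a' b^j)` (`Adm.dec`). `b^l = r h γ` with `p 0 γ = ⌊p 0 (b^l)⌋ = ⌊l p 0 b⌋`; `a' b^{j+l} = a' b^l b^j = (a' r) h (γ b^j γ⁻¹) γ`, so `F(a' b^{j+l}) = F(a' r γ b^j γ⁻¹)` (`right`, `Adm.mid`), and `(γ b γ⁻¹)^j = γ b^j γ⁻¹`;
`w = (b, γ b γ⁻¹) ∈ Sq G` because `b⁻¹ γ b γ⁻¹ = [b⁻¹, γ] ∈ LL G 1`. -/
theorem orbit_shift {G : Type} [Group G] [TopologicalSpace G] [IsTopologicalGroup G] {Γ : Subgroup G} {k : ℕ} (M : Mal G Γ (k + 1)) {F : G → ℂ}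
    (hF : Adm Γ (k + 1) F) (D : Set G) (hD : ∀ x : G, ∃ r ∈ D, ∃ h ∈ LL G (k + 1), ∃ γ ∈ Γ, x = r * h * γ ∧ ∀ j, M.p 0 γ j = ⌊M.p 0 x j⌋) (g a : G) :
    ∃ a' ∈ D, ∃ b : G, M.p 0 b = M.p 0 g ∧ (∀ j : ℕ, F (g ^ j * a) = F (a' * b ^ j)) ∧
      ∀ l : ℕ, ∃ r ∈ D, ∃ γ : G, (∀ i, M.p 0 γ i = ⌊(l : ℝ) * M.p 0 b i⌋) ∧ ∃ w : Sq G, (w : G × G) = (b, γ * b * γ⁻¹) ∧
        ∀ j : ℕ, F (a' * b ^ (j + l)) * (starRingEnd ℂ) (F (a' * b ^ j)) = Phi F (a', r) (w ^ j) := by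
  obtain ⟨a', ha', h₀, hh₀, γ₀, hγ₀, hdec, -⟩ := hD a
  refine ⟨a', ha', a'⁻¹ * g * a', M.p_conj' (Nat.succ_pos k) (LL_zero g) a', ?_, ?_⟩
  · intro j
    rw [hF.dec hh₀ hγ₀ hdec]
    have h1 : (a'⁻¹ * g * a') ^ j = a'⁻¹ * g ^ j * a' := by
      have h2 := orbit_conj_pow a'⁻¹ g j
      rwa [inv_inv] at h2
    rw [h1]
    congr 1
    group
  · intro l
    generalize a'⁻¹ * g * a' = b
    obtain ⟨r, hr, h, hh, γ, hγ, hdec', hfl⟩ := hD (b ^ l)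
    refine ⟨r, hr, γ, ?_, ⟨(b, γ * b * γ⁻¹), ?_⟩, rfl, ?_⟩
    · intro i
      rw [hfl i, M.p0_pow (Nat.succ_pos k)]
      rfl
    · rw [mem_Sq]
      change b⁻¹ * (γ * b * γ⁻¹) ∈ LL G 1
      have h1 : b⁻¹ * (γ * b * γ⁻¹) = ⁅b⁻¹, γ⁆ := by
        rw [commutatorElement_def]
        group
      rw [h1]
      exact LL_comm (LL_zero _) γ
    · intro j
      have hF1 : F (a' * b ^ (j + l)) = F (a' * r * (γ * b * γ⁻¹) ^ j) := by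
        have h1 : a' * b ^ (j + l) = a' * r * h * (γ * b * γ⁻¹) ^ j * γ := by
          rw [add_comm, pow_add, hdec', orbit_conj_pow]
          group
        rw [h1, hF.right _ γ hγ, hF.mid (a' * r) hh]
      rw [hF1]
      rfl

end Pool.Agent.Lib.MP_3e612f_nt.NF
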