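import Pool.Agent.Lib.MP_3e612f_nt.NF.Q.Alg

/-! Generic elements (paper: Q-Gen). -/

set_option autoImplicit false

namespace Pool.Agent.Lib.MP_3e612f_nt.NF

open Finset
open Pool.Agent.Lib.MP_3e612f_nt.MR (mu ex)

/-- A vector without relations: e.g. `x i = θ ^ (n i + 1)` with `θ` transcendental (`transcendental_liouvilleNumber`, or a cardinality argument), `n : ι ≃ Fin (card ι)`: a relation gives a nonzero integral polynomial vanishing at `θ`. -/
theorem exists_noRel (ι : Type) [Fintype ι] : ∃ x : ι → ℝ, NoRel x := by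
  have hθ : Transcendental ℤ (liouvilleNumber 2) := transcendental_liouvilleNumber (le_refl 2)
  obtain ⟨θ, hθ⟩ : ∃ θ : ℝ, Transcendental ℤ θ := ⟨_, hθ⟩
  refine ⟨fun i => θ ^ ((Fintype.equivFin ι i : ℕ) + 1), ?_⟩
  intro m hm z hz
  apply hm
  have hP : (∑ i, Polynomial.C (m i) * Polynomial.X ^ ((Fintype.equivFin ι i : ℕ) + 1)) - Polynomial.C z = 0 := by
    refine (transcendental_iff.1 hθ) _ ?_
    rw [map_sub, map_sum, Polynomial.aeval_C]
    have h1 : ∀ i ∈ (univ : Finset ι), Polynomial.aeval θ (Polynomial.C (m i) * Polynomial.X ^ ((Fintype.equivFin ι i : ℕ) + 1)) =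
        (m i : ℝ) * θ ^ ((Fintype.equivFin ι i : ℕ) + 1) := by
      intro i _
      rw [map_mul, Polynomial.aeval_C, map_pow, Polynomial.aeval_X]
      rfl
    rw [sum_congr rfl h1]
    have h2 : algebraMap ℤ ℝ z = (z : ℝ) := rfl
    rw [h2, ← hz]
    unfold dot
    rw [sub_self]
  funext i
  have h3 := congrArg (fun p => Polynomial.coeff p ((Fintype.equivFin ι i : ℕ) + 1)) hP
  simp only [Polynomial.coeff_sub, Polynomial.finsetSum_coeff, Polynomial.coeff_C_mul_X_pow, Polynomial.coeff_C_succ, Polynomial.coeff_zero, sub_zero] at h3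
  rw [sum_eq_single i] at h3
  · simpa using h3
  · intro j _ hj
    rw [if_neg]
    intro h4
    apply hj
    apply (Fintype.equivFin ι).injective
    apply Fin.ext
    omega
  · intro h
    exact absurd (mem_univ i) h

/-- There are finitely many `m ≠ 0` with `|m i| ≤ B` and `dZ (dot m x) > 0` for each of them (`dZ_eq_zero_iff`). -/
theorem noRel_far {ι : Type} [Fintype ι] (x : ι → ℝ) (hx : NoRel x) (B : ℕ) :
    ∃ J₀ : ℕ, ∀ J : ℕ, J₀ ≤ J → 1 ≤ J → ∀ m : ι → ℤ, m ≠ 0 → (∀ i, |m i| ≤ B) → (B : ℝ) / J < dZ (dot m x) := by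
  classical
  have hfin : {m : ι → ℤ | m ≠ 0 ∧ ∀ i, |m i| ≤ B}.Finite := by
    refine (Set.finite_Icc (fun _ => -(B : ℤ) : ι → ℤ) (fun _ => (B : ℤ))).subset ?_
    rintro m ⟨-, h⟩
    exact ⟨fun i => (abs_le.1 (h i)).1, fun i => (abs_le.1 (h i)).2⟩
  have hev : ∀ᶠ J : ℕ in Filter.atTop, ∀ m ∈ {m : ι → ℤ | m ≠ 0 ∧ ∀ i, |m i| ≤ B}, (B : ℝ) / J < dZ (dot m x) := by
    rw [Filter.eventually_all_finite hfin]
    rintro m ⟨hm, -⟩
    have hpos : 0 < dZ (dot m x) := by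
      rcases (dZ_nonneg (dot m x)).lt_or_eq with h | h
      · exact h
      · obtain ⟨z, hz⟩ := (dZ_eq_zero_iff _).1 h.symm
        exact absurd hz (hx m hm z)
    exact (tendsto_const_div_atTop_nhds_zero_nat (B : ℝ)).eventually_lt_const hpos
  obtain ⟨J₀, hJ₀⟩ := Filter.eventually_atTop.1 hev
  exact ⟨J₀, fun J hJ _ m hm hB => hJ₀ J hJ m ⟨hm, hB⟩⟩

/-- Means along generic elements. -/
theorem QP.mean {G : Type} [Group G] {ι : Type} [Fintype ι] {P : G → ι → ℝ} {F : G → ℂ} {c : ℂ} (h : QP P F c) (g : G) (hg : NoRel (P g)) (ε : ℝ) (hε : 0 < ε) :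
    ∃ J₀ : ℕ, ∀ J : ℕ, J₀ ≤ J → 1 ≤ J → ∀ a : G, ‖∑ j ∈ range J, (F (g ^ j * a) - c)‖ < ε * J := by
  obtain ⟨B, hB⟩ := h ε hε
  obtain ⟨J₀, hJ₀⟩ := noRel_far (P g) hg B
  refine ⟨J₀, fun J hJ hJ1 a => ?_⟩
  by_contra hcon
  obtain ⟨m, hm, hm1, hm2⟩ := hB J g a hJ1 (not_lt.1 hcon)
  exact absurd hm2 (not_le.2 (hJ₀ J hJ hJ1 m hm hm1))

/-- `e 0` of a vector without relations. -/
theorem exists_generic {G : Type} [Group G] [TopologicalSpace G] {Γ : Subgroup G} {k : ℕ} (M : Mal G Γ k) (hk : 0 < k) : ∃ g : G, NoRel (M.p 0 g) := by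
  obtain ⟨x, hx⟩ := exists_noRel (M.I 0)
  refine ⟨M.e 0 x, ?_⟩
  rw [M.p_e 0 hk x]
  exact hx

end Pool.Agent.Lib.MP_3e612f_nt.NF
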