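import Pool.Agent.Lib.MP_3e612f_nt.NF.Q.SqMal
import Pool.Agent.Lib.MP_3e612f_nt.NF.Q.Gen

/-! The functions `Φ_{a,r}` on `Sq G` (paper: Q-Phi). -/

set_option autoImplicit false

namespace Pool.Agent.Lib.MP_3e612f_nt.NF

open Finset
open Pool.Agent.Lib.MP_3e612f_nt.MR (mu ex)

/-- `Φ_{a,r}(x,y) = F(a r y) conj F(a x)` -/
noncomputable def Phi {G : Type} [Group G] (F : G → ℂ) (ar : G × G) (w : Sq G) : ℂ :=
  F (ar.1 * ar.2 * (w : G × G).2) * (starRingEnd ℂ) (F (ar.1 * (w : G × G).1))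

theorem Phi_ex_mul_conj (x : ℝ) : ex x * (starRingEnd ℂ) (ex x) = 1 := by
  rw [← ex_sub, sub_self, ex_zero]

/-- a nonzero integral vector is detected by the character `ex (dot ξ ·)` -/
theorem Phi_exists_dot_half {ι : Type} [Fintype ι] (ξ : ι → ℤ) (hξ : ξ ≠ 0) :
    ∃ t : ι → ℝ, ex (dot ξ t) ≠ 1 := by
  classical
  obtain ⟨i, hi⟩ := Function.ne_iff.1 hξ
  have hi' : (ξ i : ℝ) ≠ 0 := by
    have : ξ i ≠ 0 := hi
    exact_mod_cast this
  refine ⟨Pi.single i (1 / (2 * (ξ i : ℝ))), ?_⟩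
  have hdot : dot ξ (Pi.single i (1 / (2 * (ξ i : ℝ)))) = 1 / 2 := by
    unfold dot
    rw [Finset.sum_eq_single i]
    · rw [Pi.single_eq_same]
      field_simp
    · intro b _ hb
      rw [Pi.single_eq_of_ne hb, mul_zero]
    · intro h
      exact absurd (Finset.mem_univ i) h
  rw [hdot]
  have h1 := norm_ex_sub_one (1 / 2)
  have h2 : Real.pi * (1 / 2) = Real.pi / 2 := by ring
  rw [h2, Real.sin_pi_div_two] at h1
  intro h
  rw [h, sub_self, norm_zero] at h1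
  norm_num at h1

variable {G : Type} [Group G] [TopologicalSpace G] [IsTopologicalGroup G] {Γ : Subgroup G} {k : ℕ} (M : Mal G Γ (k + 1)) {F : G → ℂ}

theorem Phi_cont (hF : Continuous F) : Continuous (fun z : (G × G) × Sq G => Phi F z.1 z.2) := by
  unfold Phi
  have h1 : Continuous (fun z : (G × G) × Sq G => z.1.1 * z.1.2 * (z.2 : G × G).2) := by
    fun_prop
  have h2 : Continuous (fun z : (G × G) × Sq G => z.1.1 * (z.2 : G × G).1) := by
    fun_prop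
  exact (hF.comp h1).mul (Complex.continuous_conj.comp (hF.comp h2))

/-- the character of `F` also governs factors inside a product -/
theorem Phi_mid (ξ : M.I k → ℤ) (hξ : ∀ z ∈ LL G k, ∀ x, F (z * x) = ex (dot ξ (M.p k z)) * F x)
    (g : G) {z : G} (hz : z ∈ LL G k) (x : G) :
    F (g * (z * x)) = ex (dot ξ (M.p k z)) * F (g * x) := by
  have h1 : g * (z * x) = (g * z * g⁻¹) * (g * x) := by group
  rw [h1, hξ _ (LL_conj hz g), M.p_conj (Nat.lt_succ_self k) hz]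

/-- Right invariance is clear. Left invariance under `(z,z') ∈ LL (Sq G) k` (so `z, z' ∈ LL G k`, `z⁻¹z' ∈ LL G (k+1)`, `mem_LL_Sq`): `F(a r z' y) = F((ar z' (ar)⁻¹) a r y) = e(ξ.p_k(z')) F(a r y)` (`Mal.p_conj`), `F(a z x) = e(ξ.p_k(z)) F(a x)`, and `p_k z = p_k z'`. -/
theorem Phi_adm (hF : Adm Γ (k + 1) F) (ξ : M.I k → ℤ) (hξ : ∀ z ∈ LL G k, ∀ x, F (z * x) = ex (dot ξ (M.p k z)) * F x) (ar : G × G) :
    Adm (SqG Γ) k (Phi F ar) := by
  refine ⟨?_, ?_, ?_⟩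
  · have h := Phi_cont (G := G) hF.cont
    exact h.comp (Continuous.prodMk_right ar)
  · intro x γ hγ
    obtain ⟨h1, h2⟩ := mem_SqG.1 hγ
    unfold Phi
    rw [Subgroup.coe_mul, Prod.fst_mul, Prod.snd_mul, ← mul_assoc, ← mul_assoc, hF.right _ _ h2, hF.right _ _ h1]
  · intro x h hh
    obtain ⟨h1, h2⟩ := mem_SqL.1 ((mem_LL_Sq k h).1 hh)
    have h3 : (h : G × G).2 = (h : G × G).1 * ((h : G × G).1⁻¹ * (h : G × G).2) := by group
    have h4 : (h : G × G).2 ∈ LL G k := by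
      rw [h3]
      exact mul_mem h1 (LL_le k h2)
    have h5 : M.p k (h : G × G).2 = M.p k (h : G × G).1 := by
      conv_lhs => rw [h3]
      rw [M.p_mul k (Nat.lt_succ_self k) _ h1 _ (LL_le k h2), M.p_next (Nat.lt_succ_self k) h2, add_zero]
    unfold Phi
    rw [Subgroup.coe_mul, Prod.fst_mul, Prod.snd_mul, Phi_mid M ξ hξ _ h4, Phi_mid M ξ hξ _ h1, h5, map_mul]
    have h6 := Phi_ex_mul_conj (dot ξ (M.p k (h : G × G).1))
    linear_combination (F (ar.1 * ar.2 * (x : G × G).2) * (starRingEnd ℂ) (F (ar.1 * (x : G × G).1))) * h6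

/-- The constant is 0 (`k ≥ 1`, `ξ ≠ 0`): take `w` generic in `Sq G` (`exists_generic M.sq`) and `z ∈ LL G k` with `e(ξ.p_k z) ≠ 1` (`z = M.e k t`); `u = (1, z) ∈ Sq G` as `k ≥ 1`; `Φ(w^j u) = e(ξ.p_k z) Φ(w^j)` since `F(a r y z) = F((a r y) z (a r y)⁻¹ a r y)`. By `QP.mean` both means are close to `c`,
so `c = e(ξ.p_k z) c`. -/
theorem Phi_zero (hk : 1 ≤ k) (hF : Adm Γ (k + 1) F) (ξ : M.I k → ℤ) (hξ0 : ξ ≠ 0) (hξ : ∀ z ∈ LL G k, ∀ x, F (z * x) = ex (dot ξ (M.p k z)) * F x)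
    (ar : G × G) (c : ℂ) (hc : QP (M.sq.p 0) (Phi F ar) c) : c = 0 := by
  obtain ⟨w, hw⟩ := exists_generic M.sq hk
  obtain ⟨t, ht⟩ := Phi_exists_dot_half ξ hξ0
  have hz : M.e k t ∈ LL G k := M.e_mem k (Nat.lt_succ_self k) t
  have hz1 : (1 : G)⁻¹ * M.e k t ∈ LL G 1 := by
    rw [inv_one, one_mul]
    exact LL_anti hk hz
  have hpz : M.p k (M.e k t) = t := M.p_e k (Nat.lt_succ_self k) t
  set ζ : ℂ := ex (dot ξ t) with hζ
  have hζn : ‖ζ‖ = 1 := norm_ex _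
  set u : Sq G := sqMk 1 (M.e k t) hz1 with hu
  have hstep : ∀ v : Sq G, Phi F ar (v * u) = ζ * Phi F ar (v * 1) := by
    intro v
    have hu1 : (u : G × G).1 = 1 := rfl
    have hu2 : (u : G × G).2 = M.e k t := rfl
    unfold Phi
    rw [mul_one, Subgroup.coe_mul, Prod.fst_mul, Prod.snd_mul, hu1, hu2, mul_one]
    have h1 : ar.1 * ar.2 * ((v : G × G).2 * M.e k t) = (ar.1 * ar.2 * (v : G × G).2) * (M.e k t * 1) := by group
    rw [h1, Phi_mid M ξ hξ _ hz, hpz, mul_one, mul_assoc]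
  by_contra hc0
  have hcpos : 0 < ‖c‖ := norm_pos_iff.2 hc0
  have hζ1 : 0 < ‖ζ - 1‖ := norm_pos_iff.2 (sub_ne_zero.2 ht)
  set ε : ℝ := ‖ζ - 1‖ * ‖c‖ / 2 with hε
  have hεpos : 0 < ε := by positivity
  obtain ⟨J₀, hJ₀⟩ := hc.mean w hw ε hεpos
  have hJ := hJ₀ (max J₀ 1) (le_max_left _ _) (le_max_right _ _)
  set J : ℕ := max J₀ 1 with hJdef
  have hJ1 : (1 : ℝ) ≤ (J : ℝ) := by exact_mod_cast le_max_right J₀ 1
  have hA := hJ u
  have hB := hJ 1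
  have hid : (∑ j ∈ range J, (Phi F ar (w ^ j * u) - c)) - ζ * ∑ j ∈ range J, (Phi F ar (w ^ j * 1) - c) = (J : ℂ) * ((ζ - 1) * c) := by
    rw [Finset.mul_sum, ← Finset.sum_sub_distrib]
    have : ∀ j ∈ range J, (Phi F ar (w ^ j * u) - c) - ζ * (Phi F ar (w ^ j * 1) - c) = (ζ - 1) * c := by
      intro j _
      rw [hstep]
      ring
    rw [Finset.sum_congr rfl this, Finset.sum_const, Finset.card_range, nsmul_eq_mul]
  have hn : (J : ℝ) * (‖ζ - 1‖ * ‖c‖) < ε * J + ε * J := by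
    have h1 : ‖(J : ℂ) * ((ζ - 1) * c)‖ = (J : ℝ) * (‖ζ - 1‖ * ‖c‖) := by
      rw [norm_mul, norm_mul, Complex.norm_natCast]
    rw [← h1, ← hid]
    refine (norm_sub_le _ _).trans_lt ?_
    rw [norm_mul, hζn, one_mul]
    exact add_lt_add hA hB
  have h2 : ε * J + ε * J = (J : ℝ) * (‖ζ - 1‖ * ‖c‖) := by
    rw [hε]
    ring
  rw [h2] at hn
  exact lt_irrefl _ hn

end Pool.Agent.Lib.MP_3e612f_nt.NF
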