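import Pool.Agent.Lib.MP_3e612f_nt.NF.Q.Om

/-! The commutator form in coordinates (paper: Q-Rel). -/

set_option autoImplicit false

namespace Pool.Agent.Lib.MP_3e612f_nt.NF

open Finset
open scoped commutatorElement

variable {G : Type} [Group G] [TopologicalSpace G] [IsTopologicalGroup G] {Γ : Subgroup G} {k : ℕ} (M : Mal G Γ k)

/-- the form on the coordinate space -/
noncomputable def omForm (s t : M.I 0 → ℝ) : M.I 1 → ℝ := M.p 1 ⁅M.e 0 s, M.e 0 t⁆

theorem omForm_add_left (hk : 2 ≤ k) (s s' t : M.I 0 → ℝ) :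
    omForm M (s + s') t = omForm M s t + omForm M s' t := by
  unfold omForm
  rw [← p1_comm_mul_left M hk]
  apply p1_comm_congr M hk _ rfl
  rw [M.p0_mul (by omega), M.p_e 0 (by omega), M.p_e 0 (by omega), M.p_e 0 (by omega)]

theorem omForm_add_right (hk : 2 ≤ k) (s t t' : M.I 0 → ℝ) :
    omForm M s (t + t') = omForm M s t + omForm M s t' := by
  unfold omForm
  rw [← p1_comm_mul_right M hk]
  apply p1_comm_congr M hk rfl
  rw [M.p0_mul (by omega), M.p_e 0 (by omega), M.p_e 0 (by omega), M.p_e 0 (by omega)]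

theorem omForm_cont (hk : 2 ≤ k) : Continuous (fun z : (M.I 0 → ℝ) × (M.I 0 → ℝ) => omForm M z.1 z.2) := by
  have h1 : Continuous (fun z : (M.I 0 → ℝ) × (M.I 0 → ℝ) => ⁅M.e 0 z.1, M.e 0 z.2⁆) := by
    have h2 : Continuous (fun z : (M.I 0 → ℝ) × (M.I 0 → ℝ) => M.e 0 z.1) :=
      (M.e_cont 0 (by omega)).comp continuous_fst
    have h3 : Continuous (fun z : (M.I 0 → ℝ) × (M.I 0 → ℝ) => M.e 0 z.2) :=
      (M.e_cont 0 (by omega)).comp continuous_snd
    simp only [commutatorElement_def]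
    exact ((h2.mul h3).mul h2.inv).mul h3.inv
  exact (M.p_cont 1 (by omega)).comp_continuous h1 fun z => LL_comm (LL_zero _) _

/-- `omForm` is real homogeneous in each variable. -/
theorem omForm_smul_left (hk : 2 ≤ k) (c : ℝ) (s t : M.I 0 → ℝ) :
    omForm M (c • s) t = c • omForm M s t := by
  let f : (M.I 0 → ℝ) →+ (M.I 1 → ℝ) :=
    AddMonoidHom.mk' (fun s => omForm M s t) fun a b => omForm_add_left M hk a b t
  have hf : Continuous f := (omForm_cont M hk).comp (Continuous.prodMk continuous_id continuous_const)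
  exact map_real_smul f hf c s

theorem omForm_smul_right (hk : 2 ≤ k) (c : ℝ) (s t : M.I 0 → ℝ) :
    omForm M s (c • t) = c • omForm M s t := by
  let f : (M.I 0 → ℝ) →+ (M.I 1 → ℝ) :=
    AddMonoidHom.mk' (fun t => omForm M s t) fun a b => omForm_add_right M hk s a b
  have hf : Continuous f := (omForm_cont M hk).comp (Continuous.prodMk continuous_const continuous_id)
  exact map_real_smul f hf c t

theorem omForm_sum_left (hk : 2 ≤ k) {ι : Type} (S : Finset ι) (c : ι → ℝ) (s : ι → M.I 0 → ℝ) (t : M.I 0 → ℝ) :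
    omForm M (∑ a ∈ S, c a • s a) t = ∑ a ∈ S, c a • omForm M (s a) t := by
  classical
  induction S using Finset.induction_on with
  | empty =>
    simp only [sum_empty]
    have := omForm_smul_left M hk 0 0 t
    simpa using this
  | insert a S ha ih => rw [sum_insert ha, sum_insert ha, omForm_add_left M hk, omForm_smul_left M hk, ih]

theorem omForm_sum_right (hk : 2 ≤ k) {ι : Type} (S : Finset ι) (c : ι → ℝ) (s : M.I 0 → ℝ) (t : ι → M.I 0 → ℝ) :
    omForm M s (∑ a ∈ S, c a • t a) = ∑ a ∈ S, c a • omForm M s (t a) := by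
  classical
  induction S using Finset.induction_on with
  | empty =>
    simp only [sum_empty]
    have := omForm_smul_right M hk 0 s 0
    simpa using this
  | insert a S ha ih => rw [sum_insert ha, sum_insert ha, omForm_add_right M hk, omForm_smul_right M hk, ih]

theorem omForm_eq (hk : 2 ≤ k) (x y : G) : M.p 1 ⁅x, y⁆ = omForm M (M.p 0 x) (M.p 0 y) := by
  unfold omForm
  apply p1_comm_congr M hk
  · rw [M.p_e 0 (by omega)]
  · rw [M.p_e 0 (by omega)]

theorem omForm_int [DecidableEq (M.I 0)] (hk : 2 ≤ k) (a b : M.I 0) (j : M.I 1) :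
    ∃ z : ℤ, omForm M (Pi.single a 1) (Pi.single b 1) j = z := by
  have key : ∀ a : M.I 0, ∃ γ ∈ Γ, M.p 0 γ = Pi.single a 1 := by
    intro a
    obtain ⟨γ, hγ, _, hp⟩ := M.int_p 0 (by omega) (Pi.single a 1)
    refine ⟨γ, hγ, ?_⟩
    funext i
    rw [hp i]
    rcases eq_or_ne i a with h | h
    · subst h; simp
    · simp [Pi.single_eq_of_ne h]
  obtain ⟨γ, hγ, hpγ⟩ := key a
  obtain ⟨δ, hδ, hpδ⟩ := key b
  rw [← hpγ, ← hpδ, ← omForm_eq M hk]
  refine M.p_int 1 (by omega) _ ?_ (LL_comm (LL_zero _) _) j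
  rw [commutatorElement_def]
  exact mul_mem (mul_mem (mul_mem hγ hδ) (inv_mem hγ)) (inv_mem hδ)

/-- There is an integral tensor `N` with `p 1 [x, y] j = ∑_{a,b} N j a b (p 0 x a)(p 0 y b)`. Proof: `(s,t) ↦ p 1 [e_0 s, e_0 t]` is additive in each variable (`p1_comm_mul_left`, `p1_comm_congr`: `p 0 (e_0(s+s')) = p 0 (e_0 s * e_0 s')`) and continuous (commutators are continuous with values in `LL G 1`, where `p 1` is continuous),
hence `ℝ`-linear in each variable (`AddMonoidHom.toRealLinearMap`, or `map_real_smul`); its values on the unit vectors are integral: replace `e_0 E_a` by `γ_a ∈ Γ` with `p 0 γ_a = E_a`, `[γ_a, γ_b] ∈ Γ ∩ LL G 1`. -/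
theorem exists_form (hk : 2 ≤ k) : ∃ N : M.I 1 → M.I 0 → M.I 0 → ℤ, ∀ (x y : G) (j : M.I 1),
    M.p 1 ⁅x, y⁆ j = ∑ a, ∑ b, (N j a b : ℝ) * M.p 0 x a * M.p 0 y b := by
  classical
  choose N hN using fun (j : M.I 1) (a b : M.I 0) => omForm_int M hk a b j
  refine ⟨N, fun x y j => ?_⟩
  have hvec : ∀ v : M.I 0 → ℝ, v = ∑ a, v a • (Pi.single a (1 : ℝ) : M.I 0 → ℝ) := by
    intro v
    funext i
    simp [Finset.sum_apply, Pi.single_apply]
  rw [omForm_eq M hk, hvec (M.p 0 x), omForm_sum_left M hk, Finset.sum_apply]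
  refine sum_congr rfl fun a _ => ?_
  rw [← hvec (M.p 0 x)]
  conv_lhs => rw [hvec (M.p 0 y), omForm_sum_right M hk]
  rw [Pi.smul_apply, Finset.sum_apply, smul_eq_mul, mul_sum]
  refine sum_congr rfl fun b _ => ?_
  rw [Pi.smul_apply, smul_eq_mul, hN j a b]
  ring

/-- Nondegeneracy: if `∑_j m_j N j a b = 0` for all `a, b` then `dot m (p 1 z) = 0` for all commutators `z`, hence (`LL G 1` is generated by commutators, `p 1` is additive) for all `z ∈ LL G 1`, in particular for `z = e_1 E_j`: `m = 0`. -/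
theorem form_nondeg (hk : 2 ≤ k) (N : M.I 1 → M.I 0 → M.I 0 → ℤ) (hN : ∀ (x y : G) (j : M.I 1), M.p 1 ⁅x, y⁆ j = ∑ a, ∑ b, (N j a b : ℝ) * M.p 0 x a * M.p 0 y b)
    (m : M.I 1 → ℤ) (hm : m ≠ 0) : ∃ a b, ∑ j, m j * N j a b ≠ 0 := by
  classical
  by_contra! hcon
  apply hm
  have hcomm : ∀ x y : G, dot m (M.p 1 ⁅x, y⁆) = 0 := by
    intro x y
    unfold dot
    have h1 : ∀ j ∈ (univ : Finset (M.I 1)), (m j : ℝ) * M.p 1 ⁅x, y⁆ j =
        ∑ a, ∑ b, ((m j : ℝ) * (N j a b : ℝ)) * (M.p 0 x a * M.p 0 y b) := by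
      intro j _
      rw [hN x y j, mul_sum]
      refine sum_congr rfl fun a _ => ?_
      rw [mul_sum]
      exact sum_congr rfl fun b _ => by ring
    rw [sum_congr rfl h1, sum_comm]
    refine sum_eq_zero fun a _ => ?_
    rw [sum_comm]
    refine sum_eq_zero fun b _ => ?_
    rw [← sum_mul]
    have h2 : ∑ j, (m j : ℝ) * (N j a b : ℝ) = 0 := by exact_mod_cast hcon a b
    rw [h2, zero_mul]
  let K : Subgroup G :=
    { carrier := {z | z ∈ LL G 1 ∧ dot m (M.p 1 z) = 0}
      one_mem' := ⟨one_mem _, by rw [M.p_one (by omega)]; simp [dot]⟩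
      mul_mem' := by
        rintro a b ⟨ha, ha'⟩ ⟨hb, hb'⟩
        exact ⟨mul_mem ha hb, by rw [M.p_mul 1 (by omega) a ha b hb, dot_add, ha', hb', add_zero]⟩
      inv_mem' := by
        rintro a ⟨ha, ha'⟩
        exact ⟨inv_mem ha, by rw [M.p_inv (by omega) ha, dot_neg, ha', neg_zero]⟩ }
  have hK : LL G 1 ≤ K := by
    have h1 : LL G 1 = ⁅LL G 0, (⊤ : Subgroup G)⁆ := rfl
    rw [h1, Subgroup.commutator_le]
    intro x _ y _
    exact ⟨LL_comm (LL_zero x) y, hcomm x y⟩
  funext j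
  have h1 := (hK (M.e_mem 1 (by omega) (Pi.single j 1))).2
  rw [M.p_e 1 (by omega)] at h1
  unfold dot at h1
  simpa [Pi.single_apply] using h1

end Pool.Agent.Lib.MP_3e612f_nt.NF
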