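import Pool.Agent.Lib.MP_3e612f_nt.NF.Q.SqMal
import Pool.Agent.Lib.MP_3e612f_nt.NF.Q.OmN

/-! The horizontal coordinates of `(b, γ b γ⁻¹)` (paper: Q-Rel). -/

set_option autoImplicit false

namespace Pool.Agent.Lib.MP_3e612f_nt.NF

open Finset
open scoped commutatorElement

theorem mul_sum_mul_sum_aux {ι κ : Type} [Fintype ι] [Fintype κ] (r : ℝ) (f : ι → κ → ℝ) :
    r * ∑ a, ∑ c, f a c = ∑ a, ∑ c, r * f a c := by
  rw [mul_sum]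
  exact sum_congr rfl fun a _ => mul_sum _ _ _

/-- `b⁻¹ (γ b γ⁻¹) = [b⁻¹, γ]`, `p 1 [b⁻¹, γ] j = -∑ N j a c β_a ⌊l β_c⌋ = -l ∑ N j a c β_a β_c + ∑ N j a c β_a {l β_c}` and the first sum is `-l p 1 [b, b] j = 0`. -/
theorem sq_p0 {G : Type} [Group G] [TopologicalSpace G] [IsTopologicalGroup G] {Γ : Subgroup G} {k : ℕ} (M : Mal G Γ (k + 1)) (hk : 1 ≤ k)
    (N : M.I 1 → M.I 0 → M.I 0 → ℤ) (hN : ∀ (x y : G) (j : M.I 1), M.p 1 ⁅x, y⁆ j = ∑ a, ∑ b, (N j a b : ℝ) * M.p 0 x a * M.p 0 y b)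
    (b γ : G) (l : ℕ) (hγ : ∀ i, M.p 0 γ i = ⌊(l : ℝ) * M.p 0 b i⌋) (w : Sq G) (hw : (w : G × G) = (b, γ * b * γ⁻¹)) (m : M.I 0 ⊕ M.I 1 → ℤ) :
    dot m (sqp M 0 w) = dot (fun i => m (Sum.inl i)) (M.p 0 b) +
      ∑ c, (∑ a, ((∑ j, m (Sum.inr j) * N j a c : ℤ) : ℝ) * M.p 0 b a) * Int.fract ((l : ℝ) * M.p 0 b c) := by
  have h0 : ∀ x : G, x ∈ LL G 0 := fun x => Subgroup.mem_top x
  have hone0 : M.p 0 (1 : G) = 0 := by
    have h1 := M.p_mul 0 (by omega) 1 (h0 1) 1 (h0 1)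
    rw [mul_one] at h1
    exact left_eq_add.1 h1
  have hone1 : M.p 1 (1 : G) = 0 := by
    have h1 := M.p_mul 1 (by omega) 1 (one_mem _) 1 (one_mem _)
    rw [mul_one] at h1
    exact left_eq_add.1 h1
  have hinv : ∀ a, M.p 0 b⁻¹ a = -M.p 0 b a := by
    intro a
    have h1 := congrFun (M.p_mul 0 (by omega) b⁻¹ (h0 _) b (h0 _)) a
    rw [inv_mul_cancel, hone0, Pi.add_apply, Pi.zero_apply] at h1
    linarith
  have h1 : sqp M 0 w = Sum.elim (M.p 0 b) (M.p 1 ⁅b⁻¹, γ⁆) := by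
    unfold sqp
    rw [hw]
    have h2 : (b, γ * b * γ⁻¹).1⁻¹ * (b, γ * b * γ⁻¹).2 = ⁅b⁻¹, γ⁆ := by
      rw [commutatorElement_def, inv_inv]
      group
    rw [h2]
  have h2 : ∀ j, M.p 1 ⁅b⁻¹, γ⁆ j =
      ∑ a, ∑ c, (N j a c : ℝ) * M.p 0 b a * Int.fract ((l : ℝ) * M.p 0 b c) := by
    intro j
    have h3 : ∑ a, ∑ c, (N j a c : ℝ) * M.p 0 b a * M.p 0 b c = 0 := by
      have h4 := hN b b j
      rw [commutatorElement_self, hone1, Pi.zero_apply] at h4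
      exact h4.symm
    have h5 : ∀ a c, (N j a c : ℝ) * M.p 0 b⁻¹ a * M.p 0 γ c =
        (N j a c : ℝ) * M.p 0 b a * Int.fract ((l : ℝ) * M.p 0 b c) -
          l * ((N j a c : ℝ) * M.p 0 b a * M.p 0 b c) := by
      intro a c
      rw [hinv, hγ c]
      unfold Int.fract
      ring
    rw [hN]
    simp only [h5, sum_sub_distrib]
    rw [← mul_sum_mul_sum_aux l (fun a c => (N j a c : ℝ) * M.p 0 b a * M.p 0 b c), h3, mul_zero,
      sub_zero]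
  rw [h1, dot_sumElim]
  congr 1
  unfold dot
  simp only [h2]
  simp only [mul_sum, sum_mul, Int.cast_sum, Int.cast_mul]
  rw [sum_comm]
  have h6 : ∀ a : M.I 0, (∑ j, ∑ c, (m (Sum.inr j) : ℝ) *
      ((N j a c : ℝ) * M.p 0 b a * Int.fract ((l : ℝ) * M.p 0 b c))) =
      ∑ c, ∑ j, (m (Sum.inr j) : ℝ) *
      ((N j a c : ℝ) * M.p 0 b a * Int.fract ((l : ℝ) * M.p 0 b c)) := fun a => sum_comm
  simp only [h6]
  rw [sum_comm]
  refine sum_congr rfl fun c _ => sum_congr rfl fun a _ => sum_congr rfl fun j _ => ?_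
  ring

end Pool.Agent.Lib.MP_3e612f_nt.NF
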