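import Pool.Agent.Lib.MP_3e612f_nt.NF.Base

/-! The inequality of van der Corput (paper: Q-Rel). -/

set_option autoImplicit false

namespace Pool.Agent.Lib.MP_3e612f_nt.NF

open Finset
open Pool.Agent.Lib.MP_3e612f_nt.MR (mu ex)

/-- a shift by `l` costs `2 l` -/
theorem vdc_shift (f : ℕ → ℂ) (hf : ∀ i, ‖f i‖ ≤ 1) (J l : ℕ) :
    ‖∑ j ∈ range J, f (j + l) - ∑ j ∈ range J, f j‖ ≤ 2 * l := by
  induction l with
  | zero => simp
  | succ l ih =>
    have h1 : ∑ j ∈ range J, f (j + (l + 1)) = ∑ j ∈ range J, f (j + l) + (f (J + l) - f l) := by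
      have h2 := sum_range_succ (fun j => f (j + l)) J
      have h3 := sum_range_succ' (fun j => f (j + l)) J
      rw [h2] at h3
      have h4 : ∑ j ∈ range J, f (j + (l + 1)) = ∑ j ∈ range J, f (j + 1 + l) :=
        sum_congr rfl fun j _ => by congr 1; ring
      rw [h4]
      simp only [zero_add] at h3
      linear_combination -h3
    have h5 : ∑ j ∈ range J, f (j + (l + 1)) - ∑ j ∈ range J, f j =
        (∑ j ∈ range J, f (j + l) - ∑ j ∈ range J, f j) + (f (J + l) - f l) := by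
      rw [h1]
      ring
    rw [h5]
    refine (norm_add_le _ _).trans ?_
    have h6 := (norm_sub_le (f (J + l)) (f l)).trans (add_le_add (hf _) (hf _))
    push_cast
    linarith

/-- every difference `|l - l'|` occurs at most twice -/
theorem vdc_diff (c : ℕ → ℝ) (hc : ∀ h, 0 ≤ c h) (K l : ℕ) (hl : l < K) :
    ∑ l' ∈ range K, (if l' ≤ l then c (l - l') else c (l' - l)) ≤ 2 * ∑ h ∈ range K, c h := by
  rw [sum_ite, two_mul]
  apply add_le_add
  · rw [← sum_image (f := c) (s := (range K).filter (fun l' => l' ≤ l)) (g := fun l' => l - l')]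
    · apply sum_le_sum_of_subset_of_nonneg
      · intro h hh
        obtain ⟨l', hl', rfl⟩ := mem_image.1 hh
        rw [mem_range]
        exact (Nat.sub_le l l').trans_lt hl
      · intro i _ _
        exact hc i
    · intro x hx y hy hxy
      have h1 := (mem_filter.1 (Finset.mem_coe.1 hx)).2
      have h2 := (mem_filter.1 (Finset.mem_coe.1 hy)).2
      simp only at hxy
      omega
  · rw [← sum_image (f := c) (s := (range K).filter (fun l' => ¬ l' ≤ l)) (g := fun l' => l' - l)]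
    · apply sum_le_sum_of_subset_of_nonneg
      · intro h hh
        obtain ⟨l', hl', rfl⟩ := mem_image.1 hh
        have h1 := mem_range.1 (mem_filter.1 hl').1
        rw [mem_range]
        exact (Nat.sub_le l' l).trans_lt h1
      · intro i _ _
        exact hc i
    · intro x hx y hy hxy
      have h1 := (mem_filter.1 (Finset.mem_coe.1 hx)).2
      have h2 := (mem_filter.1 (Finset.mem_coe.1 hy)).2
      simp only at hxy
      omega

/-- correlation of two shifts -/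
theorem vdc_corr (a : ℕ → ℂ) (ha : ∀ j, ‖a j‖ ≤ 1) (J l l' : ℕ) (hl : l' ≤ l) :
    ‖∑ j ∈ range J, a (j + l) * (starRingEnd ℂ) (a (j + l'))‖ ≤
      ‖∑ j ∈ range J, a (j + (l - l')) * (starRingEnd ℂ) (a j)‖ + 2 * l' := by
  have hf : ∀ i, ‖a (i + (l - l')) * (starRingEnd ℂ) (a i)‖ ≤ 1 := by
    intro i
    rw [norm_mul, RCLike.norm_conj]
    calc ‖a (i + (l - l'))‖ * ‖a i‖ ≤ 1 * 1 :=
          mul_le_mul (ha _) (ha _) (norm_nonneg _) zero_le_one
      _ = 1 := one_mul 1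
  have h1 := vdc_shift (fun i => a (i + (l - l')) * (starRingEnd ℂ) (a i)) hf J l'
  have h2 : ∑ j ∈ range J, a (j + l) * (starRingEnd ℂ) (a (j + l')) =
      ∑ j ∈ range J, a (j + l' + (l - l')) * (starRingEnd ℂ) (a (j + l')) := by
    refine sum_congr rfl fun j _ => ?_
    congr 2
    omega
  rw [h2]
  have h3 := norm_le_norm_add_norm_sub'
    (∑ j ∈ range J, a (j + l' + (l - l')) * (starRingEnd ℂ) (a (j + l')))
    (∑ j ∈ range J, a (j + (l - l')) * (starRingEnd ℂ) (a j))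
  linarith

/-- correlation of two shifts, symmetric form -/
theorem vdc_corr' (a : ℕ → ℂ) (ha : ∀ j, ‖a j‖ ≤ 1) (J K l l' : ℕ) (hl : l < K) (hl' : l' < K) :
    ‖∑ j ∈ range J, a (j + l) * (starRingEnd ℂ) (a (j + l'))‖ ≤
      (if l' ≤ l then ‖∑ j ∈ range J, a (j + (l - l')) * (starRingEnd ℂ) (a j)‖ else
        ‖∑ j ∈ range J, a (j + (l' - l)) * (starRingEnd ℂ) (a j)‖) + 2 * K := by
  have hK : (l : ℝ) ≤ K := by exact_mod_cast hl.le
  have hK' : (l' : ℝ) ≤ K := by exact_mod_cast hl'.le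
  split_ifs with h
  · have := vdc_corr a ha J l l' h
    linarith
  · have h1 := vdc_corr a ha J l' l (by omega)
    have h2 : ‖∑ j ∈ range J, a (j + l) * (starRingEnd ℂ) (a (j + l'))‖ =
        ‖∑ j ∈ range J, a (j + l') * (starRingEnd ℂ) (a (j + l))‖ := by
      rw [← RCLike.norm_conj (∑ j ∈ range J, a (j + l') * (starRingEnd ℂ) (a (j + l))), map_sum]
      congr 1
      refine sum_congr rfl fun j _ => ?_
      rw [map_mul, Complex.conj_conj, mul_comm]
    rw [h2]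
    linarith

/-- `K = ⌊κ² J/16⌋`. (1) `|∑_{j<J} (1/K) ∑_{l<K} a_{j+l}| ≥ κJ - K ≥ κJ/2`; (2) Cauchy - Schwarz: `∑_{j<J} |∑_{l<K} a_{j+l}|² ≥ K² κ² J/4`; (3) for `l' ≤ l`, `∑_{j<J} a_{j+l} ā_{j+l'} = C_{l-l'} + O(2K)`, `C_h = ∑_{i<J} a_{i+h} ā_i`; so `∑_{l,l'<K} |C_{|l-l'|}| ≥ K² κ² J/8`
and `∑_{h<K} |C_h| ≥ K κ² J/16`; (4) `|C_h| ≤ J`. -/
theorem vdc (a : ℕ → ℂ) (ha : ∀ j, ‖a j‖ ≤ 1) (κ : ℝ) (hκ : 0 < κ) (hκ1 : κ ≤ 1) (J : ℕ) (h : κ * J ≤ ‖∑ j ∈ range J, a j‖) :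
    κ ^ 2 / 32 * (⌊κ ^ 2 * J / 16⌋₊ : ℝ) ≤
      ((((range ⌊κ ^ 2 * J / 16⌋₊).filter (fun l : ℕ => κ ^ 2 / 32 * J ≤ ‖∑ j ∈ range J, a (j + l) * (starRingEnd ℂ) (a j)‖)).card : ℕ) : ℝ) := by
  have hfl : (⌊κ ^ 2 * J / 16⌋₊ : ℝ) ≤ κ ^ 2 * J / 16 := Nat.floor_le (by positivity)
  set K := ⌊κ ^ 2 * J / 16⌋₊ with hKdef
  set c : ℕ → ℝ := fun h => ‖∑ j ∈ range J, a (j + h) * (starRingEnd ℂ) (a j)‖ with hcdef
  have hc0 : ∀ h, 0 ≤ c h := fun h => norm_nonneg _
  rcases Nat.eq_zero_or_pos K with hK0 | hKpos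
  · rw [hK0]
    simp
  have hKr : (0 : ℝ) < K := by exact_mod_cast hKpos
  have hJr : (0 : ℝ) < J := by
    by_contra hcon
    have h0 : (J : ℝ) = 0 := le_antisymm (not_lt.1 hcon) (Nat.cast_nonneg J)
    rw [h0] at hfl
    simp only [mul_zero, zero_div] at hfl
    linarith
  -- (1)
  set b : ℕ → ℂ := fun j => ∑ l ∈ range K, a (j + l) with hbdef
  have h1 : κ * J * K - 2 * K * K ≤ ‖∑ j ∈ range J, b j‖ := by
    have e1 : ∑ j ∈ range J, b j = ∑ l ∈ range K, ∑ j ∈ range J, a (j + l) := by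
      simp only [hbdef]
      exact sum_comm
    have e2 : (K : ℂ) * ∑ j ∈ range J, a j = ∑ l ∈ range K, ∑ j ∈ range J, a j := by
      rw [sum_const, card_range, nsmul_eq_mul]
    have e3 : ‖∑ j ∈ range J, b j - (K : ℂ) * ∑ j ∈ range J, a j‖ ≤ 2 * K * K := by
      rw [e1, e2, ← sum_sub_distrib]
      refine (norm_sum_le _ _).trans ?_
      have : ∀ l ∈ range K, ‖∑ j ∈ range J, a (j + l) - ∑ j ∈ range J, a j‖ ≤ 2 * K := by
        intro l hl
        have h2 : (l : ℝ) ≤ K := by exact_mod_cast (mem_range.1 hl).le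
        exact (vdc_shift a ha J l).trans (by linarith)
      refine (sum_le_sum this).trans (le_of_eq ?_)
      rw [sum_const, card_range, nsmul_eq_mul]
      ring
    have e4 : ‖(K : ℂ) * ∑ j ∈ range J, a j‖ = K * ‖∑ j ∈ range J, a j‖ := by
      rw [norm_mul, Complex.norm_natCast]
    have e5 := norm_le_norm_add_norm_sub ((K : ℂ) * ∑ j ∈ range J, a j) (∑ j ∈ range J, b j)
    rw [norm_sub_rev] at e5
    have e7 : (K : ℝ) * (κ * J) ≤ K * ‖∑ j ∈ range J, a j‖ := mul_le_mul_of_nonneg_left h hKr.le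
    have e8 := norm_sub_norm_le ((K : ℂ) * ∑ j ∈ range J, a j) (∑ j ∈ range J, b j)
    rw [norm_sub_rev] at e8
    rw [e4] at e8
    linarith
  have h1' : 7 / 8 * κ * J * K ≤ ‖∑ j ∈ range J, b j‖ := by
    refine le_trans ?_ h1
    have e1 : κ ^ 2 * J / 16 ≤ κ * J / 16 := by
      have : κ ^ 2 ≤ κ := by nlinarith
      have := mul_le_mul_of_nonneg_right this hJr.le
      linarith
    have e2 : (K : ℝ) ≤ κ * J / 16 := hfl.trans e1
    nlinarith [mul_le_mul_of_nonneg_right e2 hKr.le]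
  -- (2)
  have h2 : 49 / 64 * κ ^ 2 * J * K ^ 2 ≤ ∑ j ∈ range J, ‖b j‖ ^ 2 := by
    have e1 : ‖∑ j ∈ range J, b j‖ ≤ ∑ j ∈ range J, ‖b j‖ := norm_sum_le _ _
    have e2 : (∑ j ∈ range J, ‖b j‖) ^ 2 ≤ J * ∑ j ∈ range J, ‖b j‖ ^ 2 := by
      have := sq_sum_le_card_mul_sum_sq (s := range J) (f := fun j => ‖b j‖)
      rwa [card_range] at this
    have e3 : (7 / 8 * κ * J * K) ^ 2 ≤ (∑ j ∈ range J, ‖b j‖) ^ 2 :=
      pow_le_pow_left₀ (by positivity) (h1'.trans e1) 2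
    have e4 : (J : ℝ) * (49 / 64 * κ ^ 2 * J * K ^ 2) ≤ J * ∑ j ∈ range J, ‖b j‖ ^ 2 := by
      refine le_trans (le_of_eq ?_) (e3.trans e2)
      ring
    exact le_of_mul_le_mul_left e4 hJr
  -- (3)
  have h3 : ∑ j ∈ range J, ‖b j‖ ^ 2 ≤ 2 * K * ∑ h ∈ range K, c h + 2 * K ^ 3 := by
    have e1 : ((∑ j ∈ range J, ‖b j‖ ^ 2 : ℝ) : ℂ) =
        ∑ l ∈ range K, ∑ l' ∈ range K, ∑ j ∈ range J, a (j + l) * (starRingEnd ℂ) (a (j + l')) := by
      rw [Complex.ofReal_sum]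
      have e2 : ∀ j ∈ range J, ((‖b j‖ ^ 2 : ℝ) : ℂ) =
          ∑ l ∈ range K, ∑ l' ∈ range K, a (j + l) * (starRingEnd ℂ) (a (j + l')) := by
        intro j _
        rw [Complex.ofReal_pow, ← Complex.mul_conj', map_sum, sum_mul_sum]
      rw [sum_congr rfl e2, sum_comm]
      refine sum_congr rfl fun l _ => ?_
      rw [sum_comm]
    have e3 : ∑ j ∈ range J, ‖b j‖ ^ 2 = ‖((∑ j ∈ range J, ‖b j‖ ^ 2 : ℝ) : ℂ)‖ := by
      rw [Complex.norm_real, Real.norm_of_nonneg (sum_nonneg fun _ _ => by positivity)]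
    rw [e3, e1]
    refine (norm_sum_le _ _).trans ?_
    have e4 : ∀ l ∈ range K, ‖∑ l' ∈ range K, ∑ j ∈ range J, a (j + l) * (starRingEnd ℂ) (a (j + l'))‖ ≤
        2 * ∑ h ∈ range K, c h + 2 * K * K := by
      intro l hl
      refine (norm_sum_le _ _).trans ?_
      have e5 : ∀ l' ∈ range K, ‖∑ j ∈ range J, a (j + l) * (starRingEnd ℂ) (a (j + l'))‖ ≤
          (if l' ≤ l then c (l - l') else c (l' - l)) + 2 * K := fun l' hl' =>
        vdc_corr' a ha J K l l' (mem_range.1 hl) (mem_range.1 hl')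
      refine (sum_le_sum e5).trans ?_
      rw [sum_add_distrib, sum_const, card_range, nsmul_eq_mul]
      have e6 := vdc_diff c hc0 K l (mem_range.1 hl)
      linarith
    refine (sum_le_sum e4).trans (le_of_eq ?_)
    rw [sum_const, card_range, nsmul_eq_mul]
    ring
  have h4 : 41 / 128 * κ ^ 2 * J * K ≤ ∑ h ∈ range K, c h := by
    have e1 : 2 * (K : ℝ) ^ 3 ≤ κ ^ 2 * J / 8 * K ^ 2 := by
      have := mul_le_mul_of_nonneg_right hfl (by positivity : (0 : ℝ) ≤ 2 * K ^ 2)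
      nlinarith
    have e2 : (2 * K : ℝ) * (41 / 128 * κ ^ 2 * J * K) ≤ 2 * K * ∑ h ∈ range K, c h := by
      nlinarith
    exact le_of_mul_le_mul_left e2 (by positivity)
  -- (4)
  have hcJ : ∀ h, c h ≤ J := by
    intro h
    simp only [hcdef]
    refine (norm_sum_le _ _).trans ?_
    have e1 : ∀ j ∈ range J, ‖a (j + h) * (starRingEnd ℂ) (a j)‖ ≤ 1 := by
      intro j _
      rw [norm_mul, RCLike.norm_conj]
      calc ‖a (j + h)‖ * ‖a j‖ ≤ 1 * 1 := mul_le_mul (ha _) (ha _) (norm_nonneg _) zero_le_one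
        _ = 1 := one_mul 1
    refine (sum_le_sum e1).trans (le_of_eq ?_)
    rw [sum_const, card_range, nsmul_eq_mul, mul_one]
  set S := (range K).filter (fun l : ℕ => κ ^ 2 / 32 * J ≤ c l) with hS
  have h5 : ∑ h ∈ range K, c h ≤ S.card * J + K * (κ ^ 2 / 32 * J) := by
    rw [← sum_filter_add_sum_filter_not (range K) (fun l : ℕ => κ ^ 2 / 32 * J ≤ c l)]
    apply add_le_add
    · refine (sum_le_sum (fun l _ => hcJ l)).trans (le_of_eq ?_)
      rw [sum_const, nsmul_eq_mul]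
    · have e1 : ∀ l ∈ (range K).filter (fun l : ℕ => ¬ κ ^ 2 / 32 * J ≤ c l), c l ≤ κ ^ 2 / 32 * J :=
        fun l hl => (not_le.1 (mem_filter.1 hl).2).le
      refine (sum_le_sum e1).trans ?_
      rw [sum_const, nsmul_eq_mul]
      have e2 : ((((range K).filter (fun l : ℕ => ¬ κ ^ 2 / 32 * J ≤ c l)).card : ℕ) : ℝ) ≤ K := by
        have := card_filter_le (range K) (fun l : ℕ => ¬ κ ^ 2 / 32 * J ≤ c l)
        rw [card_range] at this
        exact_mod_cast this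
      exact mul_le_mul_of_nonneg_right e2 (by positivity)
  have h6 : κ ^ 2 / 32 * K * J ≤ S.card * J := by
    have e1 : 0 ≤ κ ^ 2 * J * K := by positivity
    nlinarith
  exact le_of_mul_le_mul_right h6 hJr

end Pool.Agent.Lib.MP_3e612f_nt.NF
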