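import Pool.Agent.Lib.MP_3e612f_nt.NF.Q.Defs

/-! Algebra of the lower central series and of Mal'cev data (proved). -/

set_option autoImplicit false

namespace Pool.Agent.Lib.MP_3e612f_nt.NF

open Finset

open scoped commutatorElement

variable {G : Type} [Group G]

theorem LL_zero (x : G) : x ∈ LL G 0 := Subgroup.mem_top x

theorem LL_le (i : ℕ) : LL G (i + 1) ≤ LL G i := Subgroup.lowerCentralSeries_antitone _ (Nat.le_succ i)

theorem LL_anti {i j : ℕ} (h : i ≤ j) : LL G j ≤ LL G i := Subgroup.lowerCentralSeries_antitone _ h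

instance LL_normal (i : ℕ) : (LL G i).Normal := Subgroup.lowerCentralSeries_normal _ i

theorem LL_conj {i : ℕ} {x : G} (hx : x ∈ LL G i) (g : G) : g * x * g⁻¹ ∈ LL G i := (LL_normal i).conj_mem x hx g

theorem LL_conj' {i : ℕ} {x : G} (hx : x ∈ LL G i) (g : G) : g⁻¹ * x * g ∈ LL G i := by
  have := LL_conj hx g⁻¹
  rwa [inv_inv] at this

theorem LL_comm {i : ℕ} {x : G} (hx : x ∈ LL G i) (g : G) : ⁅x, g⁆ ∈ LL G (i + 1) :=
  Subgroup.commutator_mem_commutator hx (Subgroup.mem_top g)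

theorem LL_comm' {i : ℕ} {x : G} (hx : x ∈ LL G i) (g : G) : ⁅g, x⁆ ∈ LL G (i + 1) := by
  rw [← commutatorElement_inv]
  exact inv_mem (LL_comm hx g)

/-- moving an element of `LL G i` to the left past `g` costs an element of `LL G (i+1)` -/
theorem LL_swap {i : ℕ} {x : G} (hx : x ∈ LL G i) (g : G) : ∃ h ∈ LL G (i + 1), g * x = h * (x * g) := by
  refine ⟨⁅g, x⁆, LL_comm' hx g, ?_⟩
  rw [commutatorElement_def]
  group

variable [TopologicalSpace G] {Γ : Subgroup G} {k : ℕ} (M : Mal G Γ k)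

theorem Mal.p_one {i : ℕ} (hi : i < k) : M.p i 1 = 0 := (M.p_ker i hi 1 (one_mem _)).2 (one_mem _)

theorem Mal.p_inv {i : ℕ} (hi : i < k) {x : G} (hx : x ∈ LL G i) : M.p i x⁻¹ = -M.p i x := by
  have h := M.p_mul i hi x⁻¹ (inv_mem hx) x hx
  rw [inv_mul_cancel, M.p_one hi] at h
  exact eq_neg_of_add_eq_zero_left h.symm

theorem Mal.p_next {i : ℕ} (hi : i < k) {x : G} (hx : x ∈ LL G (i + 1)) : M.p i x = 0 := (M.p_ker i hi x (LL_le i hx)).2 hx

theorem Mal.p_mul_left {i : ℕ} (hi : i < k) {h x : G} (hh : h ∈ LL G (i + 1)) (hx : x ∈ LL G i) : M.p i (h * x) = M.p i x := by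
  rw [M.p_mul i hi h (LL_le i hh) x hx, M.p_next hi hh, zero_add]

theorem Mal.p_conj {i : ℕ} (hi : i < k) {x : G} (hx : x ∈ LL G i) (g : G) : M.p i (g * x * g⁻¹) = M.p i x := by
  obtain ⟨h, hh, he⟩ := LL_swap hx g
  rw [he]
  have : h * (x * g) * g⁻¹ = h * x := by group
  rw [this, M.p_mul_left hi hh hx]

theorem Mal.p_conj' {i : ℕ} (hi : i < k) {x : G} (hx : x ∈ LL G i) (g : G) : M.p i (g⁻¹ * x * g) = M.p i x := by
  have := M.p_conj hi hx g⁻¹
  rwa [inv_inv] at this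

theorem Mal.p_eq_iff {i : ℕ} (hi : i < k) {x y : G} (hx : x ∈ LL G i) (hy : y ∈ LL G i) :
    M.p i x = M.p i y ↔ x * y⁻¹ ∈ LL G (i + 1) := by
  rw [← M.p_ker i hi _ (mul_mem hx (inv_mem hy)), M.p_mul i hi x hx _ (inv_mem hy), M.p_inv hi hy, ← sub_eq_add_neg, sub_eq_zero]

theorem Mal.p_pow {i : ℕ} (hi : i < k) {x : G} (hx : x ∈ LL G i) (n : ℕ) : M.p i (x ^ n) = (n : ℝ) • M.p i x := by
  induction n with
  | zero => simp [M.p_one hi]
  | succ n ih =>
    rw [pow_succ, M.p_mul i hi _ (pow_mem hx n) x hx, ih]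
    push_cast
    rw [add_smul, one_smul]

theorem Mal.p0_mul (hk : 0 < k) (x y : G) : M.p 0 (x * y) = M.p 0 x + M.p 0 y := M.p_mul 0 hk x (LL_zero x) y (LL_zero y)

theorem Mal.p0_pow (hk : 0 < k) (x : G) (n : ℕ) : M.p 0 (x ^ n) = (n : ℝ) • M.p 0 x := M.p_pow hk (LL_zero x) n

theorem Mal.p0_inv (hk : 0 < k) (x : G) : M.p 0 x⁻¹ = -M.p 0 x := M.p_inv hk (LL_zero x)

theorem Mal.p0_conj (hk : 0 < k) (x g : G) : M.p 0 (g * x * g⁻¹) = M.p 0 x := M.p_conj hk (LL_zero x) g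

theorem Mal.p0_cont (hk : 0 < k) : Continuous (M.p 0) := by
  have h := M.p_cont 0 hk
  have h2 : (LL G 0 : Set G) = Set.univ := by
    ext x
    simp
  rw [h2] at h
  exact continuousOn_univ.1 h

/-- an admissible function does not see left factors from `LL G k` inside a product -/
theorem Adm.mid {F : G → ℂ} (hF : Adm Γ k F) (y : G) {h : G} (hh : h ∈ LL G k) (x : G) : F (y * h * x) = F (y * x) := by
  have h1 : y * h * x = (y * h * y⁻¹) * (y * x) := by group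
  rw [h1, hF.left _ _ (LL_conj hh y)]

theorem Adm.dec {F : G → ℂ} (hF : Adm Γ k F) {x r h γ : G} (hh : h ∈ LL G k) (hγ : γ ∈ Γ) (hx : x = r * h * γ) (y : G) :
    F (y * x) = F (y * r) := by
  have h1 : y * x = y * (r * h) * γ := by rw [hx]; group
  rw [h1, hF.right _ γ hγ]
  have h2 : y * (r * h) = (y * r) * h * 1 := by group
  rw [h2, hF.mid (y * r) hh 1, mul_one]

theorem Adm.dec' {F : G → ℂ} (hF : Adm Γ k F) {x r h γ : G} (hh : h ∈ LL G k) (hγ : γ ∈ Γ) (hx : x = r * h * γ) : F x = F r := by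
  have := hF.dec hh hγ hx 1
  rwa [one_mul, one_mul] at this

end Pool.Agent.Lib.MP_3e612f_nt.NF
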