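import Pool.Agent.Lib.MP_3e612f_nt.NF.Base

/-! Quantitative equidistribution of the orbits `g^j a`: definitions (paper, Part Q). -/

set_option autoImplicit false

namespace Pool.Agent.Lib.MP_3e612f_nt.NF

open Finset

/-- `F` is continuous, right `Γ`-invariant and left `LL G k`-invariant. -/
structure Adm {G : Type} [Group G] [TopologicalSpace G] (Γ : Subgroup G) (k : ℕ) (F : G → ℂ) : Prop where
  cont : Continuous F
  right : ∀ x, ∀ γ ∈ Γ, F (x * γ) = F x
  left : ∀ x, ∀ h ∈ LL G k, F (h * x) = F x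

/-- QP: the orbits `g^j a`, `j < J`, have `F`-mean close to `c` unless `p 0 g` has a relation. (`ι` = index set of the horizontal coordinates, `P` = the map `p 0`.) -/
def QP {G : Type} [Group G] {ι : Type} [Fintype ι] (P : G → ι → ℝ) (F : G → ℂ) (c : ℂ) : Prop :=
  ∀ κ : ℝ, 0 < κ → ∃ B : ℕ, ∀ (J : ℕ) (g a : G), 1 ≤ J → κ * J ≤ ‖∑ j ∈ range J, (F (g ^ j * a) - c)‖ →
    ∃ m : ι → ℤ, m ≠ 0 ∧ (∀ i, |m i| ≤ B) ∧ dZ (dot m (P g)) ≤ B / J

/-- `x` has no integral relation. -/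
def NoRel {ι : Type} [Fintype ι] (x : ι → ℝ) : Prop := ∀ m : ι → ℤ, m ≠ 0 → ∀ z : ℤ, dot m x ≠ z

/-- no relation of size `M` at scale `K` -/
def NoRelAt {ι : Type} [Fintype ι] (M : ℕ) (K : ℕ) (x : ι → ℝ) : Prop := ∀ m : ι → ℤ, m ≠ 0 → (∀ i, |m i| ≤ M) → (M : ℝ) / K < dZ (dot m x)

/-- Truncation of Mal'cev data. -/
def Mal.trunc {G : Type} [Group G] [TopologicalSpace G] {Γ : Subgroup G} {k : ℕ} (M : Mal G Γ (k + 1)) : Mal G Γ k where
  I := M.I
  fin := M.fin
  p := M.p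
  e := M.e
  p_cont := fun i hi => M.p_cont i (by omega)
  p_mul := fun i hi => M.p_mul i (by omega)
  p_ker := fun i hi => M.p_ker i (by omega)
  e_cont := fun i hi => M.e_cont i (by omega)
  e_mem := fun i hi => M.e_mem i (by omega)
  p_e := fun i hi => M.p_e i (by omega)
  p_int := fun i hi => M.p_int i (by omega)
  int_p := fun i hi => M.int_p i (by omega)

end Pool.Agent.Lib.MP_3e612f_nt.NF
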