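import Pool.Agent.Lib.MP_3e612f_nt.NF.Q.Defs
import Pool.Agent.Lib.MP_3e612f_nt.NF.U.Maj

/-! Equidistribution upper bounds at a scale (paper: Q-EQ). -/

set_option autoImplicit false

namespace Pool.Agent.Lib.MP_3e612f_nt.NF

open Finset
open Pool.Agent.Lib.MP_3e612f_nt.MR (mu ex)

theorem EQ_ex_sum {κ : Type} (s : Finset κ) (f : κ → ℝ) : ex (∑ i ∈ s, f i) = ∏ i ∈ s, ex (f i) := by
  classical
  induction s using Finset.induction_on with
  | empty => simp [ex_zero]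
  | insert a s ha ih => rw [Finset.sum_insert ha, Finset.prod_insert ha, ex_add, ih]

theorem NoRelAt.mono {ι : Type} [Fintype ι] {M M' K : ℕ} {x : ι → ℝ} (h : NoRelAt M K x) (hM : M' ≤ M) : NoRelAt M' K x := by
  intro m hm hmM
  have hMM : (M' : ℝ) ≤ M := by exact_mod_cast hM
  have h1 : ∀ i, |m i| ≤ (M : ℤ) := fun i => (hmM i).trans (by exact_mod_cast hM)
  refine lt_of_le_of_lt ?_ (h m hm h1)
  exact div_le_div_of_nonneg_right hMM (Nat.cast_nonneg _)

open scoped Classical in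
/-- products of nonnegative trigonometric polynomials along an orbit without relations -/
theorem tm_prod {L : ℕ} {c : ℤ → ℂ} {T : ℝ → ℝ} {c₀ : ℝ} (h : TM L c T c₀) (κ : Type) [Fintype κ] (ε : ℝ) (hε : 0 < ε) :
    ∃ M : ℕ, ∀ K : ℕ, 1 ≤ K → ∀ x : κ → ℝ, NoRelAt M K x → ∀ (p : κ → ℝ) (N : ℕ),
      ∑ j ∈ range N, ∏ i, T (j * x i + p i) ≤ c₀ ^ Fintype.card κ * N + ε * K := by
  set Λ : Finset (κ → ℤ) := Fintype.piFinset (fun _ : κ => Icc (-(L : ℤ)) L) with hΛ
  set A : ℝ := ∑ m ∈ Λ, ∏ i, ‖c (m i)‖ with hA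
  have hA0 : 0 ≤ A := sum_nonneg fun m _ => prod_nonneg fun i _ => norm_nonneg _
  refine ⟨L + ⌈A / ε⌉₊ + 1, fun K hK x hx p N => ?_⟩
  set M : ℕ := L + ⌈A / ε⌉₊ + 1 with hM
  have hK0 : (0 : ℝ) < K := by exact_mod_cast hK
  have hM0 : (0 : ℝ) < M := by exact_mod_cast (by omega : 0 < M)
  have hAM : A ≤ ε * M := by
    have h1 : A / ε ≤ M := (Nat.le_ceil _).trans (by exact_mod_cast (by omega : ⌈A / ε⌉₊ ≤ M))
    rw [div_le_iff₀ hε] at h1
    linarith
  have hexp : ∀ j : ℕ, ((∏ i, T (j * x i + p i) : ℝ) : ℂ) = ∑ m ∈ Λ, (∏ i, c (m i)) * ex (j * dot m x + dot m p) := by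
    intro j
    push_cast
    simp only [h.eq]
    rw [Finset.prod_univ_sum]
    refine sum_congr rfl fun m _ => ?_
    rw [prod_mul_distrib, ← EQ_ex_sum]
    congr 2
    unfold dot
    rw [mul_sum, ← sum_add_distrib]
    refine sum_congr rfl fun i _ => ?_
    ring
  have hsum : ((∑ j ∈ range N, ∏ i, T (j * x i + p i) : ℝ) : ℂ) = ∑ m ∈ Λ, (∏ i, c (m i)) * ∑ j ∈ range N, ex (j * dot m x + dot m p) := by
    rw [Complex.ofReal_sum]
    simp only [hexp, mul_sum]
    rw [sum_comm]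
  have h0Λ : (0 : κ → ℤ) ∈ Λ := by
    rw [hΛ, Fintype.mem_piFinset]
    intro i
    rw [mem_Icc]
    simp
  have hzero : (∏ i : κ, c ((0 : κ → ℤ) i)) * ∑ j ∈ range N, ex (j * dot (0 : κ → ℤ) x + dot (0 : κ → ℤ) p) = ((c₀ ^ Fintype.card κ * N : ℝ) : ℂ) := by
    have h1 : dot (0 : κ → ℤ) x = 0 := by simp [dot]
    have h2 : dot (0 : κ → ℤ) p = 0 := by simp [dot]
    rw [h1, h2]
    simp only [Pi.zero_apply, h.zero, prod_const, card_univ, mul_zero, add_zero, ex_zero, sum_const, card_range, nsmul_eq_mul, mul_one]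
    push_cast
    ring
  have hterm : ∀ m ∈ Λ.erase 0, ‖(∏ i, c (m i)) * ∑ j ∈ range N, ex (j * dot m x + dot m p)‖ ≤ (∏ i, ‖c (m i)‖) * (K / M) := by
    intro m hm
    rw [mem_erase, hΛ, Fintype.mem_piFinset] at hm
    have hmM : ∀ i, |m i| ≤ (M : ℤ) := by
      intro i
      have h1 := mem_Icc.1 (hm.2 i)
      have h2 : (L : ℤ) ≤ M := by exact_mod_cast (by omega : L ≤ M)
      rw [abs_le]
      constructor <;> omega
    have h1 := hx m hm.1 hmM
    have h2 := geom_le (dot m x) (dot m p) N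
    rw [norm_mul, norm_prod]
    refine mul_le_mul_of_nonneg_left ?_ (prod_nonneg fun i _ => norm_nonneg _)
    have h3 : (0 : ℝ) ≤ ‖∑ j ∈ range N, ex (j * dot m x + dot m p)‖ := norm_nonneg _
    have h4 : ‖∑ j ∈ range N, ex (j * dot m x + dot m p)‖ * (2 * (M / K)) ≤ 1 := by
      refine le_trans (mul_le_mul_of_nonneg_left ?_ h3) h2
      linarith
    have h5 : ‖∑ j ∈ range N, ex (j * dot m x + dot m p)‖ * (M / K) ≤ 1 := by
      have : 0 ≤ ‖∑ j ∈ range N, ex (j * dot m x + dot m p)‖ * (M / K) := by positivity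
      nlinarith
    rw [mul_div_assoc', div_le_iff₀ hK0, one_mul] at h5
    rw [le_div_iff₀ hM0]
    exact h5
  have hmain : ‖((∑ j ∈ range N, ∏ i, T (j * x i + p i) : ℝ) : ℂ)‖ ≤ c₀ ^ Fintype.card κ * N + A * (K / M) := by
    rw [hsum, ← add_sum_erase Λ _ h0Λ, hzero]
    refine (norm_add_le _ _).trans (add_le_add ?_ ?_)
    · rw [Complex.norm_real, Real.norm_eq_abs, abs_of_nonneg]
      have := h.pos
      positivity
    · refine (norm_sum_le_of_le _ hterm).trans ?_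
      rw [← sum_mul]
      refine mul_le_mul_of_nonneg_right ?_ (by positivity)
      exact sum_le_sum_of_subset_of_nonneg (erase_subset _ _) fun _ _ _ => prod_nonneg fun i _ => norm_nonneg _
  rw [Complex.norm_real, Real.norm_eq_abs] at hmain
  have h6 := (le_abs_self _).trans hmain
  have h7 : A * (K / M) ≤ ε * K := by
    rw [mul_div_assoc', div_le_iff₀ hM0]
    nlinarith
  linarith

/-- the closed periodic set of the numbers within `lam` of the integers -/
theorem EQ_arc (lam : ℝ) (hlam : 0 < lam) : IsClosed {x : ℝ | dZ x ≤ lam} ∧ (∀ x ∈ {x : ℝ | dZ x ≤ lam}, ∀ z : ℤ, x + z ∈ {x : ℝ | dZ x ≤ lam}) ∧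
    MeasureTheory.volume ({x : ℝ | dZ x ≤ lam} ∩ Set.Ico 0 1) ≤ ENNReal.ofReal (2 * lam) := by
  have hlip : ∀ x y : ℝ, |dZ x - dZ y| ≤ |x - y| := by
    intro x y
    have h1 : dZ x ≤ dZ y + |x - y| := by
      have := dZ_add_le y (x - y)
      rw [add_sub_cancel] at this
      exact this.trans (add_le_add le_rfl (dZ_le_abs _))
    have h2 : dZ y ≤ dZ x + |x - y| := by
      have := dZ_add_le x (y - x)
      rw [add_sub_cancel] at this
      refine this.trans (add_le_add le_rfl ?_)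
      rw [abs_sub_comm]
      exact dZ_le_abs _
    rw [abs_le]
    constructor <;> linarith
  have hcont : Continuous dZ := by
    rw [Metric.continuous_iff]
    intro x ε hε
    refine ⟨ε, hε, fun y hy => ?_⟩
    rw [Real.dist_eq] at hy ⊢
    exact lt_of_le_of_lt (hlip y x) hy
  refine ⟨isClosed_le hcont continuous_const, ?_, ?_⟩
  · intro x hx z
    change dZ (x + z) ≤ lam
    rw [dZ_add_int]
    exact hx
  · have hsub : {x : ℝ | dZ x ≤ lam} ∩ Set.Ico 0 1 ⊆ Set.Icc 0 lam ∪ Set.Icc (1 - lam) 1 := by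
      rintro x ⟨hx, hx0, hx1⟩
      change dZ x ≤ lam at hx
      obtain ⟨z, hz⟩ := exists_int x
      rw [← hz, abs_le] at hx
      rcases le_or_gt z 0 with h | h
      · left
        have h1 : (z : ℝ) ≤ 0 := by exact_mod_cast h
        exact ⟨hx0, by linarith [hx.2]⟩
      · right
        have h1 : (1 : ℝ) ≤ z := by exact_mod_cast h
        exact ⟨by linarith [hx.1], hx1.le⟩
    refine (MeasureTheory.measure_mono hsub).trans ((MeasureTheory.measure_union_le _ _).trans ?_)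
    rw [Real.volume_Icc, Real.volume_Icc, ← ENNReal.ofReal_add (by linarith) (by linarith)]
    refine ENNReal.ofReal_le_ofReal ?_
    linarith

/-- at most the expected number (up to a constant) of points of an orbit without relations lie in a cube -/
theorem eq_count (κ : Type) [Fintype κ] (lam ε : ℝ) (hlam : 0 < lam) (hε : 0 < ε) : ∃ M : ℕ, ∀ K : ℕ, 1 ≤ K → ∀ x : κ → ℝ, NoRelAt M K x → ∀ (p : κ → ℝ) (a N : ℕ) (S : Finset ℕ),
    S ⊆ Ico a (a + N) → (∀ k ∈ S, ∀ i, dZ (k * x i - p i) ≤ lam) → (#S : ℝ) ≤ (3 * lam) ^ Fintype.card κ * N + ε * K := by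
  classical
  obtain ⟨hcl, hper, hvol⟩ := EQ_arc lam hlam
  obtain ⟨L, c, T, c₀, hTM, hc₀, ρ, hρ, hT⟩ := exists_maj _ hcl hper (2 * lam) lam (by positivity) hlam hvol
  obtain ⟨M, hM⟩ := tm_prod hTM κ ε hε
  refine ⟨M, fun K hK x hx p a N S hS hSx => ?_⟩
  have h1 := hM K hK x hx (fun i => a * x i - p i) N
  have h2 : ∑ j ∈ range N, ∏ i, T (j * x i + (a * x i - p i)) = ∑ k ∈ Ico a (a + N), ∏ i, T (k * x i - p i) := by
    rw [sum_Ico_eq_sum_range, add_tsub_cancel_left]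
    refine sum_congr rfl fun j _ => prod_congr rfl fun i _ => ?_
    congr 1
    push_cast
    ring
  rw [h2] at h1
  have h3 : (#S : ℝ) ≤ ∑ k ∈ Ico a (a + N), ∏ i, T (k * x i - p i) := by
    calc (#S : ℝ) = ∑ k ∈ S, (1 : ℝ) := by rw [sum_const, nsmul_eq_mul, mul_one]
      _ ≤ ∑ k ∈ S, ∏ i, T (k * x i - p i) := by
          refine sum_le_sum fun k hk => ?_
          have h6 : ∀ i ∈ (univ : Finset κ), (1 : ℝ) ≤ T (k * x i - p i) := by
            intro i _
            refine hT _ ⟨k * x i - p i, hSx k hk i, ?_⟩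
            rw [sub_self, abs_zero]
            exact hρ.le
          calc (1 : ℝ) = ∏ i : κ, (1 : ℝ) := prod_const_one.symm
            _ ≤ ∏ i, T (k * x i - p i) := prod_le_prod (fun _ _ => zero_le_one) h6
      _ ≤ ∑ k ∈ Ico a (a + N), ∏ i, T (k * x i - p i) := sum_le_sum_of_subset_of_nonneg hS fun k _ _ => prod_nonneg fun i _ => hTM.nonneg _
  refine h3.trans (h1.trans ?_)
  have h4 : c₀ ^ Fintype.card κ ≤ (3 * lam) ^ Fintype.card κ := pow_le_pow_left₀ hTM.pos.le (by linarith) _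
  have h5 : c₀ ^ Fintype.card κ * N ≤ (3 * lam) ^ Fintype.card κ * N := mul_le_mul_of_nonneg_right h4 (Nat.cast_nonneg _)
  linarith

open scoped Classical in
/-- pigeonhole into cells of sides `1 / R i` -/
theorem pig_cell {κ : Type} [Fintype κ] (R : κ → ℕ) (hR : ∀ i, 1 ≤ R i) (S : Finset ℕ) (hS : S.Nonempty) (g : ℕ → κ → ℝ)
    (hg : ∀ k ∈ S, ∀ i, 0 ≤ g k i ∧ g k i < 1) : ∃ k₀ ∈ S, #S ≤ (∏ i, R i) * #(S.filter (fun k => ∀ i, |g k i - g k₀ i| ≤ 1 / R i)) := by
  set f : ℕ → κ → ℕ := fun k i => ⌊R i * g k i⌋₊ with hf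
  set U : Finset (κ → ℕ) := Fintype.piFinset (fun i => range (R i)) with hU
  have hmap : ∀ k ∈ S, f k ∈ U := by
    intro k hk
    rw [hU, Fintype.mem_piFinset]
    intro i
    rw [mem_range]
    have h1 := hg k hk i
    have h2 : (0 : ℝ) < R i := by exact_mod_cast hR i
    rw [hf]
    refine (Nat.floor_lt (by have := h1.1; positivity)).2 ?_
    nlinarith [h1.2]
  have hUc : #U = ∏ i, R i := by
    rw [hU, Fintype.card_piFinset]
    simp
  obtain ⟨u, hu, hle⟩ : ∃ u ∈ U, #S ≤ #U * #(S.filter (fun k => f k = u)) := by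
    by_contra hcon
    push Not at hcon
    have hUn : U.Nonempty := by
      obtain ⟨k, hk⟩ := hS
      exact ⟨f k, hmap k hk⟩
    have h1 : #S = ∑ u ∈ U, #(S.filter (fun k => f k = u)) := card_eq_sum_card_fiberwise hmap
    have h2 : ∑ u ∈ U, #U * #(S.filter (fun k => f k = u)) < ∑ u ∈ U, #S := sum_lt_sum_of_nonempty hUn hcon
    rw [← mul_sum, ← h1, sum_const, smul_eq_mul] at h2
    exact lt_irrefl _ h2
  have hne : (S.filter (fun k => f k = u)).Nonempty := by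
    rw [nonempty_iff_ne_empty]
    intro h
    rw [h, card_empty, mul_zero, Nat.le_zero, card_eq_zero] at hle
    exact hS.ne_empty hle
  obtain ⟨k₀, hk₀⟩ := hne
  rw [mem_filter] at hk₀
  refine ⟨k₀, hk₀.1, ?_⟩
  rw [← hUc]
  refine hle.trans (Nat.mul_le_mul_left _ (card_le_card ?_))
  intro k hk
  rw [mem_filter] at hk ⊢
  refine ⟨hk.1, fun i => ?_⟩
  have h1 : f k i = f k₀ i := by rw [hk.2, hk₀.2]
  have h2 : (0 : ℝ) < R i := by exact_mod_cast hR i
  have a1 := Nat.floor_le (show (0 : ℝ) ≤ R i * g k i by have := (hg k hk.1 i).1; positivity)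
  have a2 := Nat.lt_floor_add_one ((R i : ℝ) * g k i)
  have b1 := Nat.floor_le (show (0 : ℝ) ≤ R i * g k₀ i by have := (hg k₀ hk₀.1 i).1; positivity)
  have b2 := Nat.lt_floor_add_one ((R i : ℝ) * g k₀ i)
  have h3 : ((⌊(R i : ℝ) * g k i⌋₊ : ℕ) : ℝ) = ((⌊(R i : ℝ) * g k₀ i⌋₊ : ℕ) : ℝ) := by exact_mod_cast h1
  rw [le_div_iff₀ h2]
  have h4 : |(g k i - g k₀ i) * R i| ≤ 1 := by
    rw [abs_le]
    constructor <;> nlinarith
  rwa [abs_mul, abs_of_pos h2] at h4

end Pool.Agent.Lib.MP_3e612f_nt.NF
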