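import Pool.Agent.Lib.MP_3e612f_nt.NF.Q.Per
import Pool.Agent.Lib.MP_3e612f_nt.NF.Q.Net

/-! Equicontinuity in the vertical direction (paper: Q-Fej). -/

set_option autoImplicit false

namespace Pool.Agent.Lib.MP_3e612f_nt.NF

open Finset
open Pool.Agent.Lib.MP_3e612f_nt.MR (mu ex)

open scoped Classical in
/-- `u s = e k (s E_j)`. For `x = r h γ` (`dec` for the data of depth `k + 1`) `A (y x) = A (y r)` for all `y` (`Adm.dec`), so it is enough to consider `x = r ∈ D`, `D` compact: the function `(s, r) ↦ A (u s * r) - A r` is continuous and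
vanishes for `s = 0` (`vert_zero`): tube lemma (`IsCompact.eventually_forall_of_forall_eventually`). -/
theorem equi {G : Type} [Group G] [TopologicalSpace G] [IsTopologicalGroup G] {Γ : Subgroup G} {k : ℕ} (M : Mal G Γ (k + 1)) {A : G → ℂ} (hA : Adm Γ (k + 1) A)
    (j : M.I k) (δ : ℝ) (hδ : 0 < δ) : ∃ δ' : ℝ, 0 < δ' ∧ ∀ (s : ℝ) (x : G), |s| ≤ δ' → ‖A (M.e k (Pi.single j s) * x) - A x‖ ≤ δ := by
  have hec : Continuous (M.e k) := M.e_cont k (Nat.lt_succ_self k)
  have hsc : Continuous (fun s : ℝ => (Pi.single j s : M.I k → ℝ)) := by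
    refine continuous_pi fun i => ?_
    by_cases hij : i = j
    · subst hij
      simpa only [Pi.single_eq_same] using continuous_id'
    · simpa only [Pi.single_eq_of_ne hij] using continuous_const
  have h1 := near_unif M (X := ℝ) (fun s y => A (M.e k (Pi.single j s) * y))
    (hA.cont.comp (((hec.comp hsc).comp continuous_fst).mul continuous_snd))
    (fun s => ⟨hA.cont.comp (continuous_const.mul continuous_id),
      fun x γ hγ => by
        show A (M.e k (Pi.single j s) * (x * γ)) = A (M.e k (Pi.single j s) * x)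
        rw [← mul_assoc, hA.right _ γ hγ],
      fun x h hh => by
        show A (M.e k (Pi.single j s) * (h * x)) = A (M.e k (Pi.single j s) * x)
        rw [← mul_assoc, hA.mid _ hh x]⟩) 0 δ hδ
  obtain ⟨ε, hε, h2⟩ := Metric.eventually_nhds_iff.1 h1
  refine ⟨ε / 2, half_pos hε, fun s x hs => ?_⟩
  have h3 : dist s 0 < ε := by
    rw [Real.dist_eq, sub_zero]
    linarith
  have h4 : ‖A (M.e k (Pi.single j s) * x) - A (M.e k (Pi.single j (0 : ℝ)) * x)‖ ≤ δ := h2 h3 x
  have h5 : (Pi.single j (0 : ℝ) : M.I k → ℝ) = 0 := Pi.single_zero j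
  rw [h5, vert_zero M hA x] at h4
  exact h4

end Pool.Agent.Lib.MP_3e612f_nt.NF
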