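import Pool.Agent.Lib.MP_3e612f_nt.NF.Q.Coef
import Pool.Agent.Lib.MP_3e612f_nt.NF.Q.Ker
import Pool.Agent.Lib.MP_3e612f_nt.NF.Q.Equi

/-! Vertical Fejer approximation in one direction (paper: Q-Fej). -/

set_option autoImplicit false

namespace Pool.Agent.Lib.MP_3e612f_nt.NF

open Finset
open Pool.Agent.Lib.MP_3e612f_nt.MR (mu ex)

/-- sums over `[-L, L]` -/
private theorem fej_reindex (L : ℕ) (f : ℤ → ℂ) : ∑ l ∈ Icc (-(L : ℤ)) L, f l = ∑ i ∈ range (2 * L + 1), f ((i : ℤ) - L) := by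
  symm
  refine Finset.sum_nbij' (fun i : ℕ => (i : ℤ) - L) (fun l : ℤ => (l + L).toNat) ?_ ?_ ?_ ?_ ?_
  · intro i hi
    rw [mem_range] at hi
    rw [mem_Icc]
    constructor <;> omega
  · intro l hl
    rw [mem_Icc] at hl
    rw [mem_range]
    omega
  · intro i hi
    simp
  · intro l hl
    rw [mem_Icc] at hl
    have h : ((l + L).toNat : ℤ) = l + L := Int.toNat_of_nonneg (by omega)
    change ((l + L).toNat : ℤ) - L = l
    rw [h]
    ring
  · intro i hi
    rfl

/-- `‖A‖ ≤ C`, `C > 0` (`Adm.bdd`); `equi` with `δ C`, `2 δ C ≤ ε`, gives `δ'`; `kernel δ δ'` applied to `φ s = A (u_s x) / C`, for every `x`: `A x = C φ 0` (`vert_zero`) is within `ε` of `∑_{|l| ≤ L} c_l vco A j l x`; put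
`As i = c_l * vco M A j l` with `l = i - L`, `n = 2L + 1` (`vco_adm`, `vco_char`, `vco_keep`, `CharAt.smul`, `Adm.smul`). -/
theorem fej_step {G : Type} [Group G] [TopologicalSpace G] [IsTopologicalGroup G] {Γ : Subgroup G} {k : ℕ} (M : Mal G Γ (k + 1)) {A : G → ℂ} (hA : Adm Γ (k + 1) A)
    (T : Set (M.I k)) (hT : ∀ i ∈ T, CharAt M A i) (j : M.I k) (ε : ℝ) (hε : 0 < ε) :
    ∃ (n : ℕ) (As : ℕ → G → ℂ), (∀ i < n, Adm Γ (k + 1) (As i) ∧ CharAt M (As i) j ∧ ∀ i' ∈ T, CharAt M (As i) i') ∧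
      ∀ x, ‖A x - ∑ i ∈ range n, As i x‖ ≤ ε := by
  classical
  obtain ⟨C, hC, hb⟩ := Adm.bdd M hA
  have hδ : 0 < ε / (2 * C) := by positivity
  obtain ⟨δ', hδ', heq⟩ := equi M hA j (ε / (2 * C) * C) (by positivity)
  obtain ⟨L, c, hker⟩ := kernel (ε / (2 * C)) δ' hδ hδ'
  refine ⟨2 * L + 1, fun i x => c ((i : ℤ) - L) * vco M A j ((i : ℤ) - L) x, fun i _ => ⟨Adm.smul _ (vco_adm M hA j _),
    CharAt.smul M _ j (vco_char M hA j _), fun i' hi' => CharAt.smul M _ i' (vco_keep M hA i' j _ (hT i' hi'))⟩, fun x => ?_⟩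
  have h0 : ∀ y, A (M.e k (Pi.single j 0) * y) = A y := by
    intro y
    rw [Pi.single_zero]
    exact vert_zero M hA y
  have hk := hker (fun s => A (M.e k (Pi.single j s) * x) / C) ?_ ?_ ?_ ?_
  · have e1 : ∀ l : ℤ, ∫ s in (0 : ℝ)..1, A (M.e k (Pi.single j s) * x) / C * ex (-(l * s)) = vco M A j l x / C := by
      intro l
      rw [vco, ← intervalIntegral.integral_div]
      refine intervalIntegral.integral_congr fun s _ => ?_
      exact div_mul_eq_mul_div _ _ _
    have e2 : ∑ l ∈ Icc (-(L : ℤ)) L, c l * (∫ s in (0 : ℝ)..1, A (M.e k (Pi.single j s) * x) / C * ex (-(l * s))) =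
        (∑ i ∈ range (2 * L + 1), c ((i : ℤ) - L) * vco M A j ((i : ℤ) - L) x) / C := by
      rw [fej_reindex L (fun l => c l * (∫ s in (0 : ℝ)..1, A (M.e k (Pi.single j s) * x) / C * ex (-(l * s)))), sum_div]
      refine sum_congr rfl fun i _ => ?_
      rw [e1, mul_div_assoc]
    rw [e2, h0, ← sub_div, norm_div, Complex.norm_real, Real.norm_of_nonneg hC.le, div_le_iff₀ hC] at hk
    rw [norm_sub_rev]
    refine hk.trans (le_of_eq ?_)
    field_simp
  · have h2 : Continuous fun s : ℝ => (Pi.single j s : M.I k → ℝ) := by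
      refine continuous_pi fun i => ?_
      by_cases h : i = j
      · subst h
        simp only [Pi.single_eq_same]
        exact continuous_id
      · simp only [Pi.single_eq_of_ne h]
        exact continuous_const
    have h1 : Continuous fun s : ℝ => M.e k (Pi.single j s) := (M.e_cont k (Nat.lt_succ_self k)).comp h2
    exact (hA.cont.comp (h1.mul continuous_const)).div_const _
  · intro s
    have h1 : (Pi.single j (s + 1) : M.I k → ℝ) = (fun i => (((Pi.single j 1 : M.I k → ℤ) i : ℤ) : ℝ)) + Pi.single j s := by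
      funext i
      rw [Pi.add_apply, Pi.single_apply, Pi.single_apply, Pi.single_apply]
      split_ifs
      · push_cast
        ring
      · simp
    change A (M.e k (Pi.single j (s + 1)) * x) / C = _
    rw [h1, ← vert_add M hA, vert_per M hA]
  · intro s
    rw [norm_div, Complex.norm_real, Real.norm_of_nonneg hC.le, div_le_one hC]
    exact hb _
  · intro s hs
    change ‖A (M.e k (Pi.single j s) * x) / C - A (M.e k (Pi.single j 0) * x) / C‖ ≤ _
    rw [h0, ← sub_div, norm_div, Complex.norm_real, Real.norm_of_nonneg hC.le, div_le_iff₀ hC]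
    exact heq s x hs

end Pool.Agent.Lib.MP_3e612f_nt.NF
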