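import Pool.Agent.Lib.MP_3e612f_nt.NF.Q.FejStep
import Pool.Agent.Lib.MP_3e612f_nt.NF.Q.Lin

/-! Reduction to functions with a vertical character (paper: Q-Fej). -/

set_option autoImplicit false

namespace Pool.Agent.Lib.MP_3e612f_nt.NF

open Finset
open Pool.Agent.Lib.MP_3e612f_nt.MR (mu ex)

/-- Induction on the number of directions in which `A` has no character yet: for every finite set `U` of directions, if `A` has characters in all directions outside `U` then `∃ c, QP A c`. `U = ∅`: hypothesis. `U = insert j U'`: by `fej_step` (`T` = complement of `U`) `A` is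
a uniform limit of finite sums of functions with characters outside `U'`: `QP.sum`, `QP.limit`. -/
theorem reduce_char {G : Type} [Group G] [TopologicalSpace G] [IsTopologicalGroup G] {Γ : Subgroup G} {k : ℕ} (M : Mal G Γ (k + 1))
    (h : ∀ A : G → ℂ, Adm Γ (k + 1) A → (∀ j, CharAt M A j) → ∃ c, QP (M.p 0) A c) (F : G → ℂ) (hF : Adm Γ (k + 1) F) : ∃ c, QP (M.p 0) F c := by
  classical
  have key : ∀ (U : Finset (M.I k)) (A : G → ℂ), Adm Γ (k + 1) A → (∀ j, j ∉ U → CharAt M A j) →
      ∃ c, QP (M.p 0) A c := by
    intro U
    induction U using Finset.induction_on with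
    | empty =>
      intro A hA hc
      exact h A hA fun j => hc j (Finset.notMem_empty j)
    | insert j U hj ih =>
      intro A hA hc
      refine QP.limit (exists_generic M (Nat.succ_pos k)) fun ε hε => ?_
      obtain ⟨n, As, h1, h2⟩ := fej_step M hA {i | i ∉ insert j U} (fun i hi => hc i hi) j ε hε
      obtain ⟨c, hc'⟩ := QP.sum (P := M.p 0) n As fun i hi => ih (As i) (h1 i hi).1 fun i' hi' => by
        by_cases h3 : i' = j
        · rw [h3]
          exact (h1 i hi).2.1
        · refine (h1 i hi).2.2 i' ?_
          change i' ∉ insert j U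
          rw [Finset.mem_insert, not_or]
          exact ⟨h3, hi'⟩
      exact ⟨_, c, hc', h2⟩
  exact key Finset.univ F hF fun j hj => absurd (Finset.mem_univ j) hj

end Pool.Agent.Lib.MP_3e612f_nt.NF
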