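import Pool.Agent.Lib.MP_3e612f_nt.NF.Q.Coef

/-! The full vertical character (paper: Q-Fej). -/

set_option autoImplicit false

namespace Pool.Agent.Lib.MP_3e612f_nt.NF

open Finset
open Pool.Agent.Lib.MP_3e612f_nt.MR (mu ex)

/-- `A (z x) = A (e_k(p_k z) x)` (`vert_eq`), and `e_k(∑ t_j E_j)` acts as the product of the `e_k(t_j E_j)` (`vert_add`, induction over a finite set of directions). -/
theorem full_char {G : Type} [Group G] [TopologicalSpace G] {Γ : Subgroup G} {k : ℕ} (M : Mal G Γ (k + 1)) {A : G → ℂ} (hA : Adm Γ (k + 1) A)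
    (h : ∀ j, CharAt M A j) : ∃ ξ : M.I k → ℤ, ∀ z ∈ LL G k, ∀ x, A (z * x) = ex (dot ξ (M.p k z)) * A x := by
  classical
  choose ξ hξ using h
  refine ⟨ξ, fun z hz x => ?_⟩
  have key : ∀ (t : M.I k → ℝ) (U : Finset (M.I k)) (x : G),
      A (M.e k (∑ j ∈ U, Pi.single j (t j)) * x) = ex (∑ j ∈ U, (ξ j : ℝ) * t j) * A x := by
    intro t U
    induction U using Finset.induction_on with
    | empty =>
      intro x
      rw [sum_empty, sum_empty, ex_zero, one_mul]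
      exact vert_zero M hA x
    | insert j U hj ih =>
      intro x
      rw [sum_insert hj, sum_insert hj, ← vert_add M hA, ex_add, mul_assoc, ← ih x]
      have h1 := hξ j (t j) (M.e k (∑ j ∈ U, Pi.single j (t j)) * x)
      convert h1 using 4
  have h1 : M.p k z = M.p k (M.e k (M.p k z)) := (M.p_e k (Nat.lt_succ_self k) _).symm
  rw [vert_eq M hA hz (M.e_mem k (Nat.lt_succ_self k) _) h1 x]
  have h2 := key (M.p k z) univ x
  rw [Finset.univ_sum_single] at h2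
  exact h2

/-- `ξ = 0`: `A` is left `LL G k`-invariant. -/
theorem adm_of_char_zero {G : Type} [Group G] [TopologicalSpace G] {Γ : Subgroup G} {k : ℕ} (M : Mal G Γ (k + 1)) {A : G → ℂ} (hA : Adm Γ (k + 1) A)
    (h : ∀ z ∈ LL G k, ∀ x, A (z * x) = ex (dot (0 : M.I k → ℤ) (M.p k z)) * A x) : Adm Γ k A := by
  refine ⟨hA.cont, hA.right, fun x z hz => ?_⟩
  have h1 : dot (0 : M.I k → ℤ) (M.p k z) = 0 := by
    unfold dot
    exact sum_eq_zero fun i _ => by simp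
  rw [h z hz x, h1, ex_zero, one_mul]

/-- Depth 1 (paper: Q-Geo): `A (g^j a) = e(j ξ.p_0(g)) A a`, `geom_le`, `A` bounded by `C`: `κ J ≤ C/(2 dZ(ξ.p_0 g))`; `B ≥ |ξ_i|`, `B ≥ C/κ`. -/
theorem geo_case {G : Type} [Group G] [TopologicalSpace G] [IsTopologicalGroup G] {Γ : Subgroup G} (M : Mal G Γ 1) {A : G → ℂ} (hA : Adm Γ 1 A) (ξ : M.I 0 → ℤ)
    (hξ : ξ ≠ 0) (h : ∀ z ∈ LL G 0, ∀ x, A (z * x) = ex (dot ξ (M.p 0 z)) * A x) : QP (M.p 0) A 0 := by
  obtain ⟨C, hC, hb⟩ := hA.bdd M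
  intro κ hκ
  refine ⟨⌈C / κ⌉₊ + ∑ i, (ξ i).natAbs, fun J g a hJ hsum => ⟨ξ, hξ, fun i => ?_, ?_⟩⟩
  · have h1 : (ξ i).natAbs ≤ ∑ i, (ξ i).natAbs :=
      single_le_sum (f := fun i => (ξ i).natAbs) (fun _ _ => Nat.zero_le _) (mem_univ i)
    rw [Int.abs_eq_natAbs]
    exact_mod_cast h1.trans (Nat.le_add_left _ _)
  · have hJ' : (0 : ℝ) < J := by exact_mod_cast hJ
    have e1 : ∀ j ∈ range J, A (g ^ j * a) - 0 = ex (j * dot ξ (M.p 0 g) + 0) * A a := by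
      intro j _
      rw [sub_zero, h _ (LL_zero _), M.p0_pow Nat.one_pos, dot_smul, add_zero]
    rw [sum_congr rfl e1, ← sum_mul, norm_mul] at hsum
    have h2 := geom_le (dot ξ (M.p 0 g)) 0 J
    have h3 : 0 ≤ dZ (dot ξ (M.p 0 g)) := dZ_nonneg _
    set S := ‖∑ j ∈ range J, ex (j * dot ξ (M.p 0 g) + 0)‖ with hS
    have hS0 : 0 ≤ S := norm_nonneg _
    have h4 : κ * J ≤ S * C := hsum.trans (mul_le_mul_of_nonneg_left (hb a) hS0)
    have h5 : κ * J * dZ (dot ξ (M.p 0 g)) ≤ C := by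
      have h6 : κ * J * dZ (dot ξ (M.p 0 g)) ≤ S * C * dZ (dot ξ (M.p 0 g)) :=
        mul_le_mul_of_nonneg_right h4 h3
      have h7 : S * C * dZ (dot ξ (M.p 0 g)) ≤ C := by
        have h8 : S * dZ (dot ξ (M.p 0 g)) ≤ 1 := by nlinarith [mul_nonneg hS0 h3]
        calc S * C * dZ (dot ξ (M.p 0 g)) = C * (S * dZ (dot ξ (M.p 0 g))) := by ring
          _ ≤ C * 1 := mul_le_mul_of_nonneg_left h8 hC.le
          _ = C := mul_one C
      exact h6.trans h7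
    rw [le_div_iff₀ hJ']
    have h9 : dZ (dot ξ (M.p 0 g)) * J ≤ C / κ := by
      rw [le_div_iff₀ hκ]
      calc dZ (dot ξ (M.p 0 g)) * J * κ = κ * J * dZ (dot ξ (M.p 0 g)) := by ring
        _ ≤ C := h5
    refine h9.trans ((Nat.le_ceil _).trans ?_)
    push_cast
    have h10 : (0 : ℝ) ≤ ∑ i, (((ξ i).natAbs : ℕ) : ℝ) := sum_nonneg fun i _ => Nat.cast_nonneg _
    linarith

end Pool.Agent.Lib.MP_3e612f_nt.NF
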