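import Pool.Agent.Lib.MP_3e612f_nt.NF.Q.StepB
import Pool.Agent.Lib.MP_3e612f_nt.NF.Q.Vert
import Pool.Agent.Lib.MP_3e612f_nt.NF.Q.Xi

/-! Quantitative equidistribution of linear orbits (paper: Q-Thm). -/

set_option autoImplicit false

namespace Pool.Agent.Lib.MP_3e612f_nt.NF

open Finset
open Pool.Agent.Lib.MP_3e612f_nt.MR (mu ex)

private theorem main_const {G : Type} [Group G] [TopologicalSpace G] {Γ : Subgroup G} {ι : Type}
    [Fintype ι] (P : G → ι → ℝ) {F : G → ℂ} (hF : Adm Γ 0 F) : QP P F (F 1) := by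
  have hconst : ∀ x, F x = F 1 := fun x => by
    have := hF.left 1 x (LL_zero x)
    rwa [mul_one] at this
  intro κ hκ
  refine ⟨0, fun J g a hJ h => ?_⟩
  have hJ' : (0 : ℝ) < J := by exact_mod_cast hJ
  have h0 : ∑ j ∈ range J, (F (g ^ j * a) - F 1) = 0 :=
    sum_eq_zero fun j _ => by rw [hconst (g ^ j * a), sub_self]
  rw [h0, norm_zero] at h
  exact absurd (mul_pos hκ hJ') (not_lt.2 h)

/-- Q-Thm. Induction on `k` for all groups. `k = 0`: `F` is left invariant under `LL G 0 = G`, so `F x = F 1` for all `x`: `c = F 1`. `k + 1`: `reduce_char`; `full_char`; `ξ = 0`: `adm_of_char_zero` and the induction hypothesis for `M.trunc` if `k ≥ 1`, and if `k = 0` `A` is constant; `ξ ≠ 0`: `geo_case` if `k = 0`,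
`step_b'` with the induction hypothesis for `M.sq` if `k ≥ 1`. -/
theorem leib (k : ℕ) : ∀ (G : Type) [Group G] [TopologicalSpace G] [IsTopologicalGroup G] (Γ : Subgroup G) (M : Mal G Γ k) (F : G → ℂ), Adm Γ k F →
    ∃ c, QP (M.p 0) F c := by
  induction k with
  | zero =>
    intro G _ _ _ Γ M F hF
    exact ⟨F 1, main_const (M.p 0) hF⟩
  | succ k ih =>
    intro G _ _ _ Γ M F hF
    refine reduce_char M (fun A hA hch => ?_) F hF
    obtain ⟨ξ, hξ⟩ := full_char M hA hch
    by_cases h0 : ξ = 0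
    · subst h0
      exact ih G Γ M.trunc A (adm_of_char_zero M hA hξ)
    · rcases k with _ | k
      · exact ⟨0, geo_case M hA ξ h0 hξ⟩
      · exact ⟨0, step_b' M (Nat.succ_le_succ (Nat.zero_le k)) hA ξ h0 hξ
          fun A hA => ih (Sq G) (SqG Γ) M.sq A hA⟩

end Pool.Agent.Lib.MP_3e612f_nt.NF
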