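import Pool.Agent.Lib.MP_3e612f_nt.NF.Q.Three

/-! The commutator form (paper: Q-Rel). -/

set_option autoImplicit false

namespace Pool.Agent.Lib.MP_3e612f_nt.NF

open Finset
open scoped commutatorElement

variable {G : Type} [Group G] [TopologicalSpace G] [IsTopologicalGroup G] {Γ : Subgroup G} {k : ℕ} (M : Mal G Γ k)

/-- `[x x', y] = x [x', y] x⁻¹ [x, y]`, `p 1` is additive and conjugation invariant on `LL G 1`. -/
theorem p1_comm_mul_left (hk : 2 ≤ k) (x x' y : G) : M.p 1 ⁅x * x', y⁆ = M.p 1 ⁅x, y⁆ + M.p 1 ⁅x', y⁆ := by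
  have h1 : ⁅x * x', y⁆ = (x * ⁅x', y⁆ * x⁻¹) * ⁅x, y⁆ := by
    simp only [commutatorElement_def]
    group
  have h2 : ⁅x', y⁆ ∈ LL G 1 := LL_comm (LL_zero x') y
  have h3 : ⁅x, y⁆ ∈ LL G 1 := LL_comm (LL_zero x) y
  rw [h1, M.p_mul 1 (by omega) _ (LL_conj h2 x) _ h3, M.p_conj (by omega) h2 x, add_comm]

theorem p1_comm_mul_right (hk : 2 ≤ k) (x y y' : G) : M.p 1 ⁅x, y * y'⁆ = M.p 1 ⁅x, y⁆ + M.p 1 ⁅x, y'⁆ := by
  have h1 : ⁅x, y * y'⁆ = ⁅x, y⁆ * (y * ⁅x, y'⁆ * y⁻¹) := by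
    simp only [commutatorElement_def]
    group
  have h2 : ⁅x, y'⁆ ∈ LL G 1 := LL_comm (LL_zero x) y'
  have h3 : ⁅x, y⁆ ∈ LL G 1 := LL_comm (LL_zero x) y
  rw [h1, M.p_mul 1 (by omega) _ h3 _ (LL_conj h2 y), M.p_conj (by omega) h2 y]

/-- `p 1 [x, y]` depends only on `p 0 x`, `p 0 y` (`[LL 1, G] ≤ LL 2`). -/
theorem p1_comm_congr (hk : 2 ≤ k) {x x' y y' : G} (hx : M.p 0 x = M.p 0 x') (hy : M.p 0 y = M.p 0 y') : M.p 1 ⁅x, y⁆ = M.p 1 ⁅x', y'⁆ := by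
  have h1 : x * x'⁻¹ ∈ LL G 1 := (M.p_eq_iff (by omega) (LL_zero x) (LL_zero x')).1 hx
  have h2 : y * y'⁻¹ ∈ LL G 1 := (M.p_eq_iff (by omega) (LL_zero y) (LL_zero y')).1 hy
  have h3 : M.p 1 ⁅x, y⁆ = M.p 1 ⁅x', y⁆ := by
    have h4 : x = (x * x'⁻¹) * x' := by group
    rw [h4, p1_comm_mul_left M hk, M.p_next (by omega) (LL_comm h1 y), zero_add]
  have h5 : M.p 1 ⁅x', y⁆ = M.p 1 ⁅x', y'⁆ := by
    have h4 : y = (y * y'⁻¹) * y' := by group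
    rw [h4, p1_comm_mul_right M hk, M.p_next (by omega) (LL_comm' h2 x'), zero_add]
  rw [h3, h5]

end Pool.Agent.Lib.MP_3e612f_nt.NF
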