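import Pool.Agent.Lib.MP_3e612f_nt.NF.Q.Alg

/-! Mal'cev data for the product (paper: Q-Prod). -/

set_option autoImplicit false

namespace Pool.Agent.Lib.MP_3e612f_nt.NF

open Finset
open Pool.Agent.Lib.MP_3e612f_nt.MR (mu ex)

variable {G : Type} [Group G] [TopologicalSpace G] {Γ : Subgroup G} {k : ℕ} (M : Mal G Γ k)

/-- `Subgroup.top_lowerCentralSeries_prod` -/
theorem mem_LL_prod (i : ℕ) (x : G × G) : x ∈ LL (G × G) i ↔ x.1 ∈ LL G i ∧ x.2 ∈ LL G i := by
  have h : LL (G × G) i = (LL G i).prod (LL G i) := Subgroup.top_lowerCentralSeries_prod i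
  rw [h, Subgroup.mem_prod]

/-- Mal'cev data for `G × G` -/
noncomputable def Mal.prod : Mal (G × G) (Γ.prod Γ) k where
  I := fun i => M.I i ⊕ M.I i
  fin := fun i => inferInstance
  p := fun i x => Sum.elim (M.p i x.1) (M.p i x.2)
  e := fun i t => (M.e i (fun j => t (Sum.inl j)), M.e i (fun j => t (Sum.inr j)))
  p_cont := by
    intro i hi
    rw [continuousOn_pi]
    rintro (j | j)
    · have h1 : ContinuousOn (fun x : G × G => M.p i x.1) (LL (G × G) i : Set (G × G)) :=
        (M.p_cont i hi).comp continuousOn_fst fun x hx => ((mem_LL_prod i x).1 hx).1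
      exact continuousOn_pi.1 h1 j
    · have h1 : ContinuousOn (fun x : G × G => M.p i x.2) (LL (G × G) i : Set (G × G)) :=
        (M.p_cont i hi).comp continuousOn_snd fun x hx => ((mem_LL_prod i x).1 hx).2
      exact continuousOn_pi.1 h1 j
  p_mul := by
    intro i hi x hx y hy
    rw [mem_LL_prod] at hx hy
    funext j
    rcases j with j | j
    · exact congrFun (M.p_mul i hi x.1 hx.1 y.1 hy.1) j
    · exact congrFun (M.p_mul i hi x.2 hx.2 y.2 hy.2) j
  p_ker := by
    intro i hi x hx
    rw [mem_LL_prod] at hx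
    rw [mem_LL_prod, ← M.p_ker i hi x.1 hx.1, ← M.p_ker i hi x.2 hx.2]
    constructor
    · intro h
      exact ⟨funext fun j => congrFun h (Sum.inl j), funext fun j => congrFun h (Sum.inr j)⟩
    · rintro ⟨h1, h2⟩
      funext j
      rcases j with j | j
      · exact congrFun h1 j
      · exact congrFun h2 j
  e_cont := by
    intro i hi
    refine Continuous.prodMk ((M.e_cont i hi).comp ?_) ((M.e_cont i hi).comp ?_)
    · exact continuous_pi fun j => continuous_apply (Sum.inl j)
    · exact continuous_pi fun j => continuous_apply (Sum.inr j)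
  e_mem := by
    intro i hi t
    rw [mem_LL_prod]
    exact ⟨M.e_mem i hi _, M.e_mem i hi _⟩
  p_e := by
    intro i hi t
    funext j
    rcases j with j | j
    · exact congrFun (M.p_e i hi fun j => t (Sum.inl j)) j
    · exact congrFun (M.p_e i hi fun j => t (Sum.inr j)) j
  p_int := by
    intro i hi x hx hxi j
    rw [mem_LL_prod] at hxi
    rw [Subgroup.mem_prod] at hx
    rcases j with j | j
    · exact M.p_int i hi x.1 hx.1 hxi.1 j
    · exact M.p_int i hi x.2 hx.2 hxi.2 j
  int_p := by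
    intro i hi z
    obtain ⟨γ₁, h1, h2, h3⟩ := M.int_p i hi fun j => z (Sum.inl j)
    obtain ⟨γ₂, h1', h2', h3'⟩ := M.int_p i hi fun j => z (Sum.inr j)
    refine ⟨(γ₁, γ₂), Subgroup.mem_prod.2 ⟨h1, h1'⟩, (mem_LL_prod i _).2 ⟨h2, h2'⟩, ?_⟩
    rintro (j | j)
    · exact h3 j
    · exact h3' j

end Pool.Agent.Lib.MP_3e612f_nt.NF
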