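import Pool.Agent.Lib.MP_3e612f_nt.NF.Q.Main
import Pool.Agent.Lib.MP_3e612f_nt.NF.Q.Prod

/-! Pairs of orbits (paper: Q-Prod, Q-pair). -/

set_option autoImplicit false

namespace Pool.Agent.Lib.MP_3e612f_nt.NF

open Finset
open Pool.Agent.Lib.MP_3e612f_nt.MR (mu ex)

/-- `Φ(x,y) = (F x - c) conj (F y - c)` is admissible for `G × G`; -/
theorem prod_adm {G : Type} [Group G] [TopologicalSpace G] [IsTopologicalGroup G] {Γ : Subgroup G} {k : ℕ} {F : G → ℂ} (hF : Adm Γ k F) (c : ℂ) :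
    Adm (Γ.prod Γ) k (fun x : G × G => (F x.1 - c) * (starRingEnd ℂ) (F x.2 - c)) := by
  refine ⟨?_, ?_, ?_⟩
  · exact ((hF.cont.comp continuous_fst).sub continuous_const).mul
      (Complex.continuous_conj.comp ((hF.cont.comp continuous_snd).sub continuous_const))
  · rintro ⟨x, y⟩ ⟨γ, γ'⟩ hγ
    have h := Subgroup.mem_prod.1 hγ
    simp only [Prod.mk_mul_mk]
    rw [hF.right x γ h.1, hF.right y γ' h.2]
  · rintro ⟨x, y⟩ ⟨a, b⟩ hab
    have h := (mem_LL_prod k (a, b)).1 hab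
    simp only [Prod.mk_mul_mk]
    rw [hF.left x a h.1, hF.left y b h.2]

/-- one half of a vector without relations has no relation -/
theorem noRel_left {ι κ : Type} [Fintype ι] [Fintype κ] {x : ι → ℝ} {y : κ → ℝ} (h : NoRel (Sum.elim x y)) : NoRel x := by
  intro m hm z hz
  refine h (Sum.elim m 0) ?_ z ?_
  · intro h0
    apply hm
    funext i
    exact congrFun h0 (Sum.inl i)
  · have h1 : dot (Sum.elim m (0 : κ → ℤ)) (Sum.elim x y) = dot m x + dot (0 : κ → ℤ) y := dot_sumElim _ x y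
    rw [h1, hz]
    unfold dot
    simp

/-- its constant is 0 if `c` is that of `F` (`k ≥ 1`): generic `(g, g') ∈ G × G` (`exists_generic M.prod`; then `NoRel (p 0 g)` too); `c' ≈ (1/J) ∑_{j<J} F'(g^j a) conj F'(g'^j a')` uniformly in `(a, a')` (`QP.mean`); average over `a = g^i a₀`, `i < I`: the inner mean
`(1/I) ∑_i F'(g^i (g^j a₀))` is at most `ε` in absolute value for `I` large, uniformly in `j` (`QP.mean` for `F`), so `|c'| ≤ ε + ε C`. -/
theorem prod_const {G : Type} [Group G] [TopologicalSpace G] [IsTopologicalGroup G] {Γ : Subgroup G} {k : ℕ} (M : Mal G Γ k) (hk : 0 < k) {F : G → ℂ} (hF : Adm Γ k F) (c : ℂ)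
    (hc : QP (M.p 0) F c) (c' : ℂ) (hc' : QP (M.prod.p 0) (fun x : G × G => (F x.1 - c) * (starRingEnd ℂ) (F x.2 - c)) c') : c' = 0 := by
  obtain ⟨C₀, hC₀, hC₀'⟩ := hF.bdd M
  obtain ⟨g, hg⟩ := exists_generic M.prod hk
  have hg1 : NoRel (M.p 0 g.1) := noRel_left (y := M.p 0 g.2) hg
  obtain ⟨C, hCdef⟩ : ∃ C : ℝ, C = C₀ + ‖c‖ := ⟨_, rfl⟩
  have hC : 0 ≤ C := by
    rw [hCdef]
    positivity
  have hCF : ∀ x, ‖(starRingEnd ℂ) (F x - c)‖ ≤ C := by
    intro x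
    rw [RCLike.norm_conj, hCdef]
    exact (norm_sub_le _ _).trans (add_le_add (hC₀' x) le_rfl)
  have key : ∀ ε : ℝ, 0 < ε → ‖c'‖ ≤ ε * (1 + C) := by
    intro ε hε
    obtain ⟨J₀, hJ₀⟩ := QP.mean hc' g hg ε hε
    obtain ⟨I₀, hI₀⟩ := QP.mean hc g.1 hg1 ε hε
    obtain ⟨J, hJ, hJ1⟩ : ∃ J : ℕ, J₀ ≤ J ∧ 1 ≤ J := ⟨max J₀ 1, le_max_left _ _, le_max_right _ _⟩
    obtain ⟨I, hI, hI1⟩ : ∃ I : ℕ, I₀ ≤ I ∧ 1 ≤ I := ⟨max I₀ 1, le_max_left _ _, le_max_right _ _⟩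
    have hJR : (0 : ℝ) < J := by exact_mod_cast hJ1
    have hIR : (0 : ℝ) < I := by exact_mod_cast hI1
    have h1 := hJ₀ J hJ hJ1
    have h2 := hI₀ I hI hI1
    -- the double sum
    obtain ⟨S, hS⟩ : ∃ S : ℂ, S = ∑ i ∈ range I, ∑ j ∈ range J, (F (g.1 ^ j * g.1 ^ i) - c) * (starRingEnd ℂ) (F (g.2 ^ j) - c) := ⟨_, rfl⟩
    have hA : ‖S - ((I : ℂ) * J) * c'‖ ≤ I * (ε * J) := by
      have h3 : S - ((I : ℂ) * J) * c' =
          ∑ i ∈ range I, ∑ j ∈ range J, ((F (g.1 ^ j * g.1 ^ i) - c) * (starRingEnd ℂ) (F (g.2 ^ j) - c) - c') := by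
        rw [hS]
        simp only [sum_sub_distrib, sum_const, card_range, nsmul_eq_mul]
        ring
      rw [h3]
      refine (norm_sum_le _ _).trans ?_
      have h4 : ∀ i ∈ range I, ‖∑ j ∈ range J, ((F (g.1 ^ j * g.1 ^ i) - c) * (starRingEnd ℂ) (F (g.2 ^ j) - c) - c')‖ ≤ ε * J := by
        intro i _
        have h5 := (h1 (g.1 ^ i, 1)).le
        simpa only [Prod.fst_mul, Prod.snd_mul, Prod.pow_fst, Prod.pow_snd, mul_one] using h5
      refine (sum_le_sum h4).trans (le_of_eq ?_)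
      rw [sum_const, card_range, nsmul_eq_mul]
    have hB : ‖S‖ ≤ J * (ε * I * C) := by
      have h3 : S = ∑ j ∈ range J, (∑ i ∈ range I, (F (g.1 ^ i * g.1 ^ j) - c)) * (starRingEnd ℂ) (F (g.2 ^ j) - c) := by
        rw [hS, sum_comm]
        refine sum_congr rfl fun j _ => ?_
        rw [sum_mul]
        refine sum_congr rfl fun i _ => ?_
        rw [← pow_add, ← pow_add, add_comm]
      rw [h3]
      refine (norm_sum_le _ _).trans ?_
      have h4 : ∀ j ∈ range J, ‖(∑ i ∈ range I, (F (g.1 ^ i * g.1 ^ j) - c)) * (starRingEnd ℂ) (F (g.2 ^ j) - c)‖ ≤ ε * I * C := by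
        intro j _
        rw [norm_mul]
        exact mul_le_mul (h2 (g.1 ^ j)).le (hCF _) (norm_nonneg _) (by positivity)
      refine (sum_le_sum h4).trans (le_of_eq ?_)
      rw [sum_const, card_range, nsmul_eq_mul]
    have hD : (I : ℝ) * J * ‖c'‖ ≤ (I : ℝ) * J * (ε * (1 + C)) := by
      have h3 : ((I : ℂ) * J) * c' = S - (S - ((I : ℂ) * J) * c') := by ring
      have h4 : (I : ℝ) * J * ‖c'‖ = ‖((I : ℂ) * J) * c'‖ := by
        rw [norm_mul, norm_mul, Complex.norm_natCast, Complex.norm_natCast]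
      rw [h4, h3]
      refine (norm_sub_le _ _).trans ?_
      refine (add_le_add hB hA).trans (le_of_eq ?_)
      ring
    exact le_of_mul_le_mul_left hD (by positivity)
  by_contra hne
  have hpos : 0 < ‖c'‖ := norm_pos_iff.2 hne
  have h := key (‖c'‖ / (2 * (1 + C))) (by positivity)
  have h1 : ‖c'‖ / (2 * (1 + C)) * (1 + C) = ‖c'‖ / 2 := by
    field_simp
  rw [h1] at h
  linarith

/-- Q-pair. `k = 0`: `F` is constant, `c = F 1`. `k ≥ 1`: `leib`, `prod_adm`, `prod_const`, `M.prod`, `(g,g')^j (a,a')`, `dot_sumElim`. -/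
theorem pair_rel {G : Type} [Group G] [TopologicalSpace G] [IsTopologicalGroup G] {Γ : Subgroup G} {k : ℕ} (M : Mal G Γ k) {F : G → ℂ} (hF : Adm Γ k F) :
    ∃ c : ℂ, ∀ κ : ℝ, 0 < κ → ∃ B : ℕ, ∀ (J : ℕ) (g g' a a' : G), 1 ≤ J →
      κ * J ≤ ‖∑ j ∈ range J, (F (g ^ j * a) - c) * (starRingEnd ℂ) (F (g' ^ j * a') - c)‖ →
      ∃ m m' : M.I 0 → ℤ, (m ≠ 0 ∨ m' ≠ 0) ∧ (∀ i, |m i| ≤ B) ∧ (∀ i, |m' i| ≤ B) ∧ dZ (dot m (M.p 0 g) + dot m' (M.p 0 g')) ≤ B / J := by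
  rcases Nat.eq_zero_or_pos k with hk | hk
  · subst hk
    refine ⟨F 1, fun κ hκ => ⟨0, fun J g g' a a' hJ h => ?_⟩⟩
    exfalso
    have h0 : ∀ x, F x = F 1 := by
      intro x
      have := hF.left 1 x (LL_zero x)
      rwa [mul_one] at this
    have h1 : ∑ j ∈ range J, (F (g ^ j * a) - F 1) * (starRingEnd ℂ) (F (g' ^ j * a') - F 1) = 0 := by
      refine sum_eq_zero fun j _ => ?_
      rw [h0 (g ^ j * a), sub_self, zero_mul]
    rw [h1, norm_zero] at h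
    have hJR : (0 : ℝ) < J := by exact_mod_cast hJ
    have : 0 < κ * J := by positivity
    linarith
  · obtain ⟨c, hc⟩ := leib k G Γ M F hF
    obtain ⟨c', hc'⟩ := leib k (G × G) (Γ.prod Γ) M.prod _ (prod_adm hF c)
    have h0 := prod_const M hk hF c hc c' hc'
    subst h0
    refine ⟨c, fun κ hκ => ?_⟩
    obtain ⟨B, hB⟩ := hc' κ hκ
    refine ⟨B, fun J g g' a a' hJ h => ?_⟩
    have h1 : κ * J ≤ ‖∑ j ∈ range J, ((F (((g, g') : G × G) ^ j * (a, a')).1 - c) *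
        (starRingEnd ℂ) (F (((g, g') : G × G) ^ j * (a, a')).2 - c) - 0)‖ := by
      simpa only [Prod.fst_mul, Prod.snd_mul, Prod.pow_fst, Prod.pow_snd, sub_zero] using h
    obtain ⟨m, hm, hm1, hm2⟩ := hB J (g, g') (a, a') hJ h1
    refine ⟨fun i => m (Sum.inl i), fun i => m (Sum.inr i), ?_, fun i => hm1 (Sum.inl i), fun i => hm1 (Sum.inr i), ?_⟩
    · by_contra hcon
      rw [not_or, not_not, not_not] at hcon
      apply hm
      funext i
      rcases i with i | i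
      · exact congrFun hcon.1 i
      · exact congrFun hcon.2 i
    · have h2 : dot m (M.prod.p 0 (g, g')) = dot (fun i => m (Sum.inl i)) (M.p 0 g) + dot (fun i => m (Sum.inr i)) (M.p 0 g') :=
        dot_sumElim m (M.p 0 g) (M.p 0 g')
      rw [← h2]
      exact hm2

end Pool.Agent.Lib.MP_3e612f_nt.NF
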