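import Pool.Agent.Lib.MP_3e612f_nt.NF.Q.Alg

/-! The group of pairs `(x, y)` with `x⁻¹ y ∈ [G, G]` (paper: Q-Sq). -/

set_option autoImplicit false

namespace Pool.Agent.Lib.MP_3e612f_nt.NF

open Finset
open scoped commutatorElement

/-- `{(x, y) : x⁻¹ y ∈ LL G 1}` -/
def Sq (G : Type) [Group G] : Subgroup (G × G) where
  carrier := {w | w.1⁻¹ * w.2 ∈ LL G 1}
  mul_mem' := by
    intro a b ha hb
    have h : (a * b).1⁻¹ * (a * b).2 = (b.1⁻¹ * (a.1⁻¹ * a.2) * b.1) * (b.1⁻¹ * b.2) := by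
      simp only [Prod.fst_mul, Prod.snd_mul]
      group
    show (a * b).1⁻¹ * (a * b).2 ∈ LL G 1
    rw [h]
    exact mul_mem (LL_conj' ha b.1) hb
  one_mem' := by
    show (1 : G × G).1⁻¹ * (1 : G × G).2 ∈ LL G 1
    simpa using one_mem (LL G 1)
  inv_mem' := by
    intro a ha
    show (a⁻¹).1⁻¹ * (a⁻¹).2 ∈ LL G 1
    have h : (a⁻¹).1⁻¹ * (a⁻¹).2 = a.1 * (a.1⁻¹ * a.2)⁻¹ * a.1⁻¹ := by
      simp only [Prod.fst_inv, Prod.snd_inv]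
      group
    rw [h]
    exact LL_conj (inv_mem ha) a.1

theorem mem_Sq {G : Type} [Group G] {w : G × G} : w ∈ Sq G ↔ w.1⁻¹ * w.2 ∈ LL G 1 := Iff.rfl

/-- `{(x, y) : x ∈ LL G i, x⁻¹ y ∈ LL G (i+1)}` -/
def SqL (G : Type) [Group G] (i : ℕ) : Subgroup (G × G) where
  carrier := {w | w.1 ∈ LL G i ∧ w.1⁻¹ * w.2 ∈ LL G (i + 1)}
  mul_mem' := by
    intro a b ha hb
    refine ⟨mul_mem ha.1 hb.1, ?_⟩
    have h : (a * b).1⁻¹ * (a * b).2 = (b.1⁻¹ * (a.1⁻¹ * a.2) * b.1) * (b.1⁻¹ * b.2) := by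
      simp only [Prod.fst_mul, Prod.snd_mul]
      group
    rw [h]
    exact mul_mem (LL_conj' ha.2 b.1) hb.2
  one_mem' := by
    refine ⟨one_mem _, ?_⟩
    simpa using one_mem (LL G (i + 1))
  inv_mem' := by
    intro a ha
    refine ⟨inv_mem ha.1, ?_⟩
    have h : (a⁻¹).1⁻¹ * (a⁻¹).2 = a.1 * (a.1⁻¹ * a.2)⁻¹ * a.1⁻¹ := by
      simp only [Prod.fst_inv, Prod.snd_inv]
      group
    rw [h]
    exact LL_conj (inv_mem ha.2) a.1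

theorem mem_SqL {G : Type} [Group G] {i : ℕ} {w : G × G} : w ∈ SqL G i ↔ w.1 ∈ LL G i ∧ w.1⁻¹ * w.2 ∈ LL G (i + 1) := Iff.rfl

/-- the subgroup `Γ × Γ` of `Sq G` -/
def SqG {G : Type} [Group G] (Γ : Subgroup G) : Subgroup (Sq G) := (Γ.prod Γ).subgroupOf (Sq G)

theorem mem_SqG {G : Type} [Group G] {Γ : Subgroup G} {w : Sq G} : w ∈ SqG Γ ↔ (w : G × G).1 ∈ Γ ∧ (w : G × G).2 ∈ Γ := by
  unfold SqG
  rw [Subgroup.mem_subgroupOf, Subgroup.mem_prod]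

/-- an element of `Sq G` -/
def sqMk {G : Type} [Group G] (x y : G) (h : x⁻¹ * y ∈ LL G 1) : Sq G := ⟨(x, y), h⟩

end Pool.Agent.Lib.MP_3e612f_nt.NF
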