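import Pool.Agent.Lib.MP_3e612f_nt.NF.Q.SqDef
import Pool.Agent.Lib.MP_3e612f_nt.NF.Q.Three

/-! The lower central series of `Sq G` (paper: Q-Sq). -/

set_option autoImplicit false

namespace Pool.Agent.Lib.MP_3e612f_nt.NF

open Finset
open scoped commutatorElement

/-- `⊆`: for `(x,y) ∈ SqL i`, `(u,v) ∈ Sq G` write `y = x a`, `a ∈ LL (i+1)`, `v = u b`, `b ∈ LL 1`: `[x,u] ∈ LL (i+1)` and `[xa, ub] ≡ [x, ub] ≡ [x, u]` modulo `LL (i+2)` (`[a, ·] ∈ LL (i+2)`, `[x,b] ∈ LL (i+2)` by `three`; identities `[xa,v] = x[a,v]x⁻¹ [x,v]`,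
`[x,ub] = [x,u] u[x,b]u⁻¹`; `LL (i+2)` is normal). -/
theorem sqL_comm_le (G : Type) [Group G] (i : ℕ) : ⁅SqL G i, Sq G⁆ ≤ SqL G (i + 1) := by
  rw [Subgroup.commutator_le]
  rintro ⟨x, y⟩ hw ⟨u, v⟩ hw'
  obtain ⟨hx, ha⟩ := mem_SqL.1 hw
  have hb := mem_Sq.1 hw'
  dsimp only at hx ha hb
  refine mem_SqL.2 ⟨?_, ?_⟩
  · exact LL_comm hx u
  · have h1 : (⁅(x, y), (u, v)⁆ : G × G).1⁻¹ * (⁅(x, y), (u, v)⁆ : G × G).2 =
        (⁅x, u⁆⁻¹ * (x * ⁅x⁻¹ * y, v⁆ * x⁻¹) * ⁅x, u⁆) * (u * ⁅x, u⁻¹ * v⁆ * u⁻¹) := by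
      simp only [commutatorElement_def, Prod.fst_mul, Prod.snd_mul, Prod.fst_inv, Prod.snd_inv]
      group
    rw [h1]
    exact mul_mem (LL_conj' (LL_conj (LL_comm ha v) x) _)
      (LL_conj (three G i (Subgroup.commutator_mem_commutator hx hb)) u)

/-- `⊇`: an element `(x,y)` of `SqL (i+1)` is `(x,x)(1, x⁻¹y)` with `x ∈ LL (i+1)`, `x⁻¹ y ∈ LL (i+2)`. `x` is a product of commutators `[a,u]^{±1}`, `a ∈ LL i`, and `([a,u],[a,u]) = [(a,a),(u,u)]` with `(a,a) ∈ SqL i`, `(u,u) ∈ Sq G` (the set of `x` with `(x,x) ∈ [SqL i, Sq]` is a subgroup: comap of a homomorphism;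
`Subgroup.commutator_le`); likewise `x⁻¹y` is a product of `[a,u]^{±1}`, `a ∈ LL (i+1)`, and `(1,[a,u]) = [(1,a),(u,u)]`, `(1,a) ∈ SqL i`. -/
theorem sqL_le_comm (G : Type) [Group G] (i : ℕ) : SqL G (i + 1) ≤ ⁅SqL G i, Sq G⁆ := by
  have hdiag : ∀ u : G, ((u, u) : G × G) ∈ Sq G := by
    intro u
    refine mem_Sq.2 ?_
    have h : ((u, u) : G × G).1⁻¹ * ((u, u) : G × G).2 = 1 := inv_mul_cancel u
    rw [h]
    exact one_mem _
  have h1 : LL G (i + 1) ≤ (⁅SqL G i, Sq G⁆ : Subgroup (G × G)).comap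
      ((MonoidHom.id G).prod (MonoidHom.id G)) := by
    refine Subgroup.commutator_le.2 fun a ha u _ => ?_
    rw [Subgroup.mem_comap, map_commutatorElement]
    refine Subgroup.commutator_mem_commutator (mem_SqL.2 ⟨ha, ?_⟩) (hdiag u)
    have h : (((MonoidHom.id G).prod (MonoidHom.id G)) a).1⁻¹ *
        (((MonoidHom.id G).prod (MonoidHom.id G)) a).2 = 1 := inv_mul_cancel a
    rw [h]
    exact one_mem _
  have h2 : LL G (i + 2) ≤ (⁅SqL G i, Sq G⁆ : Subgroup (G × G)).comap (MonoidHom.inr G G) := by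
    refine Subgroup.commutator_le.2 fun a ha u _ => ?_
    have h : MonoidHom.inr G G ⁅a, u⁆ = ⁅MonoidHom.inr G G a, ((u, u) : G × G)⁆ := by
      ext
      · simp [commutatorElement_def]
      · simp [commutatorElement_def]
    rw [Subgroup.mem_comap, h]
    refine Subgroup.commutator_mem_commutator (mem_SqL.2 ⟨one_mem _, ?_⟩) (hdiag u)
    have h3 : (MonoidHom.inr G G a).1⁻¹ * (MonoidHom.inr G G a).2 = a := by
      simp
    rw [h3]
    exact ha
  intro w hw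
  obtain ⟨hx, hy⟩ := mem_SqL.1 hw
  have h3 := h1 hx
  have h4 := h2 hy
  rw [Subgroup.mem_comap] at h3 h4
  have h5 : w = ((MonoidHom.id G).prod (MonoidHom.id G)) w.1 *
      MonoidHom.inr G G (w.1⁻¹ * w.2) := by
    ext
    · simp
    · simp
  rw [h5]
  exact mul_mem h3 h4

theorem sqL_zero (G : Type) [Group G] : SqL G 0 = Sq G := by
  ext w
  rw [mem_SqL, mem_Sq]
  exact ⟨fun h => h.2, fun h => ⟨LL_zero _, h⟩⟩

theorem sq_lowerCentralSeries (G : Type) [Group G] (i : ℕ) :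
    (Sq G).lowerCentralSeries i = SqL G i := by
  induction i with
  | zero => exact (sqL_zero G).symm
  | succ i ih =>
    rw [Subgroup.lowerCentralSeries_succ, ih]
    exact le_antisymm (sqL_comm_le G i) (sqL_le_comm G i)

/-- The lower central series of `Sq G`, computed in `G × G`, and (`Subgroup.top_subtype_lowerCentralSeries`) of the group `Sq G`. (`SqL G 0 = Sq G`.) -/
theorem mem_LL_Sq {G : Type} [Group G] (i : ℕ) (w : Sq G) : w ∈ LL (Sq G) i ↔ (w : G × G) ∈ SqL G i := by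
  rw [← sq_lowerCentralSeries, ← Subgroup.top_subtype_lowerCentralSeries]
  constructor
  · intro h
    exact Subgroup.mem_map_of_mem _ h
  · rintro ⟨w', hw', he⟩
    have h : w' = w := Subtype.ext he
    rw [← h]
    exact hw'

end Pool.Agent.Lib.MP_3e612f_nt.NF
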