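import Pool.Agent.Lib.MP_3e612f_nt.NF.Q.Orbit
import Pool.Agent.Lib.MP_3e612f_nt.NF.Q.SqP0
import Pool.Agent.Lib.MP_3e612f_nt.NF.Q.Net
import Pool.Agent.Lib.MP_3e612f_nt.NF.Q.Vdc
import Pool.Agent.Lib.MP_3e612f_nt.NF.Pig

/-! From a large mean to a bracket relation for many shifts (paper: Q-Rel). -/

set_option autoImplicit false

namespace Pool.Agent.Lib.MP_3e612f_nt.NF

open Finset
open Pool.Agent.Lib.MP_3e612f_nt.MR (mu ex)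
open scoped commutatorElement

/-- `|F| ≤ 1`. `D` from `dec M`; `net M.sq` for `Φ = Phi F` on `E = D × D` with `κ²/32`: `B`. `orbit_shift`, `vdc` for `a_j = F(a' b^j)`: for at least `(κ²/32) K` of the `l < K` the mean over `j < J` of `Phi F (a', r_l) (w_l^j)` is at least `κ²/32`: there is `m ≠ 0`, `|m| ≤ B`, with
`dZ (dot m (sqp M 0 w_l)) ≤ B/J ≤ B/K` (`K ≤ J`), which is the displayed quantity by `sq_p0`. Pigeonhole over `m` (`pig`, `box_finset`): `δ = κ²/32/(2B+1)^{card}`. -/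
theorem step_a {G : Type} [Group G] [TopologicalSpace G] [IsTopologicalGroup G] {Γ : Subgroup G} {k : ℕ} (M : Mal G Γ (k + 1)) (hk : 1 ≤ k) {F : G → ℂ}
    (hF : Adm Γ (k + 1) F) (hF1 : ∀ x, ‖F x‖ ≤ 1) (ξ : M.I k → ℤ) (hξ0 : ξ ≠ 0) (hξ : ∀ z ∈ LL G k, ∀ x, F (z * x) = ex (dot ξ (M.p k z)) * F x)
    (hq : ∀ ar : G × G, QP (M.sq.p 0) (Phi F ar) 0)
    (N : M.I 1 → M.I 0 → M.I 0 → ℤ) (hN : ∀ (x y : G) (j : M.I 1), M.p 1 ⁅x, y⁆ j = ∑ a, ∑ b, (N j a b : ℝ) * M.p 0 x a * M.p 0 y b)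
    (κ : ℝ) (hκ : 0 < κ) (hκ1 : κ ≤ 1) : ∃ B : ℕ, ∃ δ : ℝ, 0 < δ ∧ ∀ (J : ℕ) (g a : G), 1 ≤ κ ^ 2 * J / 16 → κ * J ≤ ‖∑ j ∈ range J, F (g ^ j * a)‖ →
      ∃ m : M.I 0 ⊕ M.I 1 → ℤ, m ≠ 0 ∧ (∀ i, |m i| ≤ B) ∧
        δ * (⌊κ ^ 2 * J / 16⌋₊ : ℝ) ≤ ((((range ⌊κ ^ 2 * J / 16⌋₊).filter (fun l : ℕ =>
          dZ (dot (fun i => m (Sum.inl i)) (M.p 0 g) +
            ∑ c, (∑ a, ((∑ j, m (Sum.inr j) * N j a c : ℤ) : ℝ) * M.p 0 g a) * Int.fract ((l : ℝ) * M.p 0 g c))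
            ≤ B / (⌊κ ^ 2 * J / 16⌋₊ : ℝ))).card : ℕ) : ℝ) := by
  classical
  obtain ⟨D, hDc, hD⟩ := dec M
  have hD' : ∀ x : G, ∃ r ∈ D, ∃ h ∈ LL G (k + 1), ∃ γ ∈ Γ, x = r * h * γ ∧ ∀ j, M.p 0 γ j = ⌊M.p 0 x j⌋ := by
    intro x
    obtain ⟨r, hr, h, hh, γ, hγ, e1, e2⟩ := hD x
    exact ⟨r, hr, h, hh, γ, hγ, e1, e2 (Nat.succ_pos k)⟩
  obtain ⟨B, hB⟩ := net M.sq (fun ar : G × G => Phi F ar) (Phi_cont hF.cont) (fun ar => Phi_adm M hF ξ hξ ar)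
    (D ×ˢ D) (hDc.prod hDc) (fun ar _ => hq ar) (κ ^ 2 / 32) (by positivity)
  obtain ⟨U, hUne, -, hU⟩ := box_finset (M.I 0 ⊕ M.I 1) B
  have hUc : (0 : ℝ) < U.card := by exact_mod_cast hUne.card_pos
  refine ⟨B, κ ^ 2 / 32 / U.card, by positivity, ?_⟩
  intro J g a h1 h2
  obtain ⟨a', ha', b, hb, hFb, hl⟩ := orbit_shift M hF D hD' g a
  have hv := vdc (fun j => F (a' * b ^ j)) (fun j => hF1 _) κ hκ hκ1 J (by
    have e : ∑ j ∈ range J, F (a' * b ^ j) = ∑ j ∈ range J, F (g ^ j * a) := sum_congr rfl fun j _ => (hFb j).symm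
    show κ * J ≤ ‖∑ j ∈ range J, F (a' * b ^ j)‖
    rw [e]
    exact h2)
  have hK1 : 1 ≤ ⌊κ ^ 2 * J / 16⌋₊ := Nat.le_floor (by simpa using h1)
  have hJ0 : (0 : ℝ) ≤ J := Nat.cast_nonneg J
  have hKJ : (⌊κ ^ 2 * J / 16⌋₊ : ℝ) ≤ J := by
    have e1 : (⌊κ ^ 2 * J / 16⌋₊ : ℝ) ≤ κ ^ 2 * J / 16 := Nat.floor_le (by positivity)
    have e2 : κ ^ 2 ≤ 1 := pow_le_one₀ hκ.le hκ1
    nlinarith
  generalize ⌊κ ^ 2 * J / 16⌋₊ = K at hv hK1 hKJ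
  have hK0 : (0 : ℝ) < K := by exact_mod_cast hK1
  have hJ1 : 1 ≤ J := by
    have : (1 : ℝ) ≤ J := le_trans (by exact_mod_cast hK1) hKJ
    exact_mod_cast this
  set L : Finset ℕ := (range K).filter (fun l : ℕ => κ ^ 2 / 32 * J ≤
    ‖∑ j ∈ range J, (fun j => F (a' * b ^ j)) (j + l) * (starRingEnd ℂ) ((fun j => F (a' * b ^ j)) j)‖) with hL
  have hv' : κ ^ 2 / 32 * (K : ℝ) ≤ (L.card : ℝ) := hv
  have key : ∀ l ∈ L, ∃ u ∈ U, u ≠ 0 ∧ dZ (dot (fun i => u (Sum.inl i)) (M.p 0 g) +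
      ∑ c, (∑ a, ((∑ j, u (Sum.inr j) * N j a c : ℤ) : ℝ) * M.p 0 g a) * Int.fract ((l : ℝ) * M.p 0 g c)) ≤ B / (K : ℝ) := by
    intro l hlL
    rw [hL, mem_filter] at hlL
    obtain ⟨r, hr, γ, hγ, w, hw, hwj⟩ := hl l
    have e1 : κ ^ 2 / 32 * J ≤ ‖∑ j ∈ range J, Phi F (a', r) (w ^ j * 1)‖ := by
      have e2 : ∑ j ∈ range J, Phi F (a', r) (w ^ j * 1) =
          ∑ j ∈ range J, (fun j => F (a' * b ^ j)) (j + l) * (starRingEnd ℂ) ((fun j => F (a' * b ^ j)) j) := by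
        refine sum_congr rfl fun j _ => ?_
        rw [mul_one]
        exact (hwj j).symm
      rw [e2]
      exact hlL.2
    have e7 : ∃ m : M.I 0 ⊕ M.I 1 → ℤ, m ≠ 0 ∧ (∀ i, |m i| ≤ B) ∧ dZ (dot m (sqp M 0 w)) ≤ B / (J : ℝ) :=
      hB (a', r) ⟨ha', hr⟩ J w 1 hJ1 e1
    obtain ⟨m, hm0, hmB, hmd⟩ := e7
    refine ⟨m, (hU m).2 hmB, hm0, ?_⟩
    have e3 := sq_p0 M hk N hN b γ l hγ w hw m
    rw [hb] at e3
    rw [← e3]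
    exact hmd.trans (div_le_div_of_nonneg_left (Nat.cast_nonneg B) hK0 hKJ)
  obtain ⟨u, huU, hu⟩ := pig L U (fun l u => u ≠ 0 ∧ dZ (dot (fun i => u (Sum.inl i)) (M.p 0 g) +
      ∑ c, (∑ a, ((∑ j, u (Sum.inr j) * N j a c : ℤ) : ℝ) * M.p 0 g a) * Int.fract ((l : ℝ) * M.p 0 g c)) ≤ B / (K : ℝ)) key hUne
  have hpos : 0 < (L.card : ℝ) / U.card := by
    apply div_pos _ hUc
    refine lt_of_lt_of_le ?_ hv'
    positivity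
  have hne : ((L.filter (fun l : ℕ => u ≠ 0 ∧ dZ (dot (fun i => u (Sum.inl i)) (M.p 0 g) +
      ∑ c, (∑ a, ((∑ j, u (Sum.inr j) * N j a c : ℤ) : ℝ) * M.p 0 g a) * Int.fract ((l : ℝ) * M.p 0 g c)) ≤ B / (K : ℝ)))).Nonempty := by
    rw [← card_pos]
    have := lt_of_lt_of_le hpos hu
    exact_mod_cast this
  refine ⟨u, ?_, (hU u).1 huU, ?_⟩
  · obtain ⟨l, hl'⟩ := hne
    exact (mem_filter.1 hl').2.1
  · have e5 : κ ^ 2 / 32 / U.card * (K : ℝ) ≤ (L.card : ℝ) / U.card := by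
      rw [div_mul_eq_mul_div]
      exact div_le_div_of_nonneg_right hv' hUc.le
    refine e5.trans (hu.trans ?_)
    have e6 : (L.filter (fun l : ℕ => u ≠ 0 ∧ dZ (dot (fun i => u (Sum.inl i)) (M.p 0 g) +
      ∑ c, (∑ a, ((∑ j, u (Sum.inr j) * N j a c : ℤ) : ℝ) * M.p 0 g a) * Int.fract ((l : ℝ) * M.p 0 g c)) ≤ B / (K : ℝ))) ⊆
      (range K).filter (fun l : ℕ =>
          dZ (dot (fun i => u (Sum.inl i)) (M.p 0 g) +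
            ∑ c, (∑ a, ((∑ j, u (Sum.inr j) * N j a c : ℤ) : ℝ) * M.p 0 g a) * Int.fract ((l : ℝ) * M.p 0 g c))
            ≤ B / (K : ℝ)) := by
      intro l hl'
      rw [mem_filter] at hl' ⊢
      rw [hL, mem_filter] at hl'
      exact ⟨hl'.1.1, hl'.2.2⟩
    exact_mod_cast card_le_card e6

end Pool.Agent.Lib.MP_3e612f_nt.NF
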