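import Pool.Agent.Lib.MP_3e612f_nt.NF.Q.StepA
import Pool.Agent.Lib.MP_3e612f_nt.NF.Q.BL

/-! The case of a nontrivial vertical character (paper: Q-Rel). -/

set_option autoImplicit false

namespace Pool.Agent.Lib.MP_3e612f_nt.NF

open Finset
open Pool.Agent.Lib.MP_3e612f_nt.MR (mu ex)

/-- If there are no horizontal coordinates then `G = LL G 1 = LL G 2 = ..` and there are no other
coordinates either. -/
theorem stepB_nonempty {G : Type} [Group G] [TopologicalSpace G] {Γ : Subgroup G} {k : ℕ}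
    (M : Mal G Γ (k + 1)) (ξ : M.I k → ℤ) (hξ0 : ξ ≠ 0) : Nonempty (M.I 0) := by
  by_contra hne
  rw [not_nonempty_iff] at hne
  have h1 : LL G 1 = ⊤ := by
    rw [eq_top_iff]
    intro x _
    rw [← M.p_ker 0 (Nat.succ_pos k) x (LL_zero x)]
    exact Subsingleton.elim _ _
  have h2 : ∀ i, LL G i = ⊤ := by
    intro i
    induction i with
    | zero => rfl
    | succ i ih =>
      have h3 : LL G (i + 1) = ⁅LL G i, (⊤ : Subgroup G)⁆ := rfl
      have h4 : ⁅(⊤ : Subgroup G), (⊤ : Subgroup G)⁆ = LL G 1 := rfl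
      rw [h3, ih, h4, h1]
  apply hξ0
  funext i
  exfalso
  have h3 := M.p_e k (Nat.lt_succ_self k) (fun _ => 1)
  have h4 : M.p k (M.e k (fun _ => 1)) = 0 := by
    rw [M.p_ker k (Nat.lt_succ_self k) _ (M.e_mem k (Nat.lt_succ_self k) _), h2]
    exact Subgroup.mem_top _
  rw [h4] at h3
  have h5 := congrFun h3 i
  exact zero_ne_one h5

/-- For `|F| ≤ 1`. `B, δ` from `step_a`. If `κ²J/16 < 1`: `dZ ≤ 1/2 ≤ 8/κ²/J` with any `m ≠ 0` (`M.I 0` nonempty: otherwise `LL G 0 = LL G 1` by `M.p_ker 0`, hence all `LL G i` are equal to `G`, `p k` has kernel `G` and `M.I k` is empty, contradicting `ξ ≠ 0`).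
Otherwise `K = ⌊κ²J/16⌋ ≥ κ²J/32`, `m` from `step_a`. If `m ∘ inr = 0` the displayed quantity is `dot (m ∘ inl) β` (all `l`; the filter is nonempty) and `m ∘ inl ≠ 0`: relation `≤ B/K`. Otherwise `bl` with `C = B + 1`, `ζ c = ∑_a N'_{ac} β_a`, `N'_{ac} = ∑_j m_j N j a c`: either a relation, or
`dZ (m₀ ζ c) ≤ M'/K` for all `c`; by `form_nondeg` some `N'_{ac} ≠ 0`: the vector `m₀ N'_{·c}` is a nonzero relation with entries at most `M' · card · B · max|N|`. All bounds `./K ≤ (32/κ²) ./J`. -/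
theorem step_b {G : Type} [Group G] [TopologicalSpace G] [IsTopologicalGroup G] {Γ : Subgroup G} {k : ℕ} (M : Mal G Γ (k + 1)) (hk : 1 ≤ k) {F : G → ℂ}
    (hF : Adm Γ (k + 1) F) (hF1 : ∀ x, ‖F x‖ ≤ 1) (ξ : M.I k → ℤ) (hξ0 : ξ ≠ 0) (hξ : ∀ z ∈ LL G k, ∀ x, F (z * x) = ex (dot ξ (M.p k z)) * F x)
    (hq : ∀ ar : G × G, QP (M.sq.p 0) (Phi F ar) 0) : QP (M.p 0) F 0 := by
  classical
  obtain ⟨N, hN⟩ := exists_form M (by omega)
  obtain ⟨i₀⟩ := stepB_nonempty M ξ hξ0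
  intro κ₀ hκ₀
  obtain ⟨κ, hκ, hκ1, hκ₀κ⟩ : ∃ κ : ℝ, 0 < κ ∧ κ ≤ 1 ∧ κ ≤ κ₀ :=
    ⟨min κ₀ 1, lt_min hκ₀ one_pos, min_le_right _ _, min_le_left _ _⟩
  obtain ⟨B₁, δ, hδ, hA⟩ := step_a M hk hF hF1 ξ hξ0 hξ hq N hN κ hκ hκ1
  obtain ⟨M₁, hM₁, hbl⟩ := bl (M.I 0) δ ((B₁ : ℝ) + 1) hδ (by positivity)
  set NN : ℕ := ∑ b, ∑ a, ∑ j, (N j a b).natAbs with hNN
  have hNle : ∀ b a, ∑ j, (N j a b).natAbs ≤ NN := by
    intro b a
    have h1 : ∑ j, (N j a b).natAbs ≤ ∑ a, ∑ j, (N j a b).natAbs :=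
      Finset.single_le_sum (f := fun a => ∑ j, (N j a b).natAbs) (fun _ _ => Nat.zero_le _)
        (Finset.mem_univ a)
    have h2 : ∑ a, ∑ j, (N j a b).natAbs ≤ NN :=
      Finset.single_le_sum (f := fun b => ∑ a, ∑ j, (N j a b).natAbs) (fun _ _ => Nat.zero_le _)
        (Finset.mem_univ b)
    exact h1.trans h2
  obtain ⟨B₂, hB₂⟩ := exists_nat_ge (32 * ((B₁ : ℝ) + M₁ + 1) / κ ^ 2)
  have hκ2 : (0 : ℝ) < κ ^ 2 := by positivity
  have hκ21 : κ ^ 2 ≤ 1 := by nlinarith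
  have hB₂' : 32 * ((B₁ : ℝ) + M₁ + 1) ≤ B₂ * κ ^ 2 := by
    rwa [div_le_iff₀ hκ2] at hB₂
  have hB₁B : (B₁ : ℝ) + M₁ + 1 ≤ B₂ := by
    have h1 : (0 : ℝ) ≤ B₂ := Nat.cast_nonneg _
    have h2 : (0 : ℝ) ≤ (B₁ : ℝ) + M₁ + 1 := by positivity
    nlinarith
  have hB₁B' : B₁ + M₁ + 1 ≤ B₂ := by exact_mod_cast hB₁B
  refine ⟨B₂ + M₁ * (B₁ * NN), ?_⟩
  intro J g a hJ hJs
  have hJ0 : (0 : ℝ) < J := by exact_mod_cast hJ
  have hJs' : κ * J ≤ ‖∑ j ∈ range J, F (g ^ j * a)‖ := by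
    have h1 : ∑ j ∈ range J, (F (g ^ j * a) - 0) = ∑ j ∈ range J, F (g ^ j * a) := by
      simp only [sub_zero]
    rw [h1] at hJs
    exact (mul_le_mul_of_nonneg_right hκ₀κ hJ0.le).trans hJs
  have hBge : (B₂ : ℝ) ≤ ((B₂ + M₁ * (B₁ * NN) : ℕ) : ℝ) := by
    push_cast
    have : (0 : ℝ) ≤ (M₁ : ℝ) * ((B₁ : ℝ) * NN) := by positivity
    linarith
  rcases lt_or_ge (κ ^ 2 * J / 16) 1 with hsmall | hbig
  · refine ⟨Pi.single i₀ 1, ?_, ?_, ?_⟩
    · intro h
      have h1 := congrFun h i₀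
      rw [Pi.single_eq_same, Pi.zero_apply] at h1
      exact one_ne_zero h1
    · intro i
      have h1 : |(Pi.single i₀ 1 : M.I 0 → ℤ) i| ≤ 1 := by
        by_cases hi : i = i₀
        · rw [hi, Pi.single_eq_same, abs_one]
        · rw [Pi.single_eq_of_ne hi, abs_zero]
          exact zero_le_one
      refine h1.trans ?_
      have h2 : 1 ≤ B₂ + M₁ * (B₁ * NN) := by omega
      exact_mod_cast h2
    · refine (dZ_le_half _).trans ?_
      rw [le_div_iff₀ hJ0]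
      refine le_trans ?_ hBge
      have h1 : κ ^ 2 * J < 16 := by linarith
      have h2 : (32 : ℝ) ≤ B₂ * κ ^ 2 := by
        have : (0 : ℝ) ≤ (B₁ : ℝ) + M₁ := by positivity
        linarith
      have h3 : κ ^ 2 * J ≤ κ ^ 2 * B₂ := by linarith
      have h4 : (J : ℝ) ≤ B₂ := le_of_mul_le_mul_left h3 hκ2
      linarith
  · obtain ⟨m, hm0, hmB, hcard⟩ := hA J g a hbig hJs'
    set K : ℕ := ⌊κ ^ 2 * J / 16⌋₊ with hKdef
    have hK1 : 1 ≤ K := by
      rw [hKdef, Nat.one_le_floor_iff]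
      exact hbig
    have hK0 : (0 : ℝ) < K := by exact_mod_cast hK1
    have hKge : κ ^ 2 * J / 32 ≤ K := by
      have h1 : κ ^ 2 * J / 16 < (K : ℝ) + 1 := Nat.lt_floor_add_one _
      have h2 : (1 : ℝ) ≤ K := by exact_mod_cast hK1
      linarith
    have hKJ : ∀ T : ℝ, 0 ≤ T → T ≤ (B₁ : ℝ) + M₁ + 1 → T / K ≤
        ((B₂ + M₁ * (B₁ * NN) : ℕ) : ℝ) / J := by
      intro T hT0 hT
      rw [div_le_div_iff₀ hK0 hJ0]
      have h1 : T * J ≤ B₂ * K := by
        have h2 : T * (κ ^ 2 * J) ≤ T * (32 * K) := mul_le_mul_of_nonneg_left (by linarith) hT0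
        have h3 : (32 * T) * K ≤ (B₂ * κ ^ 2) * K :=
          mul_le_mul_of_nonneg_right (by linarith) hK0.le
        have h4 : κ ^ 2 * (T * J) ≤ κ ^ 2 * (B₂ * K) := by linarith
        exact le_of_mul_le_mul_left h4 hκ2
      exact h1.trans (mul_le_mul_of_nonneg_right hBge hK0.le)
    by_cases hmr : (fun j => m (Sum.inr j)) = 0
    · have hmr' : ∀ j, m (Sum.inr j) = 0 := fun j => congrFun hmr j
      have hpos : 0 < ((range K).filter (fun l : ℕ =>
          dZ (dot (fun i => m (Sum.inl i)) (M.p 0 g) +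
            ∑ c, (∑ a, ((∑ j, m (Sum.inr j) * N j a c : ℤ) : ℝ) * M.p 0 g a) *
              Int.fract ((l : ℝ) * M.p 0 g c)) ≤ B₁ / (K : ℝ))).card := by
        have h1 : (0 : ℝ) < δ * K := mul_pos hδ hK0
        have h2 := lt_of_lt_of_le h1 hcard
        exact_mod_cast h2
      obtain ⟨l, hl⟩ := Finset.card_pos.1 hpos
      have hl2 := (Finset.mem_filter.1 hl).2
      simp only [hmr', zero_mul, Finset.sum_const_zero, Int.cast_zero, add_zero] at hl2
      refine ⟨fun i => m (Sum.inl i), ?_, ?_, ?_⟩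
      · intro h
        apply hm0
        funext i
        rcases i with i | i
        · exact congrFun h i
        · exact hmr' i
      · intro i
        refine (hmB _).trans ?_
        have h2 : B₁ ≤ B₂ + M₁ * (B₁ * NN) := by omega
        exact_mod_cast h2
      · refine hl2.trans (hKJ B₁ (by positivity) ?_)
        have : (0 : ℝ) ≤ M₁ := Nat.cast_nonneg _
        linarith
    · have hcard' : δ * (K : ℝ) ≤ ((((range K).filter (fun l : ℕ =>
          dZ (dot (fun i => m (Sum.inl i)) (M.p 0 g) +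
            ∑ c, (∑ a, ((∑ j, m (Sum.inr j) * N j a c : ℤ) : ℝ) * M.p 0 g a) *
              Int.fract ((l : ℝ) * M.p 0 g c)) ≤ ((B₁ : ℝ) + 1) / (K : ℝ))).card : ℕ) : ℝ) := by
        refine hcard.trans ?_
        have h1 : ((range K).filter (fun l : ℕ =>
          dZ (dot (fun i => m (Sum.inl i)) (M.p 0 g) +
            ∑ c, (∑ a, ((∑ j, m (Sum.inr j) * N j a c : ℤ) : ℝ) * M.p 0 g a) *
              Int.fract ((l : ℝ) * M.p 0 g c)) ≤ B₁ / (K : ℝ))).card ≤
            ((range K).filter (fun l : ℕ =>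
          dZ (dot (fun i => m (Sum.inl i)) (M.p 0 g) +
            ∑ c, (∑ a, ((∑ j, m (Sum.inr j) * N j a c : ℤ) : ℝ) * M.p 0 g a) *
              Int.fract ((l : ℝ) * M.p 0 g c)) ≤ ((B₁ : ℝ) + 1) / (K : ℝ))).card := by
          apply Finset.card_le_card
          intro l hl
          rw [Finset.mem_filter] at hl ⊢
          refine ⟨hl.1, hl.2.trans ?_⟩
          exact div_le_div_of_nonneg_right (by linarith) hK0.le
        exact_mod_cast h1
      rcases hbl K hK1 (M.p 0 g)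
        (fun c => ∑ a, ((∑ j, m (Sum.inr j) * N j a c : ℤ) : ℝ) * M.p 0 g a)
        (dot (fun i => m (Sum.inl i)) (M.p 0 g)) hcard' with ⟨m', hm'0, hm'B, hm'd⟩ |
          ⟨m₀, hm₀1, hm₀M, hm₀d⟩
      · refine ⟨m', hm'0, ?_, ?_⟩
        · intro i
          refine (hm'B i).trans ?_
          have h2 : M₁ ≤ B₂ + M₁ * (B₁ * NN) := by omega
          exact_mod_cast h2
        · refine hm'd.trans (hKJ M₁ (by positivity) ?_)
          have : (0 : ℝ) ≤ B₁ := Nat.cast_nonneg _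
          linarith
      · obtain ⟨a₁, b₁, hab⟩ := form_nondeg M (by omega) N hN (fun j => m (Sum.inr j)) hmr
        refine ⟨fun a => m₀ * ∑ j, m (Sum.inr j) * N j a b₁, ?_, ?_, ?_⟩
        · intro h
          have h1 := congrFun h a₁
          rw [Pi.zero_apply] at h1
          rcases mul_eq_zero.1 h1 with h2 | h2
          · have h3 : m₀ = 0 := by exact_mod_cast h2
            omega
          · exact hab h2
        · intro a
          have h1 : |∑ j, m (Sum.inr j) * N j a b₁| ≤ (B₁ : ℤ) * (NN : ℤ) := by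
            calc |∑ j, m (Sum.inr j) * N j a b₁| ≤ ∑ j, |m (Sum.inr j) * N j a b₁| :=
                  Finset.abs_sum_le_sum_abs _ _
              _ ≤ ∑ j, (B₁ : ℤ) * ((N j a b₁).natAbs : ℤ) := by
                  apply Finset.sum_le_sum
                  intro j _
                  rw [abs_mul, Int.natCast_natAbs]
                  exact mul_le_mul_of_nonneg_right (hmB _) (abs_nonneg _)
              _ = (B₁ : ℤ) * ((∑ j, (N j a b₁).natAbs : ℕ) : ℤ) := by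
                  rw [Nat.cast_sum, Finset.mul_sum]
              _ ≤ (B₁ : ℤ) * (NN : ℤ) := by
                  apply mul_le_mul_of_nonneg_left _ (Int.natCast_nonneg _)
                  exact_mod_cast hNle b₁ a
          rw [abs_mul, Nat.abs_cast]
          have h2 : (m₀ : ℤ) * |∑ j, m (Sum.inr j) * N j a b₁| ≤ (M₁ : ℤ) * ((B₁ : ℤ) * NN) := by
            apply mul_le_mul _ h1 (abs_nonneg _) (Int.natCast_nonneg _)
            exact_mod_cast hm₀M
          refine h2.trans ?_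
          push_cast
          have : (0 : ℤ) ≤ B₂ := Int.natCast_nonneg _
          linarith
        · have h1 : dot (fun a => m₀ * ∑ j, m (Sum.inr j) * N j a b₁) (M.p 0 g) =
              m₀ * ∑ a, ((∑ j, m (Sum.inr j) * N j a b₁ : ℤ) : ℝ) * M.p 0 g a := by
            unfold dot
            rw [Finset.mul_sum]
            apply Finset.sum_congr rfl
            intro a _
            push_cast
            ring
          rw [h1]
          refine (hm₀d b₁).trans (hKJ M₁ (by positivity) ?_)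
          have : (0 : ℝ) ≤ B₁ := Nat.cast_nonneg _
          linarith

/-- The same without `|F| ≤ 1`: `Adm.bdd`, divide by `C`. -/
theorem step_b' {G : Type} [Group G] [TopologicalSpace G] [IsTopologicalGroup G] {Γ : Subgroup G} {k : ℕ} (M : Mal G Γ (k + 1)) (hk : 1 ≤ k) {F : G → ℂ}
    (hF : Adm Γ (k + 1) F) (ξ : M.I k → ℤ) (hξ0 : ξ ≠ 0) (hξ : ∀ z ∈ LL G k, ∀ x, F (z * x) = ex (dot ξ (M.p k z)) * F x)
    (ih : ∀ A : Sq G → ℂ, Adm (SqG Γ) k A → ∃ c, QP (M.sq.p 0) A c) : QP (M.p 0) F 0 := by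
  obtain ⟨C, hC, hFC⟩ := Adm.bdd M hF
  have hCc : (C : ℂ) ≠ 0 := by exact_mod_cast hC.ne'
  have hA : Adm Γ (k + 1) (fun x => (C : ℂ)⁻¹ * F x) :=
    ⟨continuous_const.mul hF.cont, fun x γ hγ => by rw [hF.right x γ hγ],
      fun x h hh => by rw [hF.left x h hh]⟩
  have hA1 : ∀ x, ‖(C : ℂ)⁻¹ * F x‖ ≤ 1 := by
    intro x
    rw [norm_mul, norm_inv, Complex.norm_real, Real.norm_of_nonneg hC.le,
      inv_mul_le_iff₀ hC, mul_one]
    exact hFC x
  have hAξ : ∀ z ∈ LL G k, ∀ x, (C : ℂ)⁻¹ * F (z * x) =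
      ex (dot ξ (M.p k z)) * ((C : ℂ)⁻¹ * F x) := by
    intro z hz x
    rw [hξ z hz x]
    ring
  have hq : ∀ ar : G × G, QP (M.sq.p 0) (Phi (fun x => (C : ℂ)⁻¹ * F x) ar) 0 := by
    intro ar
    obtain ⟨c, hc⟩ := ih _ (Phi_adm M hA ξ hAξ ar)
    have hc0 := Phi_zero M hk hA ξ hξ0 hAξ ar c hc
    rwa [hc0] at hc
  have hmain := step_b M hk hA hA1 ξ hξ0 hAξ hq
  intro κ hκ
  obtain ⟨B, hB⟩ := hmain (κ / C) (div_pos hκ hC)
  refine ⟨B, ?_⟩
  intro J g a hJ hJs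
  apply hB J g a hJ
  have h1 : ∑ j ∈ range J, ((C : ℂ)⁻¹ * F (g ^ j * a) - 0) =
      (C : ℂ)⁻¹ * ∑ j ∈ range J, (F (g ^ j * a) - 0) := by
    rw [Finset.mul_sum]
    apply Finset.sum_congr rfl
    intro j _
    ring
  rw [h1, norm_mul, norm_inv, Complex.norm_real, Real.norm_of_nonneg hC.le]
  rw [div_mul_eq_mul_div, div_eq_inv_mul]
  exact mul_le_mul_of_nonneg_left hJs (inv_nonneg.2 hC.le)

end Pool.Agent.Lib.MP_3e612f_nt.NF
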